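import Pool.Agent.Lib.SHP.Defs

/-!
# Module Bin (pure): central moments of sums of independent indicators

PROOF. `EB (insert a S) g F = (1 - g a) EB S g F + g a EB S g (F (· + 1))` (`Finset.sum_powerset_insert`). By induction on `S`:
`EB S g ((j - ∑_S g) F j) = ∑_(s ∈ S) g s (1 - g s) EB (S \ s) g (F (j + 1) - F j)`. With `F j = (j - ∑_S g) ^ (k + 1)` it gives `cm S g (k + 2)`
in terms of the moments `cm (S \ s) g i`, `i ≤ k`. As `cm (S \ s) g k` is close to `cm S g k`: `cm S g (k + 2)` is close to `(k + 1) vr S g cm S g k`.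
-/

set_option autoImplicit false

open Finset Filter

namespace Pool.Agent.SHP

namespace BinAux

lemma EB_insert (S : Finset ℕ) (g : ℕ → ℝ) (F : ℕ → ℝ) (a : ℕ) (ha : a ∉ S) :
    EB (insert a S) g F = (1 - g a) * EB S g F + g a * EB S g (fun j => F (j + 1)) := by
  unfold EB
  rw [Finset.sum_powerset_insert ha, Finset.mul_sum, Finset.mul_sum]
  congr 1
  · apply Finset.sum_congr rfl
    intro T hT
    have hTS := Finset.mem_powerset.mp hT
    have haT : a ∉ T := fun h => ha (hTS h)
    rw [Finset.insert_sdiff_of_notMem _ haT, Finset.prod_insert (by simp [ha])]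
    ring
  · apply Finset.sum_congr rfl
    intro T hT
    have hTS := Finset.mem_powerset.mp hT
    have haT : a ∉ T := fun h => ha (hTS h)
    have h1 : (insert a S) \ (insert a T) = S \ T := by
      ext x
      simp only [Finset.mem_sdiff, Finset.mem_insert, not_or]
      constructor
      · rintro ⟨h1 | h1, h2, h3⟩
        · exact absurd h1 h2
        · exact ⟨h1, h3⟩
      · rintro ⟨h1, h2⟩
        exact ⟨Or.inr h1, fun h => ha (h ▸ h1), h2⟩
    rw [Finset.prod_insert haT, Finset.card_insert_of_notMem haT, h1]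
    ring

lemma EB_sum (S : Finset ℕ) (g : ℕ → ℝ) {ι : Type} (I : Finset ι) (c : ι → ℝ) (F : ι → ℕ → ℝ) :
    EB S g (fun j => ∑ i ∈ I, c i * F i j) = ∑ i ∈ I, c i * EB S g (F i) := by
  unfold EB
  simp only [Finset.mul_sum]
  rw [Finset.sum_comm]
  apply Finset.sum_congr rfl
  intro i _
  apply Finset.sum_congr rfl
  intro T _
  ring

lemma EB_lin (S : Finset ℕ) (g : ℕ → ℝ) (F G : ℕ → ℝ) (c d : ℝ) :
    EB S g (fun j => c * F j + d * G j) = c * EB S g F + d * EB S g G := by
  unfold EB
  rw [Finset.mul_sum, Finset.mul_sum, ← Finset.sum_add_distrib]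
  apply Finset.sum_congr rfl
  intro T _
  ring

/-- the identity of Stein -/
lemma stein (g : ℕ → ℝ) (S : Finset ℕ) : ∀ F : ℕ → ℝ,
    EB S g (fun j => ((j : ℝ) - ∑ s ∈ S, g s) * F j) =
      ∑ s ∈ S, g s * (1 - g s) * EB (S.erase s) g (fun j => F (j + 1) - F j) := by
  induction S using Finset.induction_on with
  | empty =>
    intro F
    simp [EB]
  | insert a S ha ih =>
    intro F
    rw [EB_insert _ _ _ _ ha, Finset.sum_insert ha, Finset.sum_insert ha]
    have h1 : EB S g (fun j => ((j : ℝ) - (g a + ∑ s ∈ S, g s)) * F j) =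
        EB S g (fun j => ((j : ℝ) - ∑ s ∈ S, g s) * F j) - g a * EB S g F := by
      have h := EB_lin S g (fun j => ((j : ℝ) - ∑ s ∈ S, g s) * F j) F 1 (-g a)
      rw [one_mul, neg_mul, ← sub_eq_add_neg] at h
      rw [← h]
      congr 1
      funext j
      ring
    have h2 : EB S g (fun j => (((j + 1 : ℕ) : ℝ) - (g a + ∑ s ∈ S, g s)) * F (j + 1)) =
        EB S g (fun j => ((j : ℝ) - ∑ s ∈ S, g s) * F (j + 1)) +
          (1 - g a) * EB S g (fun j => F (j + 1)) := by
      have h := EB_lin S g (fun j => ((j : ℝ) - ∑ s ∈ S, g s) * F (j + 1)) (fun j => F (j + 1)) 1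
        (1 - g a)
      rw [one_mul] at h
      rw [← h]
      congr 1
      funext j
      push_cast
      ring
    rw [h1, h2, ih F, ih (fun j => F (j + 1)), Finset.erase_insert ha]
    have h3 : EB S g (fun j => F (j + 1) - F j) = EB S g (fun j => F (j + 1)) - EB S g F := by
      have h := EB_lin S g (fun j => F (j + 1)) F 1 (-1)
      rw [one_mul, neg_one_mul, ← sub_eq_add_neg] at h
      rw [← h]
      congr 1
      funext j
      ring
    have h4 : ∑ s ∈ S, g s * (1 - g s) * EB ((insert a S).erase s) g (fun j => F (j + 1) - F j) =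
        (1 - g a) * ∑ s ∈ S, g s * (1 - g s) * EB (S.erase s) g (fun j => F (j + 1) - F j) +
        g a * ∑ s ∈ S, g s * (1 - g s) *
          EB (S.erase s) g (fun j => F (j + 1 + 1) - F (j + 1)) := by
      rw [Finset.mul_sum, Finset.mul_sum, ← Finset.sum_add_distrib]
      apply Finset.sum_congr rfl
      intro s hs
      have hsa : s ≠ a := fun h => ha (h ▸ hs)
      rw [Finset.erase_insert_of_ne hsa.symm, EB_insert _ _ _ _ (fun h => ha (Finset.mem_of_mem_erase h))]
      ring
    rw [h4, h3]
    ring

/-- expansion of a power of `j - μ + d` -/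
lemma EB_shift (S : Finset ℕ) (g : ℕ → ℝ) (d : ℝ) (k : ℕ) :
    EB S g (fun j => ((j : ℝ) - ∑ s ∈ S, g s + d) ^ k) =
      ∑ i ∈ range (k + 1), (d ^ (k - i) * k.choose i) * cm S g i := by
  unfold cm
  rw [← EB_sum]
  congr 1
  funext j
  rw [add_pow]
  apply Finset.sum_congr rfl
  intro i _
  ring

lemma sum_erase' (S : Finset ℕ) (g : ℕ → ℝ) (s : ℕ) (hs : s ∈ S) :
    ∑ t ∈ S, g t = g s + ∑ t ∈ S.erase s, g t := (Finset.add_sum_erase S g hs).symm

/-- the moments of `S` in terms of those of `S \ s` -/
lemma cm_erase (S : Finset ℕ) (g : ℕ → ℝ) (s : ℕ) (hs : s ∈ S) (k : ℕ) :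
    cm S g k = ∑ i ∈ range (k + 1),
      (((1 - g s) * (-g s) ^ (k - i) + g s * (1 - g s) ^ (k - i)) * k.choose i) *
        cm (S.erase s) g i := by
  have h1 : cm S g k = (1 - g s) * EB (S.erase s) g
      (fun j => ((j : ℝ) - ∑ t ∈ S.erase s, g t + (-g s)) ^ k) +
      g s * EB (S.erase s) g (fun j => ((j : ℝ) - ∑ t ∈ S.erase s, g t + (1 - g s)) ^ k) := by
    have h2 := EB_insert (S.erase s) g (fun j => ((j : ℝ) - ∑ t ∈ S, g t) ^ k) s
      (Finset.notMem_erase s S)
    rw [Finset.insert_erase hs] at h2
    unfold cm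
    rw [h2, sum_erase' S g s hs]
    congr 2
    · congr 1
      funext j
      congr 1
      ring
    · congr 1
      funext j
      congr 1
      push_cast
      ring
  rw [h1, EB_shift, EB_shift, Finset.mul_sum, Finset.mul_sum, ← Finset.sum_add_distrib]
  apply Finset.sum_congr rfl
  intro i _
  ring

/-- the recursion for the central moments -/
lemma cm_step (S : Finset ℕ) (g : ℕ → ℝ) (k : ℕ) :
    cm S g (k + 1) = ∑ s ∈ S, g s * (1 - g s) * ∑ i ∈ range (k + 1),
      (((1 - g s) ^ (k - i) - (-g s) ^ (k - i)) * k.choose i) * cm (S.erase s) g i := by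
  have h0 : cm S g (k + 1) = EB S g (fun j => ((j : ℝ) - ∑ s ∈ S, g s) *
      (fun j : ℕ => ((j : ℝ) - ∑ s ∈ S, g s) ^ k) j) := by
    unfold cm
    congr 1
    funext j
    simp only
    ring
  rw [h0, stein]
  apply Finset.sum_congr rfl
  intro s hs
  congr 1
  have h1 := EB_shift (S.erase s) g (1 - g s) k
  have h2 := EB_shift (S.erase s) g (-g s) k
  have h3 : EB (S.erase s) g (fun j => (((j + 1 : ℕ) : ℝ) - ∑ t ∈ S, g t) ^ k -
      ((j : ℝ) - ∑ t ∈ S, g t) ^ k) =
      EB (S.erase s) g (fun j => ((j : ℝ) - ∑ s ∈ S.erase s, g s + (1 - g s)) ^ k) -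
      EB (S.erase s) g (fun j => ((j : ℝ) - ∑ s ∈ S.erase s, g s + (-g s)) ^ k) := by
    have h := EB_lin (S.erase s) g (fun j => ((j : ℝ) - ∑ s ∈ S.erase s, g s + (1 - g s)) ^ k)
      (fun j => ((j : ℝ) - ∑ s ∈ S.erase s, g s + (-g s)) ^ k) 1 (-1)
    rw [one_mul, neg_one_mul, ← sub_eq_add_neg] at h
    rw [← h]
    congr 1
    funext j
    rw [sum_erase' S g s hs]
    push_cast
    ring
  rw [h3, h1, h2, ← Finset.sum_sub_distrib]
  apply Finset.sum_congr rfl
  intro i _
  ring

lemma cm_zero (S : Finset ℕ) (g : ℕ → ℝ) : cm S g 0 = 1 := by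
  induction S using Finset.induction_on with
  | empty => simp [cm, EB]
  | insert a S ha ih =>
    have h := cm_erase (insert a S) g a (Finset.mem_insert_self a S) 0
    rw [h, Finset.erase_insert ha]
    simp [ih]

lemma cm_one (S : Finset ℕ) (g : ℕ → ℝ) : cm S g 1 = 0 := by
  rw [cm_step S g 0]
  simp

lemma gm_nonneg : ∀ k : ℕ, 0 ≤ gm k
  | 0 => by simp [gm]
  | 1 => by simp [gm]
  | k + 2 => by
    have := gm_nonneg k
    rw [gm]
    positivity

end BinAux

open BinAux in
theorem cm_bound (k : ℕ) : ∃ C : ℝ, 0 < C ∧ ∀ (S : Finset ℕ) (g : ℕ → ℝ) (u : ℝ), (∀ s ∈ S, 0 ≤ g s ∧ g s ≤ 1) → 1 ≤ u →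
    ∑ s ∈ S, g s ≤ u ^ 2 →
    |cm S g k| ≤ C * u ^ k ∧ u * |cm S g k - gm k * √(vr S g) ^ k| ≤ C * u ^ k := by
  induction k using Nat.strong_induction_on with
  | _ k ih =>
  rcases k with _ | _ | k
  · refine ⟨1, one_pos, fun S g u _ hu _ => ?_⟩
    rw [cm_zero]
    simp [gm]
  · refine ⟨1, one_pos, fun S g u _ hu _ => ?_⟩
    rw [cm_one]
    simp [gm]
    linarith
  · choose! C hC0 hC using fun i (hi : i < k + 2) => ih i hi
    obtain ⟨B, hB⟩ : ∃ B : ℝ, B = ∑ i ∈ range (k + 1), 2 * C i * ((k + 1).choose i + k.choose i) :=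
      ⟨_, rfl⟩
    have hCpos : ∀ i ∈ range (k + 1), 0 < C i := fun i hi =>
      hC0 i (by have := Finset.mem_range.mp hi; omega)
    have hB0 : 0 ≤ B := by
      rw [hB]
      apply Finset.sum_nonneg
      intro i hi
      have := hCpos i hi
      positivity
    have hCk := hC0 k (by omega)
    refine ⟨(k + 2) * B + (k + 1) * C k + gm (k + 2) + 1, by
      have := gm_nonneg (k + 2)
      positivity, fun S g u hg hu hsum => ?_⟩
    have hu0 : 0 < u := by linarith
    have hvr0 : 0 ≤ vr S g := by
      unfold vr
      apply Finset.sum_nonneg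
      intro s hs
      have := hg s hs
      exact mul_nonneg this.1 (by linarith [this.2])
    have hvr : vr S g ≤ u ^ 2 := by
      refine le_trans ?_ hsum
      unfold vr
      apply Finset.sum_le_sum
      intro s hs
      have := hg s hs
      nlinarith [this.1, this.2]
    have hsub : ∀ s ∈ S, (∀ t ∈ S.erase s, 0 ≤ g t ∧ g t ≤ 1) ∧ ∑ t ∈ S.erase s, g t ≤ u ^ 2 := by
      intro s hs
      refine ⟨fun t ht => hg t (Finset.mem_of_mem_erase ht), ?_⟩
      have h1 := sum_erase' S g s hs
      have := (hg s hs).1
      linarith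
    have hcm : ∀ s ∈ S, ∀ i ∈ range (k + 1), |cm (S.erase s) g i| ≤ C i * u ^ i := by
      intro s hs i hi
      exact (hC i (by have := Finset.mem_range.mp hi; omega) (S.erase s) g u (hsub s hs).1 hu
        (hsub s hs).2).1
    have hpow : ∀ i ∈ range k, u * u ^ i ≤ u ^ k := by
      intro i hi
      rw [← pow_succ']
      exact pow_le_pow_right₀ hu (Finset.mem_range.mp hi)
    -- comparison of the moments of `S` and of `S \ s`
    have hA : ∀ s ∈ S, u * |cm S g k - cm (S.erase s) g k| ≤ B * u ^ k := by
      intro s hs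
      have hgs := hg s hs
      have h1 := cm_erase S g s hs k
      rw [Finset.sum_range_succ] at h1
      simp only [Nat.sub_self, pow_zero, mul_one, Nat.choose_self, Nat.cast_one,
        sub_add_cancel, one_mul] at h1
      rw [h1, add_sub_cancel_right]
      calc u * |∑ i ∈ range k, (((1 - g s) * (-g s) ^ (k - i) + g s * (1 - g s) ^ (k - i)) *
            k.choose i) * cm (S.erase s) g i|
          ≤ u * ∑ i ∈ range k, |(((1 - g s) * (-g s) ^ (k - i) + g s * (1 - g s) ^ (k - i)) *
            k.choose i) * cm (S.erase s) g i| := by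
            gcongr
            exact Finset.abs_sum_le_sum_abs _ _
        _ = ∑ i ∈ range k, u * |(((1 - g s) * (-g s) ^ (k - i) + g s * (1 - g s) ^ (k - i)) *
            k.choose i) * cm (S.erase s) g i| := Finset.mul_sum _ _ _
        _ ≤ ∑ i ∈ range k, (2 * C i * ((k + 1).choose i + k.choose i)) * u ^ k := by
            apply Finset.sum_le_sum
            intro i hi
            have hi' : i ∈ range (k + 1) := Finset.mem_range.mpr
              ((Finset.mem_range.mp hi).trans (Nat.lt_succ_self k))
            have h2 : |(1 - g s) * (-g s) ^ (k - i) + g s * (1 - g s) ^ (k - i)| ≤ 2 := by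
              have h3 : |(1 - g s) * (-g s) ^ (k - i)| ≤ 1 := by
                rw [abs_mul, abs_pow, abs_neg, abs_of_nonneg hgs.1,
                  abs_of_nonneg (by linarith : 0 ≤ 1 - g s)]
                exact mul_le_one₀ (by linarith) (pow_nonneg hgs.1 _) (pow_le_one₀ hgs.1 hgs.2)
              have h4 : |g s * (1 - g s) ^ (k - i)| ≤ 1 := by
                rw [abs_mul, abs_pow, abs_of_nonneg hgs.1,
                  abs_of_nonneg (by linarith : 0 ≤ 1 - g s)]
                exact mul_le_one₀ hgs.2 (pow_nonneg (by linarith) _)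
                  (pow_le_one₀ (by linarith) (by linarith))
              exact (abs_add_le _ _).trans (by linarith)
            rw [abs_mul, abs_mul, Nat.abs_cast]
            have h5 := hcm s hs i hi'
            have h6 := hpow i hi
            have h7 := hCpos i hi'
            calc u * (|(1 - g s) * (-g s) ^ (k - i) + g s * (1 - g s) ^ (k - i)| *
                  (k.choose i : ℝ) * |cm (S.erase s) g i|)
                ≤ u * (2 * (k.choose i : ℝ) * (C i * u ^ i)) := by gcongr
              _ = 2 * C i * (k.choose i : ℝ) * (u * u ^ i) := by ring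
              _ ≤ 2 * C i * ((k + 1).choose i + k.choose i) * u ^ k := by
                  gcongr
                  have : (0 : ℝ) ≤ (k + 1).choose i := Nat.cast_nonneg _
                  linarith
        _ ≤ B * u ^ k := by
            rw [← Finset.sum_mul, hB]
            apply mul_le_mul_of_nonneg_right _ (by positivity)
            apply Finset.sum_le_sum_of_subset_of_nonneg
            · exact Finset.range_subset_range.mpr (Nat.le_succ k)
            · intro i hi _
              have := hCpos i hi
              positivity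
    -- the recursion
    have hD : ∀ s ∈ S, u * |∑ i ∈ range (k + 1 + 1),
        (((1 - g s) ^ (k + 1 - i) - (-g s) ^ (k + 1 - i)) * (k + 1).choose i) *
          cm (S.erase s) g i - (k + 1) * cm (S.erase s) g k| ≤ B * u ^ k := by
      intro s hs
      have hgs := hg s hs
      rw [Finset.sum_range_succ, Finset.sum_range_succ]
      have e1 : k + 1 - k = 1 := by omega
      have e2 : ((k + 1).choose k : ℝ) = k + 1 := by
        rw [Nat.choose_succ_self_right]
        push_cast
        ring
      rw [e1, e2]
      simp only [Nat.sub_self, pow_zero, sub_self, zero_mul, add_zero, pow_one]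
      have e3 : (1 - g s - -g s) * ((k : ℝ) + 1) * cm (S.erase s) g k =
          (k + 1) * cm (S.erase s) g k := by ring
      rw [e3, add_sub_cancel_right]
      calc u * |∑ i ∈ range k, (((1 - g s) ^ (k + 1 - i) - (-g s) ^ (k + 1 - i)) *
            (k + 1).choose i) * cm (S.erase s) g i|
          ≤ u * ∑ i ∈ range k, |(((1 - g s) ^ (k + 1 - i) - (-g s) ^ (k + 1 - i)) *
            (k + 1).choose i) * cm (S.erase s) g i| := by
            gcongr
            exact Finset.abs_sum_le_sum_abs _ _
        _ = ∑ i ∈ range k, u * |(((1 - g s) ^ (k + 1 - i) - (-g s) ^ (k + 1 - i)) *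
            (k + 1).choose i) * cm (S.erase s) g i| := Finset.mul_sum _ _ _
        _ ≤ ∑ i ∈ range k, (2 * C i * ((k + 1).choose i + k.choose i)) * u ^ k := by
            apply Finset.sum_le_sum
            intro i hi
            have hi' : i ∈ range (k + 1) := Finset.mem_range.mpr
              ((Finset.mem_range.mp hi).trans (Nat.lt_succ_self k))
            have h2 : |(1 - g s) ^ (k + 1 - i) - (-g s) ^ (k + 1 - i)| ≤ 2 := by
              have h3 : |(1 - g s) ^ (k + 1 - i)| ≤ 1 := by
                rw [abs_pow, abs_of_nonneg (by linarith : 0 ≤ 1 - g s)]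
                exact pow_le_one₀ (by linarith) (by linarith)
              have h4 : |(-g s) ^ (k + 1 - i)| ≤ 1 := by
                rw [abs_pow, abs_neg, abs_of_nonneg hgs.1]
                exact pow_le_one₀ hgs.1 hgs.2
              exact (abs_sub _ _).trans (by linarith)
            rw [abs_mul, abs_mul, Nat.abs_cast]
            have h5 := hcm s hs i hi'
            have h6 := hpow i hi
            have h7 := hCpos i hi'
            calc u * (|(1 - g s) ^ (k + 1 - i) - (-g s) ^ (k + 1 - i)| *
                  ((k + 1).choose i : ℝ) * |cm (S.erase s) g i|)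
                ≤ u * (2 * ((k + 1).choose i : ℝ) * (C i * u ^ i)) := by gcongr
              _ = 2 * C i * ((k + 1).choose i : ℝ) * (u * u ^ i) := by ring
              _ ≤ 2 * C i * ((k + 1).choose i + k.choose i) * u ^ k := by
                  gcongr
                  have : (0 : ℝ) ≤ k.choose i := Nat.cast_nonneg _
                  linarith
        _ ≤ B * u ^ k := by
            rw [← Finset.sum_mul, hB]
            apply mul_le_mul_of_nonneg_right _ (by positivity)
            apply Finset.sum_le_sum_of_subset_of_nonneg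
            · exact Finset.range_subset_range.mpr (Nat.le_succ k)
            · intro i hi _
              have := hCpos i hi
              positivity
    have hE : u * |cm S g (k + 2) - (k + 1) * vr S g * cm S g k| ≤ (k + 2) * B * u ^ (k + 2) := by
      have h1 : cm S g (k + 2) - (k + 1) * vr S g * cm S g k = ∑ s ∈ S, g s * (1 - g s) *
          ((∑ i ∈ range (k + 1 + 1),
            (((1 - g s) ^ (k + 1 - i) - (-g s) ^ (k + 1 - i)) * (k + 1).choose i) *
              cm (S.erase s) g i - (k + 1) * cm (S.erase s) g k) -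
            (k + 1) * (cm S g k - cm (S.erase s) g k)) := by
        rw [cm_step S g (k + 1)]
        unfold vr
        rw [mul_assoc, Finset.sum_mul, Finset.mul_sum, ← Finset.sum_sub_distrib]
        apply Finset.sum_congr rfl
        intro s _
        ring
      rw [h1]
      calc u * |∑ s ∈ S, g s * (1 - g s) *
          ((∑ i ∈ range (k + 1 + 1),
            (((1 - g s) ^ (k + 1 - i) - (-g s) ^ (k + 1 - i)) * (k + 1).choose i) *
              cm (S.erase s) g i - (k + 1) * cm (S.erase s) g k) -
            (k + 1) * (cm S g k - cm (S.erase s) g k))|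
          ≤ u * ∑ s ∈ S, |g s * (1 - g s) *
          ((∑ i ∈ range (k + 1 + 1),
            (((1 - g s) ^ (k + 1 - i) - (-g s) ^ (k + 1 - i)) * (k + 1).choose i) *
              cm (S.erase s) g i - (k + 1) * cm (S.erase s) g k) -
            (k + 1) * (cm S g k - cm (S.erase s) g k))| := by
            gcongr
            exact Finset.abs_sum_le_sum_abs _ _
        _ = ∑ s ∈ S, u * |g s * (1 - g s) *
          ((∑ i ∈ range (k + 1 + 1),
            (((1 - g s) ^ (k + 1 - i) - (-g s) ^ (k + 1 - i)) * (k + 1).choose i) *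
              cm (S.erase s) g i - (k + 1) * cm (S.erase s) g k) -
            (k + 1) * (cm S g k - cm (S.erase s) g k))| := Finset.mul_sum _ _ _
        _ ≤ ∑ s ∈ S, g s * ((k + 2) * B * u ^ k) := by
            apply Finset.sum_le_sum
            intro s hs
            have hgs := hg s hs
            have h2 := hA s hs
            have h3 := hD s hs
            generalize (∑ i ∈ range (k + 1 + 1),
              (((1 - g s) ^ (k + 1 - i) - (-g s) ^ (k + 1 - i)) * (k + 1).choose i) *
              cm (S.erase s) g i - (k + 1) * cm (S.erase s) g k) = x at h3 ⊢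
            generalize cm S g k - cm (S.erase s) g k = y at h2 ⊢
            rw [abs_mul, abs_mul, abs_of_nonneg hgs.1,
              abs_of_nonneg (by linarith : 0 ≤ 1 - g s)]
            have h4 : |x - (k + 1) * y| ≤ |x| + (k + 1) * |y| := by
              refine (abs_sub _ _).trans ?_
              rw [abs_mul, abs_of_nonneg (by positivity : (0 : ℝ) ≤ k + 1)]
            have h5 : u * |x - (k + 1) * y| ≤ (k + 2) * B * u ^ k := by
              calc u * |x - (k + 1) * y| ≤ u * (|x| + (k + 1) * |y|) := by gcongr
                _ = u * |x| + (k + 1) * (u * |y|) := by ring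
                _ ≤ B * u ^ k + (k + 1) * (B * u ^ k) := by gcongr
                _ = _ := by ring
            calc u * (g s * (1 - g s) * |x - (k + 1) * y|) =
                g s * ((1 - g s) * (u * |x - (k + 1) * y|)) := by ring
              _ ≤ g s * (1 * (u * |x - (k + 1) * y|)) := by
                  apply mul_le_mul_of_nonneg_left _ hgs.1
                  apply mul_le_mul_of_nonneg_right (by linarith)
                  positivity
              _ ≤ g s * ((k + 2) * B * u ^ k) := by
                  apply mul_le_mul_of_nonneg_left _ hgs.1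
                  rw [one_mul]
                  exact h5
        _ = (∑ s ∈ S, g s) * ((k + 2) * B * u ^ k) := (Finset.sum_mul _ _ _).symm
        _ ≤ u ^ 2 * ((k + 2) * B * u ^ k) := by gcongr
        _ = _ := by ring
    have hIH := (hC k (by omega) S g u hg hu hsum).2
    have hgm : gm (k + 2) * √(vr S g) ^ (k + 2) =
        (k + 1) * vr S g * (gm k * √(vr S g) ^ k) := by
      rw [gm, pow_add, Real.sq_sqrt hvr0]
      ring
    have hfin : u * |cm S g (k + 2) - gm (k + 2) * √(vr S g) ^ (k + 2)| ≤
        ((k + 2) * B + (k + 1) * C k) * u ^ (k + 2) := by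
      have h1 : cm S g (k + 2) - gm (k + 2) * √(vr S g) ^ (k + 2) =
          (cm S g (k + 2) - (k + 1) * vr S g * cm S g k) +
          (k + 1) * vr S g * (cm S g k - gm k * √(vr S g) ^ k) := by
        rw [hgm]
        ring
      rw [h1]
      calc u * |(cm S g (k + 2) - (k + 1) * vr S g * cm S g k) +
          (k + 1) * vr S g * (cm S g k - gm k * √(vr S g) ^ k)|
          ≤ u * (|cm S g (k + 2) - (k + 1) * vr S g * cm S g k| +
            (k + 1) * vr S g * |cm S g k - gm k * √(vr S g) ^ k|) := by
            gcongr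
            refine (abs_add_le _ _).trans ?_
            rw [abs_mul ((k + 1) * vr S g),
              abs_of_nonneg (by positivity : (0 : ℝ) ≤ (k + 1) * vr S g)]
        _ = u * |cm S g (k + 2) - (k + 1) * vr S g * cm S g k| +
            (k + 1) * vr S g * (u * |cm S g k - gm k * √(vr S g) ^ k|) := by ring
        _ ≤ (k + 2) * B * u ^ (k + 2) + (k + 1) * u ^ 2 * (C k * u ^ k) := by gcongr
        _ = _ := by ring
    have hup : 0 < u ^ (k + 2) := by positivity
    have hgm0 := gm_nonneg (k + 2)
    constructor
    · have h1 : |cm S g (k + 2) - gm (k + 2) * √(vr S g) ^ (k + 2)| ≤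
          ((k + 2) * B + (k + 1) * C k) * u ^ (k + 2) := by
        refine le_trans ?_ hfin
        exact le_mul_of_one_le_left (abs_nonneg _) hu
      have h2 : √(vr S g) ≤ u := by
        rw [← Real.sqrt_sq hu0.le]
        exact Real.sqrt_le_sqrt hvr
      have h3 : gm (k + 2) * √(vr S g) ^ (k + 2) ≤ gm (k + 2) * u ^ (k + 2) := by gcongr
      have h4 : 0 ≤ gm (k + 2) * √(vr S g) ^ (k + 2) := by positivity
      have h5 : |cm S g (k + 2)| ≤ |cm S g (k + 2) - gm (k + 2) * √(vr S g) ^ (k + 2)| +
          gm (k + 2) * √(vr S g) ^ (k + 2) := by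
        have := abs_sub_abs_le_abs_sub (cm S g (k + 2)) (gm (k + 2) * √(vr S g) ^ (k + 2))
        rw [abs_of_nonneg h4] at this
        linarith
      have h6 : ((k + 2) * B + (k + 1) * C k + gm (k + 2) + 1) * u ^ (k + 2) =
          ((k + 2) * B + (k + 1) * C k) * u ^ (k + 2) + gm (k + 2) * u ^ (k + 2) +
            u ^ (k + 2) := by ring
      show |cm S g (k + 2)| ≤ ((k + 2) * B + (k + 1) * C k + gm (k + 2) + 1) * u ^ (k + 2)
      rw [h6]
      linarith
    · show u * |cm S g (k + 2) - gm (k + 2) * √(vr S g) ^ (k + 2)| ≤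
        ((k + 2) * B + (k + 1) * C k + gm (k + 2) + 1) * u ^ (k + 2)
      refine hfin.trans ?_
      apply mul_le_mul_of_nonneg_right _ hup.le
      linarith

end Pool.Agent.SHP
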