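import Pool.Agent.Lib.SHP.Defs

/-!
# Module Bonf (pure): Poisson distribution from factorial moments

(1) For `k ≤ J` and all `N`: `|[N = k] - ∑_{j=k}^J (-1)^(j-k) choose j k choose N j| ≤ choose (J+1) k choose N (J+1)`. With `choose j k choose N j = choose N k choose (N-k) (j-k)`, `n = N - k`,
`M = J - k`: `∑_{i ≤ M} (-1)^i choose n i = (-1)^M choose (n-1) M` for `n ≥ 1` and `choose (n-1) M ≤ choose n (M+1)`; for `n = 0` both sides are `0`; for `N < k` all is `0`.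
(2) For `μ ≥ 0`: `|e^(-μ) μ^k / k! - ∑_{j=k}^J (-1)^(j-k) choose j k μ^j / j!| ≤ choose (J+1) k μ^(J+1) / (J+1)!`: the sum is `μ^k / k! ∑_{i ≤ J-k} (-μ)^i / i!`; Taylor
(`|e^(-μ) - ∑_{i ≤ M} (-μ)^i / i!| ≤ μ^(M+1) / (M+1)!` for `μ ≥ 0`).
(3) Average (1) over `n`. If all `|B_j - μ^j / j!| ≤ δ` for `j ≤ J + 1`, the difference is at most `δ 2^(J+1) (J + 2) + 2 choose (J+1) k μ^(J+1) / (J+1)! + ...`; `choose (J+1) k ≤ 2^(J+1)` and
`(2 λ)^(J+1) / (J+1)! → 0`. Take `J ≥ R` large, then `δ` small. (`J` in the statement is `J + 1` here.)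
`esym_bound`: `d_j(S) = (∑ g)^j / j! - ∑_{T ⊆ S, #T = j} ∏_T g ≥ 0`; `d_j(insert a S) = [(m+g)^j - m^j - j g m^(j-1)] / j! + d_j(S) + g d_(j-1)(S)`, so by induction on `j` and `S`
`0 ≤ d_j(S) ≤ C_j γ (∑_S g) (1 + m)^j` with `m` an upper bound for `∑ g` over the whole set (`g² ≤ γ g`).
-/

set_option autoImplicit false

open Finset Filter

namespace Pool.Agent.SHP

namespace BonfAux

/-- the elementary symmetric sum -/
noncomputable def es (g : ℕ → ℝ) (S : Finset ℕ) (j : ℕ) : ℝ :=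
  ∑ T ∈ S.powersetCard j, ∏ s ∈ T, g s

theorem es_insert (g : ℕ → ℝ) {a : ℕ} {S : Finset ℕ} (h : a ∉ S) (j : ℕ) :
    es g (insert a S) (j + 1) = es g S (j + 1) + g a * es g S j := by
  unfold es
  have hmem : ∀ T ∈ powersetCard j S, a ∉ T := fun T hT haT =>
    h ((mem_powersetCard.mp hT).1 haT)
  rw [powersetCard_succ_insert h, sum_union, sum_image, mul_sum]
  · congr 1
    refine sum_congr rfl fun T hT => ?_
    rw [prod_insert (hmem T hT)]
  · intro T hT U hU hTU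
    have h1 := hmem T hT
    have h2 := hmem U hU
    rw [← erase_insert h1, ← erase_insert h2, hTU]
  · rw [disjoint_left]
    intro T hT hT2
    obtain ⟨U, hU, rfl⟩ := mem_image.mp hT2
    exact h ((mem_powersetCard.mp hT).1 (mem_insert_self _ _))

theorem br {m g M : ℝ} (hm : 0 ≤ m) (hg : 0 ≤ g) (hM : m + g ≤ M) (h1 : 1 ≤ M) (n : ℕ) :
    0 ≤ (m + g) ^ (n + 1) - m ^ (n + 1) - (n + 1) * g * m ^ n ∧
      (m + g) ^ (n + 1) - m ^ (n + 1) - (n + 1) * g * m ^ n ≤ ((n : ℝ) + 1) ^ 2 * g ^ 2 * M ^ (n + 1) := by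
  induction n with
  | zero =>
    have h0 : 0 ≤ g ^ 2 * M := by positivity
    constructor
    · simp
    · simp only [Nat.cast_zero, zero_add, pow_one, pow_zero]
      linarith
  | succ n ih =>
    have e : (m + g) ^ (n + 1 + 1) - m ^ (n + 1 + 1) - (((n + 1 : ℕ) : ℝ) + 1) * g * m ^ (n + 1) =
        (m + g) * ((m + g) ^ (n + 1) - m ^ (n + 1) - (n + 1) * g * m ^ n) +
          (n + 1) * g ^ 2 * m ^ n := by
      push_cast
      ring
    have hmM : m ≤ M := by linarith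
    have hM0 : 0 ≤ M := by linarith
    have hmn : m ^ n ≤ M ^ (n + 2) :=
      (pow_le_pow_left₀ hm hmM n).trans (pow_le_pow_right₀ h1 (by omega))
    rw [e]
    constructor
    · have := mul_nonneg (add_nonneg hm hg) ih.1
      positivity
    · have h3 : (m + g) * ((m + g) ^ (n + 1) - m ^ (n + 1) - (n + 1) * g * m ^ n) ≤
          M * (((n : ℝ) + 1) ^ 2 * g ^ 2 * M ^ (n + 1)) :=
        mul_le_mul hM ih.2 ih.1 hM0
      have h4 : (n + 1) * g ^ 2 * m ^ n ≤ ((n : ℝ) + 1) * g ^ 2 * M ^ (n + 2) :=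
        mul_le_mul_of_nonneg_left hmn (by positivity)
      have h5 : M * (((n : ℝ) + 1) ^ 2 * g ^ 2 * M ^ (n + 1)) =
          ((n : ℝ) + 1) ^ 2 * (g ^ 2 * M ^ (n + 2)) := by ring
      have h6 : ((n : ℝ) + 1) * g ^ 2 * M ^ (n + 2) = ((n : ℝ) + 1) * (g ^ 2 * M ^ (n + 2)) := by
        ring
      have h7 : (((n + 1 : ℕ) : ℝ) + 1) ^ 2 * g ^ 2 * M ^ (n + 1 + 1) =
          ((n : ℝ) + 2) ^ 2 * (g ^ 2 * M ^ (n + 2)) := by
        push_cast
        ring
      have h8 : 0 ≤ g ^ 2 * M ^ (n + 2) := by positivity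
      rw [h7]
      nlinarith [h3, h4, h5, h6, h8]

theorem d_bound (j : ℕ) : ∃ C : ℝ, 0 ≤ C ∧ ∀ (g : ℕ → ℝ) (γ M : ℝ) (S : Finset ℕ), 0 ≤ γ → γ ≤ 1 →
    (∀ s ∈ S, 0 ≤ g s ∧ g s ≤ γ) → 1 + ∑ s ∈ S, g s ≤ M →
    0 ≤ (∑ s ∈ S, g s) ^ j / (j.factorial : ℝ) - es g S j ∧
      (∑ s ∈ S, g s) ^ j / (j.factorial : ℝ) - es g S j ≤ C * γ * (∑ s ∈ S, g s) * M ^ j := by
  induction j with
  | zero =>
    refine ⟨0, le_refl _, fun g γ M S _ _ _ _ => ?_⟩
    simp [es]
  | succ j ih =>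
    obtain ⟨C, hC, ih⟩ := ih
    refine ⟨((j : ℝ) + 1) ^ 2 + C, by positivity, fun g γ M S hγ0 hγ1 => ?_⟩
    induction S using Finset.induction_on with
    | empty =>
      intro _ _
      simp [es, Finset.powersetCard_eq_empty.mpr]
    | insert a S ha ihS =>
      intro hg hM
      rw [sum_insert ha] at hM ⊢
      have hgS : ∀ s ∈ S, 0 ≤ g s ∧ g s ≤ γ := fun s hs => hg s (mem_insert_of_mem hs)
      have hga := hg a (mem_insert_self _ _)
      have hm : 0 ≤ ∑ s ∈ S, g s := sum_nonneg fun s hs => (hgS s hs).1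
      have hM1 : 1 + ∑ s ∈ S, g s ≤ M := by linarith [hga.1]
      have h1M : 1 ≤ M := by linarith
      obtain ⟨a1, a2⟩ := ihS hgS hM1
      obtain ⟨b1, b2⟩ := ih g γ M S hγ0 hγ1 hgS hM1
      obtain ⟨c1, c2⟩ := br hm hga.1 (by linarith : ∑ s ∈ S, g s + g a ≤ M) h1M j
      rw [es_insert g ha, add_comm (g a) (∑ s ∈ S, g s)]
      set m := ∑ s ∈ S, g s with hmdef
      set x := g a with hx
      have hf : (((j + 1).factorial : ℕ) : ℝ) = ((j : ℝ) + 1) * (j.factorial : ℝ) := by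
        rw [Nat.factorial_succ]
        push_cast
        ring
      have hfp : (0 : ℝ) < (j.factorial : ℝ) := by exact_mod_cast Nat.factorial_pos j
      have hf1 : (1 : ℝ) ≤ (((j + 1).factorial : ℕ) : ℝ) := by
        exact_mod_cast Nat.factorial_pos (j + 1)
      have e : (m + x) ^ (j + 1) / (((j + 1).factorial : ℕ) : ℝ) - (es g S (j + 1) + x * es g S j) =
          ((m + x) ^ (j + 1) - m ^ (j + 1) - (j + 1) * x * m ^ j) / (((j + 1).factorial : ℕ) : ℝ) +
          (m ^ (j + 1) / (((j + 1).factorial : ℕ) : ℝ) - es g S (j + 1)) +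
          x * (m ^ j / (j.factorial : ℝ) - es g S j) := by
        rw [hf]
        field_simp
        ring
      rw [e]
      have hx0 := hga.1
      constructor
      · have := mul_nonneg hx0 b1
        have h2 := div_nonneg c1 (le_trans zero_le_one hf1)
        linarith
      · have d1 : ((m + x) ^ (j + 1) - m ^ (j + 1) - (j + 1) * x * m ^ j) /
            (((j + 1).factorial : ℕ) : ℝ) ≤ ((j : ℝ) + 1) ^ 2 * x ^ 2 * M ^ (j + 1) :=
          (div_le_self c1 hf1).trans c2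
        have d2 : ((j : ℝ) + 1) ^ 2 * x ^ 2 * M ^ (j + 1) ≤
            ((j : ℝ) + 1) ^ 2 * (γ * x) * M ^ (j + 1) := by
          have : x ^ 2 ≤ γ * x := by nlinarith [hga.2]
          gcongr
        have d3 : x * (m ^ j / (j.factorial : ℝ) - es g S j) ≤ x * (C * γ * m * M ^ j) :=
          mul_le_mul_of_nonneg_left b2 hx0
        have d4 : x * (C * γ * m * M ^ j) ≤ x * (C * γ * M ^ (j + 1)) := by
          have : m * M ^ j ≤ M ^ (j + 1) := by
            rw [pow_succ, mul_comm]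
            exact mul_le_mul_of_nonneg_left (by linarith) (by positivity)
          have h3 : C * γ * m * M ^ j ≤ C * γ * M ^ (j + 1) := by
            rw [mul_assoc (C * γ)]
            exact mul_le_mul_of_nonneg_left this (by positivity)
          exact mul_le_mul_of_nonneg_left h3 hx0
        calc _ ≤ ((j : ℝ) + 1) ^ 2 * (γ * x) * M ^ (j + 1) +
              (((j : ℝ) + 1) ^ 2 + C) * γ * m * M ^ (j + 1) + x * (C * γ * M ^ (j + 1)) := by
              linarith [d1.trans d2, a2, d3.trans d4]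
          _ = _ := by ring

theorem bonf {N k J : ℕ} (hk : k ≤ J) :
    |(if N = k then (1 : ℝ) else 0) -
      ∑ i ∈ range (J - k + 1), (-1 : ℝ) ^ i * (((k + i).choose k : ℝ) * (N.choose (k + i) : ℝ))| ≤
      ((J + 1).choose k : ℝ) * (N.choose (J + 1) : ℝ) := by
  have h0 : ∀ i : ℕ, ((k + i).choose k : ℝ) * (N.choose (k + i) : ℝ) =
      (N.choose k : ℝ) * ((N - k).choose i : ℝ) := by
    intro i
    have := Nat.choose_mul (n := N) (k := k + i) (s := k) (by omega)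
    rw [Nat.add_sub_cancel_left] at this
    rw [mul_comm]
    exact_mod_cast this
  have h1 : ∑ i ∈ range (J - k + 1), (-1 : ℝ) ^ i * (((k + i).choose k : ℝ) * (N.choose (k + i) : ℝ)) =
      (N.choose k : ℝ) * ∑ i ∈ range (J - k + 1), (-1 : ℝ) ^ i * ((N - k).choose i : ℝ) := by
    rw [mul_sum]
    refine sum_congr rfl fun i _ => ?_
    rw [h0]
    ring
  have h2 : ((J + 1).choose k : ℝ) * (N.choose (J + 1) : ℝ) =
      (N.choose k : ℝ) * ((N - k).choose (J - k + 1) : ℝ) := by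
    have := h0 (J - k + 1)
    rwa [show k + (J - k + 1) = J + 1 by omega] at this
  rw [h1, h2]
  rcases lt_trichotomy N k with h | h | h
  · rw [if_neg (by omega), Nat.choose_eq_zero_of_lt h]
    simp
  · subst h
    rw [if_pos rfl, Nat.sub_self, Nat.choose_self, sum_range_succ']
    simp
  · obtain ⟨n, rfl⟩ : ∃ n, N = k + (n + 1) := ⟨N - k - 1, by omega⟩
    rw [if_neg (by omega), Nat.add_sub_cancel_left]
    have h3 : ∑ i ∈ range (J - k + 1), (-1 : ℝ) ^ i * ((n + 1).choose i : ℝ) =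
        (-1 : ℝ) ^ (J - k) * (n.choose (J - k) : ℝ) := by
      have := Int.alternating_sum_range_choose_eq_choose (n := n) (m := J - k)
      exact_mod_cast this
    rw [h3, zero_sub, abs_neg, abs_mul, abs_mul, abs_pow, abs_neg, abs_one, one_pow, one_mul,
      Nat.abs_cast, Nat.abs_cast]
    refine mul_le_mul_of_nonneg_left ?_ (by positivity)
    rw [Nat.choose_succ_succ]
    push_cast
    linarith [(Nat.cast_nonneg (n.choose (J - k).succ) : (0 : ℝ) ≤ _)]

/-- the tail of the exponential series -/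
noncomputable def tl (l : ℝ) (n : ℕ) : ℝ := Real.exp l - ∑ i ∈ range n, l ^ i / (i.factorial : ℝ)

theorem hasSum_e (l : ℝ) : HasSum (fun i : ℕ => l ^ i / (i.factorial : ℝ)) (Real.exp l) := by
  rw [Real.exp_eq_exp_ℝ]
  exact NormedSpace.expSeries_div_hasSum_exp l

theorem tl_mono {l l' : ℝ} (h0 : 0 ≤ l) (h : l ≤ l') (n : ℕ) : tl l n ≤ tl l' n := by
  have h1 : HasSum (fun i : ℕ => l' ^ i / (i.factorial : ℝ) - l ^ i / (i.factorial : ℝ))
      (Real.exp l' - Real.exp l) := (hasSum_e l').sub (hasSum_e l)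
  have h2 := sum_le_hasSum (range n) (fun i _ => by
    have : l ^ i ≤ l' ^ i := pow_le_pow_left₀ h0 h i
    rw [← sub_div]
    have h3 : (0 : ℝ) < (i.factorial : ℝ) := by exact_mod_cast Nat.factorial_pos i
    exact div_nonneg (by linarith) h3.le) h1
  rw [sum_sub_distrib] at h2
  unfold tl
  linarith

theorem tl_anti {l : ℝ} (h0 : 0 ≤ l) {m n : ℕ} (h : m ≤ n) : tl l n ≤ tl l m := by
  unfold tl
  have : ∑ i ∈ range m, l ^ i / (i.factorial : ℝ) ≤ ∑ i ∈ range n, l ^ i / (i.factorial : ℝ) :=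
    sum_le_sum_of_subset_of_nonneg (range_subset_range.mpr h) fun i _ _ => by positivity
  linarith

theorem tl_nonneg {l : ℝ} (h0 : 0 ≤ l) (n : ℕ) : 0 ≤ tl l n := by
  unfold tl
  have := sum_le_hasSum (range n) (fun i _ => by positivity) (hasSum_e l)
  linarith

theorem tl_tendsto (l : ℝ) : Tendsto (tl l) atTop (nhds 0) := by
  have := (hasSum_e l).tendsto_sum_nat
  have h2 := (tendsto_const_nhds (x := Real.exp l)).sub this
  rw [sub_self] at h2
  exact h2

theorem exp_neg_sub {μ : ℝ} (h0 : 0 ≤ μ) (n : ℕ) :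
    |Real.exp (-μ) - ∑ i ∈ range n, (-μ) ^ i / (i.factorial : ℝ)| ≤ tl μ n := by
  have := Complex.norm_exp_sub_sum_le_exp_norm_sub_sum ((-μ : ℝ) : ℂ) n
  have h1 : Complex.exp ((-μ : ℝ) : ℂ) - ∑ m ∈ range n, ((-μ : ℝ) : ℂ) ^ m / (m.factorial : ℂ) =
      ((Real.exp (-μ) - ∑ i ∈ range n, (-μ) ^ i / (i.factorial : ℝ) : ℝ) : ℂ) := by
    push_cast
    rfl
  rw [h1, Complex.norm_real, Complex.norm_real, Real.norm_eq_abs, Real.norm_eq_abs, abs_neg,
    abs_of_nonneg h0] at this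
  exact this

end BonfAux

open BonfAux

theorem pois_of_moments (R : ℕ) (lam η : ℝ) (hlam : 0 < lam) (hη : 0 < η) : ∃ (J : ℕ) (δ : ℝ), 0 < δ ∧
    ∀ (x : ℕ) (N : ℕ → ℕ) (μ : ℝ), 1 ≤ x → 0 ≤ μ → μ ≤ lam →
      (∀ j : ℕ, j ≤ J → |(∑ n ∈ Icc 1 x, ((N n).choose j : ℝ)) / x - μ ^ j / (j.factorial : ℝ)| ≤ δ) →
      ∀ k : ℕ, k ≤ R →
        |(((Icc 1 x).filter (fun n => N n = k)).card : ℝ) / x - Real.exp (-μ) * μ ^ k / (k.factorial : ℝ)| ≤ η := by
  have t1 : Tendsto (fun J : ℕ => (2 * lam) ^ (J + 1) / ((J + 1).factorial : ℝ)) atTop (nhds 0) :=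
    (FloorSemiring.tendsto_pow_div_factorial_atTop (2 * lam)).comp (tendsto_add_atTop_nat 1)
  have t2 : Tendsto (fun J : ℕ => Real.exp lam * tl lam (J - R + 1)) atTop (nhds 0) := by
    have h1 : Tendsto (fun J : ℕ => J - R + 1) atTop atTop :=
      (tendsto_add_atTop_nat 1).comp (tendsto_sub_atTop_nat R)
    have h2 := ((tl_tendsto lam).comp h1).const_mul (Real.exp lam)
    simpa using h2
  have e1 := t1.eventually (gt_mem_nhds (show (0 : ℝ) < η / 4 by positivity))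
  have e2 := t2.eventually (gt_mem_nhds (show (0 : ℝ) < η / 4 by positivity))
  obtain ⟨J, hJ1, hJ2, hJR⟩ := (e1.and (e2.and (eventually_ge_atTop R))).exists
  refine ⟨J + 1, η / (4 * ((J + 2) * 2 ^ (J + 1))), by positivity, ?_⟩
  intro x N μ hx hμ0 hμ hA k hk
  set δ := η / (4 * (((J : ℝ) + 2) * 2 ^ (J + 1))) with hδ
  have hδ0 : 0 < δ := by positivity
  have hx0 : (0 : ℝ) < x := by exact_mod_cast hx
  have hkJ : k ≤ J := hk.trans hJR
  set A : ℕ → ℝ := fun j => (∑ n ∈ Icc 1 x, ((N n).choose j : ℝ)) / x with hAdef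
  have hcardx : ((Icc 1 x).card : ℝ) = x := by simp
  -- step 1: average of Bonferroni
  have s1 : |(((Icc 1 x).filter (fun n => N n = k)).card : ℝ) / x -
      ∑ i ∈ range (J - k + 1), (-1 : ℝ) ^ i * (((k + i).choose k : ℝ) * A (k + i))| ≤
      ((J + 1).choose k : ℝ) * A (J + 1) := by
    have h1 : (((Icc 1 x).filter (fun n => N n = k)).card : ℝ) / x -
        ∑ i ∈ range (J - k + 1), (-1 : ℝ) ^ i * (((k + i).choose k : ℝ) * A (k + i)) =
        (∑ n ∈ Icc 1 x, ((if N n = k then (1 : ℝ) else 0) -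
          ∑ i ∈ range (J - k + 1), (-1 : ℝ) ^ i * (((k + i).choose k : ℝ) * ((N n).choose (k + i) : ℝ)))) / x := by
      rw [sum_sub_distrib, sub_div, sum_comm]
      congr 1
      · rw [card_filter]
        push_cast
        rfl
      · rw [sum_div]
        refine sum_congr rfl fun i _ => ?_
        rw [hAdef]
        simp only
        rw [← mul_sum, ← mul_sum]
        ring
    rw [h1, abs_div, abs_of_pos hx0]
    have h2 : |∑ n ∈ Icc 1 x, ((if N n = k then (1 : ℝ) else 0) -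
          ∑ i ∈ range (J - k + 1), (-1 : ℝ) ^ i * (((k + i).choose k : ℝ) * ((N n).choose (k + i) : ℝ)))| ≤
        ∑ n ∈ Icc 1 x, ((J + 1).choose k : ℝ) * ((N n).choose (J + 1) : ℝ) :=
      (abs_sum_le_sum_abs _ _).trans (sum_le_sum fun n _ => bonf hkJ)
    rw [← mul_sum] at h2
    calc _ ≤ (((J + 1).choose k : ℝ) * ∑ n ∈ Icc 1 x, ((N n).choose (J + 1) : ℝ)) / x :=
          div_le_div_of_nonneg_right h2 hx0.le
      _ = _ := by rw [hAdef]; ring
  -- step 2
  have hc2 : ∀ i : ℕ, k + i ≤ J → ((k + i).choose k : ℝ) ≤ 2 ^ J := by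
    intro i hi
    calc ((k + i).choose k : ℝ) ≤ 2 ^ (k + i) := by exact_mod_cast Nat.choose_le_two_pow _ _
      _ ≤ 2 ^ J := pow_le_pow_right₀ (by norm_num) hi
  have s2 : |∑ i ∈ range (J - k + 1), (-1 : ℝ) ^ i * (((k + i).choose k : ℝ) * A (k + i)) -
      ∑ i ∈ range (J - k + 1), (-1 : ℝ) ^ i *
        (((k + i).choose k : ℝ) * (μ ^ (k + i) / ((k + i).factorial : ℝ)))| ≤ (J + 1) * (2 ^ J * δ) := by
    rw [← sum_sub_distrib]
    refine (abs_sum_le_sum_abs _ _).trans ?_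
    have h1 : ∀ i ∈ range (J - k + 1), |(-1 : ℝ) ^ i * (((k + i).choose k : ℝ) * A (k + i)) -
        (-1 : ℝ) ^ i * (((k + i).choose k : ℝ) * (μ ^ (k + i) / ((k + i).factorial : ℝ)))| ≤
        2 ^ J * δ := by
      intro i hi
      have hi2 : k + i ≤ J := by
        have := mem_range.mp hi
        omega
      rw [← mul_sub, ← mul_sub, abs_mul, abs_mul, abs_pow, abs_neg, abs_one, one_pow, one_mul,
        Nat.abs_cast]
      exact mul_le_mul (hc2 i hi2) (hA (k + i) (by omega)) (abs_nonneg _) (by positivity)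
    refine (sum_le_sum h1).trans ?_
    rw [sum_const, card_range, nsmul_eq_mul]
    refine mul_le_mul_of_nonneg_right ?_ (by positivity)
    have : J - k + 1 ≤ J + 1 := by omega
    exact_mod_cast this
  -- step 3
  have s3 : ∑ i ∈ range (J - k + 1), (-1 : ℝ) ^ i *
        (((k + i).choose k : ℝ) * (μ ^ (k + i) / ((k + i).factorial : ℝ))) =
      μ ^ k / (k.factorial : ℝ) * ∑ i ∈ range (J - k + 1), (-μ) ^ i / (i.factorial : ℝ) := by
    rw [mul_sum]
    refine sum_congr rfl fun i _ => ?_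
    have h1 : ((k + i).choose k : ℝ) * (k.factorial : ℝ) * (i.factorial : ℝ) =
        ((k + i).factorial : ℝ) := by
      have := Nat.choose_mul_factorial_mul_factorial (Nat.le_add_right k i)
      rw [Nat.add_sub_cancel_left] at this
      exact_mod_cast this
    have hk0 : (k.factorial : ℝ) ≠ 0 := by exact_mod_cast (Nat.factorial_pos k).ne'
    have hi0 : (i.factorial : ℝ) ≠ 0 := by exact_mod_cast (Nat.factorial_pos i).ne'
    have hki0 : ((k + i).factorial : ℝ) ≠ 0 := by exact_mod_cast (Nat.factorial_pos (k + i)).ne'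
    have hch : ((k + i).choose k : ℝ) ≠ 0 := by
      intro h
      rw [h] at h1
      simp at h1
      exact hki0 h1.symm
    rw [← h1, neg_pow μ i, pow_add]
    field_simp
  have hkf : (0 : ℝ) < (k.factorial : ℝ) := by exact_mod_cast Nat.factorial_pos k
  have s4 : |Real.exp (-μ) * μ ^ k / (k.factorial : ℝ) -
      μ ^ k / (k.factorial : ℝ) * ∑ i ∈ range (J - k + 1), (-μ) ^ i / (i.factorial : ℝ)| ≤
      Real.exp lam * tl lam (J - R + 1) := by
    have h1 : Real.exp (-μ) * μ ^ k / (k.factorial : ℝ) -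
      μ ^ k / (k.factorial : ℝ) * ∑ i ∈ range (J - k + 1), (-μ) ^ i / (i.factorial : ℝ) =
      μ ^ k / (k.factorial : ℝ) *
        (Real.exp (-μ) - ∑ i ∈ range (J - k + 1), (-μ) ^ i / (i.factorial : ℝ)) := by ring
    have h2 : μ ^ k / (k.factorial : ℝ) ≤ Real.exp lam :=
      (Real.pow_div_factorial_le_exp μ hμ0 k).trans (Real.exp_le_exp.mpr hμ)
    rw [h1, abs_mul, abs_of_nonneg (by positivity)]
    refine mul_le_mul h2 ?_ (abs_nonneg _) (Real.exp_pos _).le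
    exact (exp_neg_sub hμ0 _).trans ((tl_mono hμ0 hμ _).trans (tl_anti hlam.le (by omega)))
  -- step 5
  have s5 : ((J + 1).choose k : ℝ) * A (J + 1) ≤ η / 4 + 2 ^ (J + 1) * δ := by
    have h1 := (abs_le.mp (hA (J + 1) le_rfl)).2
    have h2 : A (J + 1) ≤ μ ^ (J + 1) / ((J + 1).factorial : ℝ) + δ := by
      rw [hAdef]
      linarith
    have h3 : ((J + 1).choose k : ℝ) ≤ 2 ^ (J + 1) := by exact_mod_cast Nat.choose_le_two_pow _ _
    have hA0 : 0 ≤ A (J + 1) := by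
      rw [hAdef]
      positivity
    have h4 : μ ^ (J + 1) / ((J + 1).factorial : ℝ) ≤ lam ^ (J + 1) / ((J + 1).factorial : ℝ) := by
      gcongr
    calc ((J + 1).choose k : ℝ) * A (J + 1) ≤ 2 ^ (J + 1) * A (J + 1) :=
          mul_le_mul_of_nonneg_right h3 hA0
      _ ≤ 2 ^ (J + 1) * (lam ^ (J + 1) / ((J + 1).factorial : ℝ) + δ) :=
          mul_le_mul_of_nonneg_left (h2.trans (by linarith)) (by positivity)
      _ = (2 * lam) ^ (J + 1) / ((J + 1).factorial : ℝ) + 2 ^ (J + 1) * δ := by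
          rw [mul_pow]; ring
      _ ≤ _ := by linarith
  have s6 : 2 ^ (J + 1) * δ + (J + 1) * (2 ^ J * δ) ≤ η / 4 := by
    have h1 : ((J : ℝ) + 2) * 2 ^ (J + 1) * δ = η / 4 := by
      rw [hδ]
      field_simp
    have h2 : (0 : ℝ) < 2 ^ J * δ := by positivity
    have h3 : (0 : ℝ) ≤ (J : ℝ) * (2 ^ J * δ) := by positivity
    rw [pow_succ] at h1 ⊢
    nlinarith
  rw [s3] at s2
  have tri := abs_sub_le ((((Icc 1 x).filter (fun n => N n = k)).card : ℝ) / x)
    (∑ i ∈ range (J - k + 1), (-1 : ℝ) ^ i * (((k + i).choose k : ℝ) * A (k + i)))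
    (Real.exp (-μ) * μ ^ k / (k.factorial : ℝ))
  have tri2 := abs_sub_le (∑ i ∈ range (J - k + 1), (-1 : ℝ) ^ i * (((k + i).choose k : ℝ) * A (k + i)))
    (μ ^ k / (k.factorial : ℝ) * ∑ i ∈ range (J - k + 1), (-μ) ^ i / (i.factorial : ℝ))
    (Real.exp (-μ) * μ ^ k / (k.factorial : ℝ))
  rw [abs_sub_comm (μ ^ k / (k.factorial : ℝ) * ∑ i ∈ range (J - k + 1), (-μ) ^ i / (i.factorial : ℝ))
    (Real.exp (-μ) * μ ^ k / (k.factorial : ℝ))] at tri2
  linarith

theorem esym_bound (j : ℕ) : ∃ C : ℝ, 0 < C ∧ ∀ (S : Finset ℕ) (g : ℕ → ℝ) (γ : ℝ), 0 ≤ γ → γ ≤ 1 → (∀ s ∈ S, 0 ≤ g s ∧ g s ≤ γ) →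
    |∑ T ∈ S.powersetCard j, ∏ s ∈ T, g s - (∑ s ∈ S, g s) ^ j / (j.factorial : ℝ)| ≤ C * γ * (1 + ∑ s ∈ S, g s) ^ (j + 1) := by
  obtain ⟨C, hC, h⟩ := d_bound j
  refine ⟨C + 1, by positivity, fun S g γ hγ0 hγ1 hg => ?_⟩
  obtain ⟨h1, h2⟩ := h g γ (1 + ∑ s ∈ S, g s) S hγ0 hγ1 hg le_rfl
  have hm : 0 ≤ ∑ s ∈ S, g s := sum_nonneg fun s hs => (hg s hs).1
  have h3 : ∑ T ∈ S.powersetCard j, ∏ s ∈ T, g s = es g S j := rfl
  rw [h3, abs_sub_comm, abs_of_nonneg h1]
  calc _ ≤ C * γ * (∑ s ∈ S, g s) * (1 + ∑ s ∈ S, g s) ^ j := h2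
    _ ≤ (C + 1) * γ * (1 + ∑ s ∈ S, g s) * (1 + ∑ s ∈ S, g s) ^ j := by
        gcongr <;> linarith
    _ = _ := by rw [pow_succ]; ring

end Pool.Agent.SHP
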