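import Pool.Agent.Lib.SHP.Good

/-!
# Module Comp: products of indicators of primes against products of sieve weights

For `m + 1 ≤ R` take the exceptional set of `good_sets m (A + 2) K ε` (call `A1 = A + 2`) and the union over `m < R`. For `S` outside and `T ⊆ S`, `1 ≤ r = #T ≤ R`: `f = T.orderEmbOfFin rfl`,
`∏ s ∈ T, G0 (n + s) = ∏ i, G0 (n + f i)` and the same for `G1` (`Finset.prod_image`/`Finset.prod_attach`-like, or `Finset.map_orderEmbOfFin_univ`), `SHT.sum_G0`. The sum of the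
`∏ G0` is `SI f ∑ hl + O(x / (log x)^(A+2))` by `good_sets`; the sum of the `∏ G1 z`, `z = zA A' (X ^ 6)`, is the same up to `x / (log (X^6))^(A+2)` by `SHT.model_short r (A + 2) (1/36)` at the
scale `X ^ 6` in place of `X`: `(X^6)^(1/36) = X^(1/6) ≤ X^(1/6+ε) ≤ x`, `x ≤ X^6` because `x^(1/6) ≤ x^(1/6+ε) ≤ X`, `f i ≤ X ≤ 2 X^6`. `log x ≥ L / 6` and `log (X^6) = 6 L ≥ L`:
the sum of the errors is at most `(6^(A+2) + 1) x / L^(A+2) ≤ x / L^A`. `T = ∅`: the difference is `0`.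
The claim about `A'`: `A0` = maximum of the `A0` of `model_short` for `r ≤ R`; finite unions and maxima over `r ≤ R` by `choose` and `Finset.sup`, or by induction on `R`.
-/

set_option autoImplicit false

open Finset Filter

namespace Pool.Agent.SHP

open Pool.Agent.HLB Pool.Agent.HL Pool.Agent.HLT Pool.Agent.HLU Pool.Agent.VN

namespace CompAux

lemma prod_ord {T : Finset ℕ} {r : ℕ} (h : T.card = r) (g : ℕ → ℝ) :
    ∏ s ∈ T, g s = ∏ i, g (T.orderEmbOfFin h i) := by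
  conv_lhs => rw [← Finset.map_orderEmbOfFin_univ T h]
  rw [Finset.prod_map]
  rfl

/-- The scale `X ^ 6`. -/
lemma ev_model (R B : ℕ) : ∃ A0 : ℕ, ∀ A' : ℕ, A0 ≤ A' → ∀ᶠ X : ℕ in atTop, ∀ r : ℕ, r ≤ R →
    ∀ t : Fin r → ℕ, Function.Injective t → (∀ i, t i ≤ X) → ∀ x : ℕ, (X : ℝ) ^ (1 / 6 : ℝ) ≤ x →
    x ≤ X ^ 6 → ∀ y : ℕ, y ≤ x →
      |∑ n ∈ Icc 1 y, ∏ i, G1 (zA A' (X ^ 6)) (n + t i) - SI t * ∑ n ∈ Icc 2 y, hl univ t n| ≤
        x / (6 * Real.log X) ^ B := by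
  choose A0f hA0f using fun r => SHT.model_short r B (1 / 36) (by norm_num)
  refine ⟨(range (R + 1)).sup A0f, fun A' hA' => ?_⟩
  have h1 : ∀ r ∈ range (R + 1), ∀ᶠ X : ℕ in atTop, ∀ t : Fin r → ℕ, Function.Injective t →
      (∀ i, t i ≤ 2 * (X ^ 6)) → ∀ x : ℕ, ((X ^ 6 : ℕ) : ℝ) ^ (1 / 36 : ℝ) ≤ x → x ≤ X ^ 6 →
      ∀ y : ℕ, y ≤ x →
        |∑ n ∈ Icc 1 y, ∏ i, G1 (zA A' (X ^ 6)) (n + t i) - SI t * ∑ n ∈ Icc 2 y, hl univ t n| ≤
          x / Real.log ((X ^ 6 : ℕ) : ℝ) ^ B := by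
    intro r hr
    have h2 := hA0f r A' ((Finset.le_sup hr).trans hA')
    exact (tendsto_pow_atTop (α := ℕ) (by norm_num : (6 : ℕ) ≠ 0)).eventually h2
  have h3 := (Finset.eventually_all (range (R + 1))).2 h1
  filter_upwards [h3, eventually_ge_atTop 1] with X hX hX1
  intro r hr t ht htX x hx hx6 y hy
  have hXr : (0 : ℝ) ≤ X := Nat.cast_nonneg X
  have e1 : ((X ^ 6 : ℕ) : ℝ) ^ (1 / 36 : ℝ) = (X : ℝ) ^ (1 / 6 : ℝ) := by
    rw [Nat.cast_pow, ← Real.rpow_natCast, ← Real.rpow_mul hXr]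
    congr 1
    norm_num
  have e2 : Real.log ((X ^ 6 : ℕ) : ℝ) = 6 * Real.log X := by
    rw [Nat.cast_pow, Real.log_pow]
    norm_num
  have h4 := hX r (mem_range.2 (by omega)) t ht (fun i => by
    have h5 := htX i
    have h6 : X ≤ X ^ 6 := Nat.le_self_pow (by norm_num) X
    omega) x (by rw [e1]; exact hx) hx6 y hy
  rw [e2] at h4
  exact h4

end CompAux

theorem comp_sets (R A K : ℕ) (ε : ℝ) (hε : 0 < ε) : ∃ A0 : ℕ, ∀ A' : ℕ, A0 ≤ A' → ∃ x0 : ℕ, ∀ X : ℕ, x0 ≤ X →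
    ∀ D : ℕ, (D : ℝ) ≤ Real.log X ^ K →
    ∃ Y ⊆ (Icc 1 X).powersetCard D, (Y.card : ℝ) ≤ ((Icc 1 X).powersetCard D).card / Real.log X ^ A ∧
    ∀ S ∈ (Icc 1 X).powersetCard D, S ∉ Y →
      ∀ x : ℕ, (X : ℝ) ^ (1 / 6 + ε) ≤ x → (x : ℝ) ^ (1 / 6 + ε) ≤ X →
        (∀ r : ℕ, 1 ≤ r → r ≤ R → ∀ f : Fin r → ℕ, Function.Injective f → (∀ i, f i ∈ S) → ∀ y : ℕ, y ≤ x →
          |(((Icc 1 y).filter (fun n : ℕ => ∀ i, (n + f i).Prime)).card : ℝ) - SI f * ∑ n ∈ Icc 2 y, hl univ f n| ≤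
            x / Real.log x ^ A) ∧
        (∀ T ⊆ S, T.card ≤ R → ∀ y : ℕ, y ≤ x →
          |∑ n ∈ Icc 1 y, (∏ s ∈ T, G0 (n + s) - ∏ s ∈ T, G1 (zA A' (X ^ 6)) (n + s))| ≤ x / Real.log X ^ A) := by
  classical
  obtain ⟨A0, hmod⟩ := CompAux.ev_model R (A + 2)
  choose x1 hx1 using fun m => good_sets m (A + 2) K ε hε
  refine ⟨A0, fun A' hA' => ?_⟩
  obtain ⟨x2, hx2⟩ := eventually_atTop.mp ((hmod A' hA').and (ev_log (6 + R + 6 ^ (A + 2) + 1)))
  refine ⟨max ((range R).sup x1) (max x2 1), fun X hX D hD => ?_⟩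
  obtain ⟨hM, hL⟩ := hx2 X ((le_max_left _ _).trans ((le_max_right _ _).trans hX))
  have hX1 : 1 ≤ X := (le_max_right _ _).trans ((le_max_right _ _).trans hX)
  have hXr : (0 : ℝ) < X := by exact_mod_cast hX1
  have hXr1 : (1 : ℝ) ≤ X := by exact_mod_cast hX1
  set L : ℝ := Real.log X with hLdef
  have hR0 : (0 : ℝ) ≤ R := Nat.cast_nonneg R
  have h60 : (0 : ℝ) < 6 ^ (A + 2) := by positivity
  have hL6 : 6 ≤ L := by linarith
  have hL0 : 0 < L := by linarith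
  have hL1 : 1 ≤ L := by linarith
  have hLp : ∀ k : ℕ, 0 < L ^ k := fun k => pow_pos hL0 k
  set P := (Icc 1 X).powersetCard D with hP
  have key : ∀ m : ℕ, ∃ Y ⊆ P, (Y.card : ℝ) ≤ (P.card : ℝ) / L ^ (A + 2) ∧ (m < R →
      ∀ S ∈ P, S ∉ Y → ∀ f : Fin (m + 1) → ℕ, Function.Injective f → (∀ i, f i ∈ S) →
      ∀ x : ℕ, (X : ℝ) ^ (1 / 6 + ε) ≤ x → (x : ℝ) ^ (1 / 6 + ε) ≤ X → ∀ y : ℕ, y ≤ x →
        |(((Icc 1 y).filter (fun n : ℕ => ∀ i, (n + f i).Prime)).card : ℝ) -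
          SI f * ∑ n ∈ Icc 2 y, hl univ f n| ≤ x / Real.log x ^ (A + 2)) := by
    intro m
    by_cases hm : m < R
    · have h1 : x1 m ≤ X :=
        (Finset.le_sup (f := x1) (mem_range.2 hm)).trans ((le_max_left _ _).trans hX)
      obtain ⟨Y, y1, y2, y3⟩ := hx1 m X h1 D hD
      exact ⟨Y, y1, y2, fun _ => y3⟩
    · refine ⟨∅, Finset.empty_subset _, ?_, fun h => absurd h hm⟩
      rw [Finset.card_empty, Nat.cast_zero]
      exact div_nonneg (Nat.cast_nonneg _) (hLp _).le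
  choose Y y1 y2 y3 using key
  refine ⟨(range R).biUnion Y, Finset.biUnion_subset.mpr fun m _ => y1 m, ?_, ?_⟩
  · have hP0 : (0 : ℝ) ≤ P.card := Nat.cast_nonneg _
    calc (((range R).biUnion Y).card : ℝ) ≤ ∑ m ∈ range R, ((Y m).card : ℝ) := by
          exact_mod_cast Finset.card_biUnion_le
      _ ≤ ∑ _m ∈ range R, (P.card : ℝ) / L ^ (A + 2) := Finset.sum_le_sum fun m _ => y2 m
      _ = R * ((P.card : ℝ) / L ^ (A + 2)) := by
          rw [Finset.sum_const, Finset.card_range, nsmul_eq_mul]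
      _ ≤ L ^ 2 * ((P.card : ℝ) / L ^ (A + 2)) := by
          refine mul_le_mul_of_nonneg_right ?_ (div_nonneg hP0 (hLp _).le)
          nlinarith
      _ = (P.card : ℝ) / L ^ A := by
          rw [pow_add]
          field_simp
  intro S hS hSY x hx hx'
  have hSm : ∀ m : ℕ, m < R → S ∉ Y m := fun m hm h =>
    hSY (Finset.mem_biUnion.mpr ⟨m, mem_range.2 hm, h⟩)
  have hSX : ∀ s ∈ S, s ≤ X := fun s hs =>
    (mem_Icc.1 ((mem_powersetCard.1 hS).1 hs)).2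
  have hx16 : (X : ℝ) ^ (1 / 6 : ℝ) ≤ x :=
    (Real.rpow_le_rpow_of_exponent_le hXr1 (by linarith)).trans hx
  have hxr1 : (1 : ℝ) ≤ x := (Real.one_le_rpow hXr1 (by norm_num)).trans hx16
  have hxr0 : (0 : ℝ) < x := by linarith
  have hx6 : x ≤ X ^ 6 := by
    have h1 : (x : ℝ) ^ (1 / 6 : ℝ) ≤ X :=
      (Real.rpow_le_rpow_of_exponent_le hxr1 (by linarith)).trans hx'
    have h2 : ((x : ℝ) ^ (1 / 6 : ℝ)) ^ 6 ≤ (X : ℝ) ^ 6 :=
      pow_le_pow_left₀ (Real.rpow_nonneg hxr0.le _) h1 6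
    have h3 : ((x : ℝ) ^ (1 / 6 : ℝ)) ^ 6 = x := by
      rw [← Real.rpow_natCast, ← Real.rpow_mul hxr0.le]
      norm_num
    rw [h3] at h2
    exact_mod_cast h2
  have hlx : L / 6 ≤ Real.log x := by
    have h1 := Real.log_le_log (Real.rpow_pos_of_pos hXr (1 / 6 : ℝ)) hx16
    rw [Real.log_rpow hXr] at h1
    linarith
  have hlx1 : 1 ≤ Real.log x := by linarith
  have hlx0 : 0 < Real.log x := by linarith
  refine ⟨fun r hr1 hrR f hf hfS y hy => ?_, fun T hT hTR y hy => ?_⟩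
  · obtain ⟨m, rfl⟩ : ∃ m, r = m + 1 := ⟨r - 1, by omega⟩
    refine (y3 m (by omega) S hS (hSm m (by omega)) f hf hfS x hx hx' y hy).trans ?_
    exact div_le_div_of_nonneg_left hxr0.le (pow_pos hlx0 _) (pow_le_pow_right₀ hlx1 (by omega))
  · rcases Nat.eq_zero_or_pos T.card with h0 | h0
    · rw [Finset.card_eq_zero] at h0
      subst h0
      simp only [Finset.prod_empty, sub_self, Finset.sum_const_zero, abs_zero]
      exact div_nonneg hxr0.le (hLp _).le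
    obtain ⟨m, hm⟩ : ∃ m, T.card = m + 1 := ⟨T.card - 1, by omega⟩
    have hmR : m < R := by omega
    set f : Fin (m + 1) → ℕ := fun i => T.orderEmbOfFin hm i with hf
    have hfinj : Function.Injective f := (T.orderEmbOfFin hm).injective
    have hfT : ∀ i, f i ∈ T := fun i => Finset.orderEmbOfFin_mem T hm i
    have e0 : ∀ (G : ℕ → ℝ) (n : ℕ), ∏ s ∈ T, G (n + s) = ∏ i, G (n + f i) := fun G n =>
      CompAux.prod_ord hm fun s => G (n + s)
    have h1 := y3 m hmR S hS (hSm m hmR) f hfinj (fun i => hT (hfT i)) x hx hx' y hy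
    have h2 := hM (m + 1) (by omega) f hfinj (fun i => hSX _ (hT (hfT i))) x hx16 hx6 y hy
    rw [← SHT.sum_G0] at h1
    have e1 : ∑ n ∈ Icc 1 y, (∏ s ∈ T, G0 (n + s) - ∏ s ∈ T, G1 (zA A' (X ^ 6)) (n + s)) =
        (∑ n ∈ Icc 1 y, ∏ i, G0 (n + f i) - SI f * ∑ n ∈ Icc 2 y, hl univ f n) -
        (∑ n ∈ Icc 1 y, ∏ i, G1 (zA A' (X ^ 6)) (n + f i) -
          SI f * ∑ n ∈ Icc 2 y, hl univ f n) := by
      rw [Finset.sum_sub_distrib, Finset.sum_congr rfl fun n _ => e0 G0 n,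
        Finset.sum_congr rfl fun n _ => e0 (G1 (zA A' (X ^ 6))) n]
      ring
    rw [e1]
    refine (abs_sub _ _).trans ((add_le_add h1 h2).trans ?_)
    have h3 : (x : ℝ) / Real.log x ^ (A + 2) ≤ 6 ^ (A + 2) * (x / L ^ (A + 2)) := by
      have h4 : (L / 6) ^ (A + 2) ≤ Real.log x ^ (A + 2) :=
        pow_le_pow_left₀ (by positivity) hlx _
      calc (x : ℝ) / Real.log x ^ (A + 2) ≤ x / (L / 6) ^ (A + 2) :=
            div_le_div_of_nonneg_left hxr0.le (by positivity) h4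
        _ = 6 ^ (A + 2) * (x / L ^ (A + 2)) := by
            rw [div_pow]
            field_simp
    have h5 : (x : ℝ) / (6 * L) ^ (A + 2) ≤ x / L ^ (A + 2) :=
      div_le_div_of_nonneg_left hxr0.le (hLp _)
        (pow_le_pow_left₀ hL0.le (by linarith) _)
    have h6 : (6 ^ (A + 2) + 1) * (x / L ^ (A + 2)) ≤ (x : ℝ) / L ^ A := by
      have h7 : (6 : ℝ) ^ (A + 2) + 1 ≤ L ^ 2 := by nlinarith
      calc (6 ^ (A + 2) + 1) * ((x : ℝ) / L ^ (A + 2)) ≤ L ^ 2 * (x / L ^ (A + 2)) :=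
            mul_le_mul_of_nonneg_right h7 (div_nonneg hxr0.le (hLp _).le)
        _ = (x : ℝ) / L ^ A := by
            rw [pow_add]
            field_simp
    linarith

end Pool.Agent.SHP
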