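import Pool.Agent.Lib.SHT.Defs

/-!
# Primes in the translates of random sets: definitions

`S` is a set of `D` integers from `[1, X]`, `z = zA A' (X ^ 6)` is the sieve range, `L = log X`.
-/

set_option autoImplicit false

open Finset Filter

namespace Pool.Agent.SHP

open Pool.Agent.HLB Pool.Agent.HL Pool.Agent.HLT Pool.Agent.HLU Pool.Agent.VN

/-- The number of primes among the `n + s`, `s ∈ S`. -/
noncomputable def np (S : Finset ℕ) (n : ℕ) : ℕ := (S.filter (fun s => (n + s).Prime)).card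

/-- The expected number of primes among the `n + s`, `s ∈ S`. -/
noncomputable def ms (S : Finset ℕ) (n : ℕ) : ℝ := ∑ s ∈ S, 1 / Real.log ((n + s : ℕ) : ℝ)

/-- The number of sifted elements, normalised, minus its expectation. -/
noncomputable def rm (z : ℕ) (S : Finset ℕ) (n : ℕ) : ℝ := ∑ s ∈ S, (G1 z (n + s) - 1 / Real.log ((n + s : ℕ) : ℝ))

/-- The approximate value of `ms`. -/
noncomputable def mu (X D x : ℕ) : ℝ := D / Real.log ((max X x : ℕ) : ℝ)

/-- Moments of the standard normal distribution. -/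
def gm : ℕ → ℝ
  | 0 => 1
  | 1 => 0
  | k + 2 => (k + 1) * gm k

/-- The expectation of `F (ξ)`, where `ξ` is the sum over `s ∈ S` of independent variables which are `1` with probability `g s`
and `0` otherwise. -/
noncomputable def EB (S : Finset ℕ) (g : ℕ → ℝ) (F : ℕ → ℝ) : ℝ :=
  ∑ T ∈ S.powerset, (∏ s ∈ T, g s) * (∏ s ∈ S \ T, (1 - g s)) * F T.card

/-- The central moments of `ξ`. -/
noncomputable def cm (S : Finset ℕ) (g : ℕ → ℝ) (k : ℕ) : ℝ := EB S g (fun j => ((j : ℝ) - ∑ s ∈ S, g s) ^ k)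

/-- The variance of `ξ`. -/
noncomputable def vr (S : Finset ℕ) (g : ℕ → ℝ) : ℝ := ∑ s ∈ S, g s * (1 - g s)

/-- What is used of the set `S` at the scale `x`. -/
structure Loc (R q A X D x z : ℕ) (S : Finset ℕ) : Prop where
  card : S.card = D
  pos : ∀ s ∈ S, 1 ≤ s
  corr : ∀ T ⊆ S, T.card ≤ R → ∀ y : ℕ, y ≤ x →
    |∑ n ∈ Icc 1 y, (∏ s ∈ T, G0 (n + s) - ∏ s ∈ T, G1 z (n + s))| ≤ x / Real.log X ^ A
  rem : ∑ n ∈ Icc 1 x, rm z S n ^ (8 * q) ≤ x * ((D / Real.log X) ^ (4 * q) / Real.log X ^ q)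
  gmax : ∀ n ∈ Icc 1 x, ∀ s ∈ S, G1 z (n + s) ^ 4 * Real.log X ^ 3 ≤ 1
  mean : ∀ n ∈ Icc 1 x, ms S n ≤ 2 * (D / Real.log X)
  msq : ∑ n ∈ Icc 1 x, (ms S n - mu X D x) ^ 2 ≤ x * ((D / Real.log X) ^ 2 * (10 / Real.log X))

lemma np_eq (S : Finset ℕ) (n : ℕ) : (np S n : ℝ) = ∑ s ∈ S, G0 (n + s) := by
  unfold np G0
  rw [Finset.card_filter]
  push_cast
  rfl

lemma rm_eq (z : ℕ) (S : Finset ℕ) (n : ℕ) : rm z S n = ∑ s ∈ S, G1 z (n + s) - ms S n := by
  unfold rm ms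
  rw [Finset.sum_sub_distrib]

end Pool.Agent.SHP
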