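import Pool.Agent.Lib.SHP.Defs

/-!
# Module Dens (elementary): the size of `ms S n`

`L = log X`, all `s ∈ S` satisfy `X ≤ s L^B1`, `s ≤ X`, `#S = D`. `log (n + s) ≥ log s ≥ L - B1 log L ≥ L / 2`: this gives the first claim.
Second claim, `x ≤ X`: `L - B1 log L ≤ log (n + s) ≤ L + 1`, so `|1 / log (n + s) - 1 / L| ≤ 2 (B1 log L + 1) / L²`, and the square of `D` times this is `≤ (D/L)² · 10 / L` for large `L`.
`x > X`, `l = log x ≥ L`: if `n ≥ x / L`, then `l - log L ≤ log (n + s) ≤ l + 1`, so `|1 / log (n + s) - 1 / l| ≤ 2 (log L + 1) / L²`; the at most `x / L` numbers `n < x / L` contribute at most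
`(x / L) (2 D / L)²` (both `ms` and `mu` are in `[0, 2 D / L]`). Sum: `x (D/L)² (4 / L + 4 (log L + 1)² / L²) ≤ x (D/L)² · 10 / L`.
-/

set_option autoImplicit false

open Finset Filter

namespace Pool.Agent.SHP

namespace DensAux

theorem large (B1 : ℕ) : ∀ᶠ X : ℕ in atTop, 4 ≤ Real.log X ∧
    (((B1 : ℝ) + 1) * Real.log (Real.log X) + 1) ^ 2 ≤ Real.log X := by
  have h1 : Tendsto (fun X : ℕ => Real.log (X : ℝ)) atTop atTop :=
    Real.tendsto_log_atTop.comp tendsto_natCast_atTop_atTop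
  have h2 : ∀ᶠ L : ℝ in atTop, 4 ≤ L ∧ (((B1 : ℝ) + 1) * Real.log L + 1) ^ 2 ≤ L := by
    have h3 := (Real.isLittleO_pow_log_id_atTop (n := 2)).bound
      (c := 1 / ((B1 : ℝ) + 2) ^ 2) (by positivity)
    filter_upwards [h3, eventually_ge_atTop (4 : ℝ)] with L hL h4
    refine ⟨h4, ?_⟩
    have h5 : 1 ≤ Real.log L := by
      rw [Real.le_log_iff_exp_le (by linarith)]
      have := Real.exp_one_lt_d9
      linarith
    have hL' : Real.log L ^ 2 ≤ 1 / ((B1 : ℝ) + 2) ^ 2 * L := by
      have h6 := hL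
      rw [Real.norm_eq_abs, Real.norm_eq_abs, abs_of_nonneg (by positivity), id,
        abs_of_nonneg (by linarith)] at h6
      exact h6
    have h7 : ((B1 : ℝ) + 1) * Real.log L + 1 ≤ ((B1 : ℝ) + 2) * Real.log L := by linarith
    have h8 : 0 ≤ ((B1 : ℝ) + 1) * Real.log L + 1 := by positivity
    calc (((B1 : ℝ) + 1) * Real.log L + 1) ^ 2 ≤ (((B1 : ℝ) + 2) * Real.log L) ^ 2 :=
          pow_le_pow_left₀ h8 h7 2
      _ = ((B1 : ℝ) + 2) ^ 2 * Real.log L ^ 2 := by ring
      _ ≤ ((B1 : ℝ) + 2) ^ 2 * (1 / ((B1 : ℝ) + 2) ^ 2 * L) :=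
          mul_le_mul_of_nonneg_left hL' (by positivity)
      _ = L := by field_simp
  exact h1.eventually h2

theorem inv_diff {L l y δ : ℝ} (hL : 4 ≤ L) (hl : L ≤ l) (hy : L / 2 ≤ y) (hd : |y - l| ≤ δ) :
    |1 / y - 1 / l| ≤ 2 * δ / L ^ 2 := by
  have hy0 : 0 < y := by linarith
  have hl0 : 0 < l := by linarith
  have hδ : 0 ≤ δ := (abs_nonneg _).trans hd
  have e : 1 / y - 1 / l = (l - y) / (y * l) := by field_simp
  rw [e, abs_div, abs_of_pos (mul_pos hy0 hl0), abs_sub_comm, div_le_div_iff₀ (by positivity) (by positivity)]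
  have h1 : L / 2 * L ≤ y * l := mul_le_mul hy hl (by linarith) hy0.le
  calc |y - l| * L ^ 2 ≤ δ * L ^ 2 := mul_le_mul_of_nonneg_right hd (by positivity)
    _ = 2 * δ * (L / 2 * L) := by ring
    _ ≤ 2 * δ * (y * l) := mul_le_mul_of_nonneg_left h1 (by linarith)

theorem card_small (L : ℝ) (hL : 4 ≤ L) (x : ℕ) :
    (((Icc 1 x).filter (fun n : ℕ => (n : ℝ) * L < x)).card : ℝ) ≤ x / L := by
  have hL0 : 0 < L := by linarith
  have h1 : (Icc 1 x).filter (fun n : ℕ => (n : ℝ) * L < x) ⊆ Icc 1 ⌊(x : ℝ) / L⌋₊ := by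
    intro n hn
    rw [mem_filter, mem_Icc] at hn
    rw [mem_Icc]
    refine ⟨hn.1.1, Nat.le_floor ?_⟩
    rw [le_div_iff₀ hL0]
    exact hn.2.le
  have h2 := card_le_card h1
  rw [Nat.card_Icc, Nat.add_sub_cancel] at h2
  exact (Nat.cast_le.mpr h2).trans (Nat.floor_le (by positivity))

end DensAux

open DensAux

theorem dens (B1 : ℕ) : ∀ᶠ X : ℕ in atTop, ∀ S ⊆ Icc 1 X, (∀ s ∈ S, (X : ℝ) ≤ s * Real.log X ^ B1) →
    (∀ n : ℕ, 1 ≤ n → ms S n ≤ 2 * (S.card / Real.log X)) ∧
    ∀ x : ℕ, ∑ n ∈ Icc 1 x, (ms S n - mu X S.card x) ^ 2 ≤ x * ((S.card / Real.log X) ^ 2 * (10 / Real.log X)) := by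
  filter_upwards [large B1, eventually_ge_atTop 1] with X hX hX1 S hS hs
  obtain ⟨L, hLdef⟩ : ∃ L, L = Real.log (X : ℝ) := ⟨_, rfl⟩
  obtain ⟨δ, hδdef⟩ : ∃ δ, δ = ((B1 : ℝ) + 1) * Real.log L + 1 := ⟨_, rfl⟩
  rw [← hLdef] at hX hs ⊢
  obtain ⟨hL4, hδ⟩ := hX
  rw [← hδdef] at hδ
  have hL0 : 0 < L := by linarith
  have hlogL : 0 ≤ Real.log L := Real.log_nonneg (by linarith)
  have hδ0 : 0 ≤ δ := by rw [hδdef]; positivity
  have hδL : δ ≤ L / 2 := by
    by_contra hcon
    rw [not_le] at hcon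
    nlinarith
  have hX0 : (0 : ℝ) < X := by exact_mod_cast hX1
  -- lower bound for the logarithms
  have hlow : ∀ s ∈ S, L - B1 * Real.log L ≤ Real.log s := by
    intro s hsS
    have hs1 : 1 ≤ s := (mem_Icc.mp (hS hsS)).1
    have hs0 : (0 : ℝ) < s := by exact_mod_cast hs1
    have h1 := Real.log_le_log hX0 (hs s hsS)
    rw [Real.log_mul hs0.ne' (pow_pos hL0 _).ne', Real.log_pow, ← hLdef] at h1
    linarith
  have hB : (B1 : ℝ) * Real.log L ≤ L / 2 := by
    have : (B1 : ℝ) * Real.log L ≤ δ := by rw [hδdef]; nlinarith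
    linarith
  have hhalf : ∀ s ∈ S, ∀ n : ℕ, L / 2 ≤ Real.log ((n + s : ℕ) : ℝ) := by
    intro s hsS n
    have hs1 : 1 ≤ s := (mem_Icc.mp (hS hsS)).1
    have hs0 : (0 : ℝ) < s := by exact_mod_cast hs1
    have h1 := hlow s hsS
    have h2 : Real.log s ≤ Real.log ((n + s : ℕ) : ℝ) := by
      apply Real.log_le_log hs0
      push_cast
      have : (0 : ℝ) ≤ n := Nat.cast_nonneg n
      linarith
    linarith
  have hms : ∀ n : ℕ, 1 ≤ n → ms S n ≤ 2 * (S.card / L) := by
    intro n _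
    have h1 : ms S n ≤ S.card • (2 / L) := by
      unfold ms
      refine Finset.sum_le_card_nsmul _ _ _ fun s hsS => ?_
      have h2 := hhalf s hsS n
      rw [div_le_div_iff₀ (by linarith) hL0]
      linarith
    rw [nsmul_eq_mul] at h1
    calc ms S n ≤ (S.card : ℝ) * (2 / L) := h1
      _ = 2 * (S.card / L) := by ring
  refine ⟨hms, ?_⟩
  intro x
  have hmax : L ≤ Real.log ((max X x : ℕ) : ℝ) := by
    rw [hLdef]
    apply Real.log_le_log hX0
    exact_mod_cast le_max_left X x
  have hmax0 : 0 < Real.log ((max X x : ℕ) : ℝ) := by linarith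
  have hD : (0 : ℝ) ≤ S.card := Nat.cast_nonneg _
  have hmu0 : 0 ≤ mu X S.card x := by
    unfold mu
    exact div_nonneg hD hmax0.le
  have hmu1 : mu X S.card x ≤ 2 * (S.card / L) := by
    unfold mu
    have h1 : (S.card : ℝ) / Real.log ((max X x : ℕ) : ℝ) ≤ S.card / L :=
      div_le_div_of_nonneg_left hD hL0 hmax
    have h2 : 0 ≤ (S.card : ℝ) / L := by positivity
    linarith
  have hms0 : ∀ n : ℕ, 0 ≤ ms S n := by
    intro n
    unfold ms
    refine Finset.sum_nonneg fun s hsS => ?_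
    have := hhalf s hsS n
    exact div_nonneg zero_le_one (by linarith)
  -- one term
  have hterm : ∀ n ∈ Icc 1 x, (ms S n - mu X S.card x) ^ 2 ≤
      (S.card * (2 * δ / L ^ 2)) ^ 2 + (if (n : ℝ) * L < x then (2 * (S.card / L)) ^ 2 else 0) := by
    intro n hn
    rw [mem_Icc] at hn
    have hn0 : (0 : ℝ) < n := by exact_mod_cast hn.1
    by_cases hsmall : (n : ℝ) * L < x
    · rw [if_pos hsmall]
      have h1 : |ms S n - mu X S.card x| ≤ 2 * (S.card / L) := by
        rw [abs_le]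
        have := hms n hn.1
        have := hms0 n
        constructor <;> linarith
      have h2 : (ms S n - mu X S.card x) ^ 2 ≤ (2 * (S.card / L)) ^ 2 := by
        rw [← sq_abs]
        exact pow_le_pow_left₀ (abs_nonneg _) h1 2
      have h3 : 0 ≤ (S.card * (2 * δ / L ^ 2)) ^ 2 := sq_nonneg _
      linarith
    · rw [if_neg hsmall, add_zero]
      rw [not_lt] at hsmall
      have h1 : |ms S n - mu X S.card x| ≤ S.card * (2 * δ / L ^ 2) := by
        have e1 : mu X S.card x = ∑ _s ∈ S, 1 / Real.log ((max X x : ℕ) : ℝ) := by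
          unfold mu
          rw [Finset.sum_const, nsmul_eq_mul, mul_one_div]
        rw [e1]
        unfold ms
        rw [← Finset.sum_sub_distrib]
        refine (Finset.abs_sum_le_sum_abs _ _).trans ?_
        rw [← nsmul_eq_mul]
        refine Finset.sum_le_card_nsmul _ _ _ fun s hsS => ?_
        refine inv_diff hL4 hmax (hhalf s hsS n) ?_
        have hs1 := mem_Icc.mp (hS hsS)
        have hs0 : (0 : ℝ) < s := by exact_mod_cast hs1.1
        have hns : (0 : ℝ) < ((n + s : ℕ) : ℝ) := by push_cast; linarith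
        have hup : Real.log ((n + s : ℕ) : ℝ) ≤ Real.log ((max X x : ℕ) : ℝ) + 1 := by
          have h5 : ((n + s : ℕ) : ℝ) ≤ 2 * ((max X x : ℕ) : ℝ) := by
            have h6 : n ≤ max X x := hn.2.trans (le_max_right _ _)
            have h7 : s ≤ max X x := hs1.2.trans (le_max_left _ _)
            have h8 : n + s ≤ 2 * max X x := by omega
            exact_mod_cast h8
          have hm0 : (0 : ℝ) < ((max X x : ℕ) : ℝ) := by
            have : 1 ≤ max X x := hX1.trans (le_max_left _ _)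
            exact_mod_cast this
          have h9 := Real.log_le_log hns h5
          rw [Real.log_mul (by norm_num) hm0.ne'] at h9
          have h10 := Real.log_two_lt_d9
          linarith
        have hdn : Real.log ((max X x : ℕ) : ℝ) - (B1 * Real.log L + Real.log L) ≤
            Real.log ((n + s : ℕ) : ℝ) := by
          have h12 : 0 ≤ (B1 : ℝ) * Real.log L := by positivity
          rcases le_total x X with hxX | hxX
          · rw [max_eq_left hxX, ← hLdef]
            have h11 := hlow s hsS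
            have h13 : Real.log s ≤ Real.log ((n + s : ℕ) : ℝ) := by
              apply Real.log_le_log hs0
              push_cast
              linarith
            linarith
          · rw [max_eq_right hxX]
            have hx0 : (0 : ℝ) < x := by
              have : 1 ≤ x := hn.1.trans hn.2
              exact_mod_cast this
            have h14 := Real.log_le_log hx0 hsmall
            rw [Real.log_mul hn0.ne' hL0.ne'] at h14
            have h15 : Real.log n ≤ Real.log ((n + s : ℕ) : ℝ) := by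
              apply Real.log_le_log hn0
              push_cast
              linarith
            linarith
        rw [abs_le, hδdef]
        constructor
        · linarith
        · have : 0 ≤ ((B1 : ℝ) + 1) * Real.log L := by positivity
          linarith
      rw [← sq_abs]
      exact pow_le_pow_left₀ (abs_nonneg _) h1 2
  refine (Finset.sum_le_sum hterm).trans ?_
  rw [Finset.sum_add_distrib, Finset.sum_const, Nat.card_Icc, Nat.add_sub_cancel, nsmul_eq_mul,
    ← Finset.sum_filter, Finset.sum_const, nsmul_eq_mul]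
  have h20 := card_small L hL4 x
  have h21 : (((Icc 1 x).filter (fun n : ℕ => (n : ℝ) * L < x)).card : ℝ) * (2 * (S.card / L)) ^ 2 ≤
      x / L * (2 * (S.card / L)) ^ 2 := mul_le_mul_of_nonneg_right h20 (sq_nonneg _)
  have hx0 : (0 : ℝ) ≤ x := Nat.cast_nonneg x
  have h22 : (S.card * (2 * δ / L ^ 2)) ^ 2 ≤ (S.card / L) ^ 2 * (4 / L) := by
    have e2 : (S.card * (2 * δ / L ^ 2)) ^ 2 = (S.card / L) ^ 2 * (4 * δ ^ 2 / L ^ 2) := by
      field_simp
      ring
    rw [e2]
    refine mul_le_mul_of_nonneg_left ?_ (sq_nonneg _)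
    rw [div_le_div_iff₀ (by positivity) hL0]
    nlinarith
  have h23 : (x : ℝ) * (S.card * (2 * δ / L ^ 2)) ^ 2 ≤ x * ((S.card / L) ^ 2 * (4 / L)) :=
    mul_le_mul_of_nonneg_left h22 hx0
  have h24 : (x : ℝ) * ((S.card / L) ^ 2 * (4 / L)) + x / L * (2 * (S.card / L)) ^ 2 ≤
      x * ((S.card / L) ^ 2 * (10 / L)) := by
    have e3 : (x : ℝ) * ((S.card / L) ^ 2 * (4 / L)) + x / L * (2 * (S.card / L)) ^ 2 =
        x * ((S.card / L) ^ 2 * (8 / L)) := by ring
    rw [e3]
    refine mul_le_mul_of_nonneg_left (mul_le_mul_of_nonneg_left ?_ (sq_nonneg _)) hx0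
    exact div_le_div_of_nonneg_right (by norm_num) hL0.le
  linarith

end Pool.Agent.SHP
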