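import Pool.Agent.Lib.SHP.Defs

/-!
# Module Expand (pure): moments as sums of products over small subsets

`(∑_S a - c)^k = ∑_j choose k j (∑_S a)^j (-c)^(k-j)` and `(∑_S a)^j = ∑_{f : Fin j → S} ∏_i a (f i) = ∑_f ∏_{s ∈ image f} a s` (because `a s ^ e = a s` for `e ≥ 1`).
`EB S g (fun m => m^j) = ∑_f ∏_{s ∈ image f} g s`: for `T ⊆ S` write `(#T)^j = ∑_{f : Fin j → S} [image f ⊆ T]`, exchange the sums, and for `U ⊆ S`
`∑_{T ⊆ S, U ⊆ T} ∏_T g ∏_(S \ T) (1 - g) = ∏_U g` (`Finset.prod_add`: `∏_S (g + (1 - g)) = 1` on `S \ U`).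
`eb_center`: binomial theorem, `(j - c) = (j - ∑ g) + (∑ g - c)`.
-/

set_option autoImplicit false

open Finset Filter

namespace Pool.Agent.SHP

namespace ExpandAux

lemma eb_lin {ι : Type*} (I : Finset ι) (S : Finset ℕ) (g : ℕ → ℝ) (c : ι → ℝ) (F : ι → ℕ → ℝ) :
    EB S g (fun j => ∑ i ∈ I, c i * F i j) = ∑ i ∈ I, c i * EB S g (F i) := by
  unfold EB
  simp_rw [mul_sum]
  rw [sum_comm]
  refine sum_congr rfl fun i _ => sum_congr rfl fun T _ => ?_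
  ring

lemma pow_eq (j : ℕ) (S : Finset ℕ) (a : ℕ → ℝ) (ha : ∀ s ∈ S, a s = 0 ∨ a s = 1) :
    (∑ s ∈ S, a s) ^ j = ∑ f ∈ Fintype.piFinset (fun _ : Fin j => S), ∏ s ∈ univ.image f, a s := by
  rw [Finset.sum_pow']
  refine sum_congr rfl fun f hf => ?_
  rw [Fintype.mem_piFinset] at hf
  rw [Finset.prod_comp a f]
  refine prod_congr rfl fun s hs => ?_
  rw [mem_image] at hs
  obtain ⟨i, -, rfl⟩ := hs
  have hc : (univ.filter (fun i' => f i' = f i)).card ≠ 0 := by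
    rw [card_ne_zero]
    exact ⟨i, by simp⟩
  rcases ha (f i) (hf i) with h | h
  · rw [h, zero_pow hc]
  · rw [h, one_pow]

lemma weight_sum (S U : Finset ℕ) (hU : U ⊆ S) (g : ℕ → ℝ) :
    ∑ T ∈ S.powerset, (∏ s ∈ T, g s) * (∏ s ∈ S \ T, (1 - g s)) *
      ∏ s ∈ U, (if s ∈ T then (1 : ℝ) else 0) = ∏ s ∈ U, g s := by
  have h1 : ∀ T ∈ S.powerset, (∏ s ∈ T, g s) * (∏ s ∈ S \ T, (1 - g s)) *
      ∏ s ∈ U, (if s ∈ T then (1 : ℝ) else 0) =
      (∏ s ∈ T, g s) * ∏ s ∈ S \ T, (if s ∈ U then 0 else 1 - g s) := by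
    intro T _
    rw [mul_assoc]
    congr 1
    by_cases hUT : U ⊆ T
    · rw [prod_eq_one (s := U) (fun s hs => if_pos (hUT hs)), mul_one]
      refine prod_congr rfl fun s hs => ?_
      rw [Finset.mem_sdiff] at hs
      rw [if_neg (fun h => hs.2 (hUT h))]
    · rw [Finset.not_subset] at hUT
      obtain ⟨s, hs, hsT⟩ := hUT
      rw [prod_eq_zero (i := s) (s := U) hs (if_neg hsT), mul_zero]
      have h0 : (fun s => if s ∈ U then (0 : ℝ) else 1 - g s) s = 0 := if_pos hs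
      exact (prod_eq_zero (i := s) (Finset.mem_sdiff.2 ⟨hU hs, hsT⟩) h0).symm
  rw [sum_congr rfl h1, ← prod_add]
  have h2 : ∀ s ∈ S, g s + (if s ∈ U then 0 else 1 - g s) = if s ∈ U then g s else 1 := by
    intro s _
    split_ifs
    · ring
    · ring
  rw [prod_congr rfl h2, ← prod_filter]
  congr 1
  ext s
  simp only [mem_filter]
  exact ⟨fun h => h.2, fun h => ⟨hU h, h⟩⟩

lemma eb_pow (j : ℕ) (S : Finset ℕ) (g : ℕ → ℝ) :
    EB S g (fun m => (m : ℝ) ^ j) =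
      ∑ f ∈ Fintype.piFinset (fun _ : Fin j => S), ∏ s ∈ univ.image f, g s := by
  unfold EB
  have h1 : ∀ T ∈ S.powerset, (∏ s ∈ T, g s) * (∏ s ∈ S \ T, (1 - g s)) * ((T.card : ℝ) ^ j) =
      ∑ f ∈ Fintype.piFinset (fun _ : Fin j => S), (∏ s ∈ T, g s) * (∏ s ∈ S \ T, (1 - g s)) *
        ∏ s ∈ univ.image f, (if s ∈ T then (1 : ℝ) else 0) := by
    intro T hT
    rw [mem_powerset] at hT
    have h2 : (T.card : ℝ) = ∑ s ∈ S, (if s ∈ T then (1 : ℝ) else 0) := by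
      rw [← sum_filter, sum_const, nsmul_eq_mul, mul_one]
      congr 2
      ext s
      simp only [mem_filter]
      exact ⟨fun h => ⟨hT h, h⟩, fun h => h.2⟩
    rw [h2, pow_eq j S (fun s => if s ∈ T then (1 : ℝ) else 0) (fun s _ => by
      by_cases h : s ∈ T
      · exact Or.inr (if_pos h)
      · exact Or.inl (if_neg h)), mul_sum]
  rw [sum_congr rfl h1, sum_comm]
  refine sum_congr rfl fun f hf => ?_
  refine weight_sum S _ ?_ g
  rw [Fintype.mem_piFinset] at hf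
  intro s hs
  rw [mem_image] at hs
  obtain ⟨i, -, rfl⟩ := hs
  exact hf i

end ExpandAux

open ExpandAux

theorem expand_moment (k : ℕ) (S : Finset ℕ) (a g : ℕ → ℝ) (ha : ∀ s ∈ S, a s = 0 ∨ a s = 1) (c : ℝ) :
    (∑ s ∈ S, a s - c) ^ k - EB S g (fun j => ((j : ℝ) - c) ^ k) =
      ∑ j ∈ range (k + 1), (k.choose j : ℝ) * (-c) ^ (k - j) *
        ∑ f ∈ Fintype.piFinset (fun _ : Fin j => S), (∏ s ∈ univ.image f, a s - ∏ s ∈ univ.image f, g s) := by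
  have h1 : (∑ s ∈ S, a s - c) ^ k = ∑ j ∈ range (k + 1), (k.choose j : ℝ) * (-c) ^ (k - j) *
      ∑ f ∈ Fintype.piFinset (fun _ : Fin j => S), ∏ s ∈ univ.image f, a s := by
    rw [sub_eq_add_neg, add_pow]
    refine sum_congr rfl fun j _ => ?_
    rw [pow_eq j S a ha]
    ring
  have h2 : EB S g (fun j => ((j : ℝ) - c) ^ k) = ∑ j ∈ range (k + 1),
      (k.choose j : ℝ) * (-c) ^ (k - j) *
        ∑ f ∈ Fintype.piFinset (fun _ : Fin j => S), ∏ s ∈ univ.image f, g s := by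
    have h3 : (fun m : ℕ => ((m : ℝ) - c) ^ k) = fun m : ℕ => ∑ j ∈ range (k + 1),
        ((k.choose j : ℝ) * (-c) ^ (k - j)) * (fun m : ℕ => (m : ℝ) ^ j) m := by
      funext m
      rw [sub_eq_add_neg, add_pow]
      refine sum_congr rfl fun j _ => ?_
      ring
    rw [h3, eb_lin (range (k + 1)) S g (fun j => (k.choose j : ℝ) * (-c) ^ (k - j))
      (fun j m => (m : ℝ) ^ j)]
    refine sum_congr rfl fun j _ => ?_
    rw [eb_pow]
  rw [h1, h2, ← sum_sub_distrib]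
  refine sum_congr rfl fun j _ => ?_
  rw [← mul_sub, ← sum_sub_distrib]

theorem eb_center (k : ℕ) (S : Finset ℕ) (g : ℕ → ℝ) (c : ℝ) :
    EB S g (fun j => ((j : ℝ) - c) ^ k) =
      ∑ i ∈ range (k + 1), (k.choose i : ℝ) * cm S g (k - i) * (∑ s ∈ S, g s - c) ^ i := by
  obtain ⟨μ, hμ⟩ : ∃ μ : ℝ, μ = ∑ s ∈ S, g s := ⟨_, rfl⟩
  have h3 : (fun m : ℕ => ((m : ℝ) - c) ^ k) = fun m : ℕ => ∑ i ∈ range (k + 1),
      ((k.choose i : ℝ) * (μ - c) ^ i) * (fun m : ℕ => ((m : ℝ) - μ) ^ (k - i)) m := by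
    funext m
    have h4 : (m : ℝ) - c = (μ - c) + (m - μ) := by ring
    rw [h4, add_pow]
    refine sum_congr rfl fun i _ => ?_
    ring
  rw [h3, eb_lin (range (k + 1)) S g (fun i => (k.choose i : ℝ) * (μ - c) ^ i)
    (fun i m => ((m : ℝ) - μ) ^ (k - i))]
  refine sum_congr rfl fun i _ => ?_
  unfold cm
  rw [← hμ]
  ring

end Pool.Agent.SHP
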