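import Pool.Agent.Lib.SHP.Bin
import Pool.Agent.Lib.SHP.Expand

/-!
# Module Gauss: moments

`L = log X`, `E f = (1/x) ∑_{n ≤ x} f n`, `κ = D / L ≥ Lam ≥ 1`, `μ = mu X D x`, `κ / 6 ≤ μ ≤ κ` (as `x ≤ X^6`), `M(n) = ms S n ≤ 2 κ`, `r(n) = rm z S n`, `m(n) = ∑_S G1 z (n + s) = M(n) + r(n) ≥ 0`,
`ρ = |r| / √κ`; `E ρ^(8q) ≤ L^(-q)` (`rem`), `σ = |M - μ| / κ`, `E σ² ≤ 10 / L` (`msq`); `γ = L^(-3/4)` bounds all `G1 z (n + s)` (`gmax`).
(1) `expand_moment` with `a s = G0 (n + s)`, `g s = G1 z (n + s)`, `c = M(n)`, summed over `n`. For fixed `j`, `f` (`T = image f ⊆ S`, `#T ≤ j ≤ k ≤ R`) Abel summation: `M(n)^(k-j)` is nonnegative and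
decreasing in `n ≥ 1` (`log` increasing, `n + s ≥ 2`), at most `(2 D)^(k-j)` (`1 / log 2 ≤ 2`), so `|∑_{n ≤ x} M(n)^(k-j) (∏_T G0 - ∏_T G1)| ≤ (2 D)^(k-j) x / L^A` (`corr`). Total:
`|E (np - M)^k - E EB(n)| ≤ (3 D)^k / L^A ≤ 3^k / L`, where `EB(n) = EB S g (fun j => (j - M(n))^k)`, `D ≤ L^K`, `A ≥ K k + 1`.
(2) `eb_center`: `EB(n) = cm S g k + ∑_{i ≥ 1} choose k i cm S g (k-i) r^i`. `cm_bound` with `u = √(1 + m)` (`∑ g = m ≤ u²`), `u ≤ √(3 κ + |r|) ≤ √κ (2 + ρ)`: `|cm S g j| ≤ C κ^(j/2) (2 + ρ)^j`;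
the terms `i ≥ 1` are at most `C κ^(k/2) ρ (2 + ρ)^(k-1) 2^k ≤ C' κ^(k/2) (ρ + ρ^k)`.
(3) `|cm S g k - gm k √v^k| ≤ C u^(k-1) ≤ C κ^((k-1)/2) (2 + ρ)^k` (`u ≥ 1`), `v = vr S g`, `0 ≤ v ≤ m`, `m - v ≤ γ m`.
(4) `|√v^k - √μ^k| ≤ k |√v - √μ| (√v + √μ)^(k-1)`, `|√v - √μ| ≤ |v - μ| / √μ ≤ 3 |v - μ| / √κ`, `|v - μ| ≤ γ m + |r| + |M - μ|`: so `|√v^k - √μ^k| ≤ C κ^(k/2) (3 + ρ)^k (γ + ρ + σ)`.
(5) Divide by `√μ^k` (`√μ ≥ √κ / 3`): `|E ((np - M) / √μ)^k - gm k| ≤ C [1 / L + E (ρ + ρ^k) + Lam^(-1/2) E (2 + ρ)^k + E (3 + ρ)^k (γ + ρ + σ)]`. For `τ ∈ (0, 1]`: `ρ^i ≤ τ + ρ^(8q) / τ^(8q)` for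
`1 ≤ i ≤ 8 q`, `(3 + ρ)^k σ ≤ τ (3 + ρ)^(2k) + σ² / τ`, `2 k + 2 ≤ 8 q`. Choose `τ` small, then `Lam` and `L0` large. (It is convenient to fix `k` first and to take maxima over `k ≤ R` at the end.)
-/

set_option autoImplicit false

open Finset Filter

namespace Pool.Agent.SHP

namespace GaussAux

open Pool.Agent.HLU

theorem abel_anti (x : ℕ) (hx : 1 ≤ x) (w d : ℕ → ℝ) (Z : ℝ)
    (hw : ∀ n, 1 ≤ n → n < x → w (n + 1) ≤ w n) (hw0 : ∀ n, 1 ≤ n → n ≤ x → 0 ≤ w n)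
    (hd : ∀ y, y ≤ x → |∑ n ∈ Icc 1 y, d n| ≤ Z) :
    |∑ n ∈ Icc 1 x, w n * d n| ≤ w 1 * Z := by
  have key : ∀ y, 1 ≤ y → y ≤ x →
      |∑ n ∈ Icc 1 y, w n * d n - w y * ∑ n ∈ Icc 1 y, d n| ≤ (w 1 - w y) * Z := by
    intro y hy
    induction y, hy using Nat.le_induction with
    | base => intro _; simp
    | succ y hy ih =>
      intro h
      have h1 := ih (by omega)
      have h2 := hd y (by omega)
      have h3 := hw y hy (by omega)
      rw [Finset.sum_Icc_succ_top (by omega), Finset.sum_Icc_succ_top (by omega)]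
      have h4 : ∑ n ∈ Icc 1 y, w n * d n + w (y + 1) * d (y + 1) -
          w (y + 1) * (∑ n ∈ Icc 1 y, d n + d (y + 1)) =
          (∑ n ∈ Icc 1 y, w n * d n - w y * ∑ n ∈ Icc 1 y, d n) +
            (w y - w (y + 1)) * ∑ n ∈ Icc 1 y, d n := by ring
      rw [h4]
      refine (abs_add_le _ _).trans ?_
      rw [abs_mul, abs_of_nonneg (by linarith : 0 ≤ w y - w (y + 1))]
      have h5 := mul_le_mul_of_nonneg_left h2 (by linarith : 0 ≤ w y - w (y + 1))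
      linarith
  have h1 := key x hx le_rfl
  have h2 := hd x le_rfl
  have h3 := hw0 x hx le_rfl
  have h4 : ∑ n ∈ Icc 1 x, w n * d n =
      (∑ n ∈ Icc 1 x, w n * d n - w x * ∑ n ∈ Icc 1 x, d n) + w x * ∑ n ∈ Icc 1 x, d n := by ring
  rw [h4]
  refine (abs_add_le _ _).trans ?_
  rw [abs_mul, abs_of_nonneg h3]
  have h5 := mul_le_mul_of_nonneg_left h2 h3
  linarith

theorem ms_nonneg (S : Finset ℕ) (n : ℕ) : 0 ≤ ms S n :=
  Finset.sum_nonneg fun _ _ => inv_log_nonneg _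

theorem ms_anti (S : Finset ℕ) (hS : ∀ s ∈ S, 1 ≤ s) (n : ℕ) (hn : 1 ≤ n) :
    ms S (n + 1) ≤ ms S n := by
  unfold ms
  refine Finset.sum_le_sum fun s hs => ?_
  have h1 := hS s hs
  have h2 : (1 : ℝ) < ((n + s : ℕ) : ℝ) := by exact_mod_cast (by omega : 1 < n + s)
  refine one_div_le_one_div_of_le (Real.log_pos h2) (Real.log_le_log (by linarith) ?_)
  exact_mod_cast (by omega : n + s ≤ n + 1 + s)

theorem np_sub_EB (k R q A X D x z : ℕ) (S : Finset ℕ) (hk : k ≤ R) (hx : 1 ≤ x)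
    (hL : 1 ≤ Real.log X) (h : Loc R q A X D x z S) :
    |∑ n ∈ Icc 1 x, (((np S n : ℝ) - ms S n) ^ k -
      EB S (fun s => G1 z (n + s)) (fun j => ((j : ℝ) - ms S n) ^ k))| ≤
      (3 * D) ^ k * (x / Real.log X ^ A) := by
  have h1 : ∀ n, ((np S n : ℝ) - ms S n) ^ k -
      EB S (fun s => G1 z (n + s)) (fun j => ((j : ℝ) - ms S n) ^ k) =
      ∑ j ∈ range (k + 1), ∑ f ∈ Fintype.piFinset (fun _ : Fin j => S),
        ((k.choose j : ℝ) * (-1) ^ (k - j)) * (ms S n ^ (k - j) *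
          (∏ s ∈ univ.image f, G0 (n + s) - ∏ s ∈ univ.image f, G1 z (n + s))) := by
    intro n
    rw [np_eq, expand_moment k S (fun s => G0 (n + s)) (fun s => G1 z (n + s)) (fun s _ => by
      unfold G0
      split_ifs
      · exact Or.inr rfl
      · exact Or.inl rfl) (ms S n)]
    refine Finset.sum_congr rfl fun j _ => ?_
    rw [Finset.mul_sum]
    refine Finset.sum_congr rfl fun f _ => ?_
    rw [neg_pow]
    ring
  have hZ : 0 ≤ (x : ℝ) / Real.log X ^ A := by positivity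
  have hLp : 0 < Real.log X := by linarith
  have hm1 : ms S 1 ≤ 2 * D := by
    have h2 := h.mean 1 (Finset.mem_Icc.2 ⟨le_rfl, hx⟩)
    have h3 : (D : ℝ) / Real.log X ≤ D := div_le_self (Nat.cast_nonneg D) hL
    linarith
  rw [Finset.sum_congr rfl fun n _ => h1 n, Finset.sum_comm]
  have h2 : ∀ j ∈ range (k + 1), |∑ n ∈ Icc 1 x, ∑ f ∈ Fintype.piFinset (fun _ : Fin j => S),
        ((k.choose j : ℝ) * (-1) ^ (k - j)) * (ms S n ^ (k - j) *
          (∏ s ∈ univ.image f, G0 (n + s) - ∏ s ∈ univ.image f, G1 z (n + s)))| ≤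
      ((D : ℝ) ^ j * (2 * D) ^ (k - j) * (k.choose j : ℝ)) * (x / Real.log X ^ A) := by
    intro j hj
    have hjk : j ≤ k := by
      have := Finset.mem_range.1 hj
      omega
    rw [Finset.sum_comm]
    refine (Finset.abs_sum_le_sum_abs _ _).trans ?_
    have h3 : ∀ f ∈ Fintype.piFinset (fun _ : Fin j => S), |∑ n ∈ Icc 1 x,
        ((k.choose j : ℝ) * (-1) ^ (k - j)) * (ms S n ^ (k - j) *
          (∏ s ∈ univ.image f, G0 (n + s) - ∏ s ∈ univ.image f, G1 z (n + s)))| ≤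
        (k.choose j : ℝ) * ((2 * D) ^ (k - j) * (x / Real.log X ^ A)) := by
      intro f hf
      rw [← Finset.mul_sum, abs_mul, abs_mul, abs_pow, abs_neg, abs_one, one_pow, mul_one,
        Nat.abs_cast]
      refine mul_le_mul_of_nonneg_left ?_ (Nat.cast_nonneg _)
      have h4 := abel_anti x hx (fun n => ms S n ^ (k - j))
        (fun n => ∏ s ∈ univ.image f, G0 (n + s) - ∏ s ∈ univ.image f, G1 z (n + s))
        (x / Real.log X ^ A) (fun n hn _ => pow_le_pow_left₀ (ms_nonneg S _)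
          (ms_anti S h.pos n hn) _) (fun n _ _ => pow_nonneg (ms_nonneg S n) _) (by
          refine h.corr (univ.image f) ?_ ?_
          · intro s hs
            obtain ⟨i, _, hi⟩ := Finset.mem_image.1 hs
            rw [← hi]
            exact Fintype.mem_piFinset.1 hf i
          · refine Finset.card_image_le.trans ?_
            rw [Finset.card_univ, Fintype.card_fin]
            omega)
      refine h4.trans ?_
      refine mul_le_mul_of_nonneg_right ?_ hZ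
      exact pow_le_pow_left₀ (ms_nonneg S 1) hm1 _
    refine (Finset.sum_le_sum h3).trans ?_
    rw [Finset.sum_const, Fintype.card_piFinset, Finset.prod_const, Finset.card_univ,
      Fintype.card_fin, h.card, nsmul_eq_mul]
    push_cast
    apply le_of_eq
    ring
  refine (Finset.abs_sum_le_sum_abs _ _).trans ((Finset.sum_le_sum h2).trans ?_)
  rw [← Finset.sum_mul, ← add_pow]
  apply le_of_eq
  ring

theorem point (k : ℕ) : ∃ C : ℝ, 0 < C ∧ ∀ (S : Finset ℕ) (g : ℕ → ℝ) (M μ s γ : ℝ),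
    (∀ a ∈ S, 0 ≤ g a ∧ g a ≤ γ) → γ ≤ 1 → 0 ≤ γ → 1 ≤ s → 0 ≤ M → M ≤ 2 * s ^ 2 →
    s ^ 2 ≤ 9 * μ → μ ≤ s ^ 2 →
    |EB S g (fun j => ((j : ℝ) - M) ^ (k + 1)) - gm (k + 1) * √μ ^ (k + 1)| ≤
      C * (s ^ (k + 1) * ((3 + |∑ a ∈ S, g a - M| / s) ^ (k + 2) *
       ((1 / s + γ) + 2 * (|∑ a ∈ S, g a - M| / s) + |M - μ| / s ^ 2))) := by
  choose C hC0 hC using cm_bound
  have hC1 : ∀ j, j ≤ k + 1 → C j ≤ ∑ i ∈ range (k + 2), C i := fun j hj =>
    Finset.single_le_sum (f := C) (fun i _ => (hC0 i).le) (Finset.mem_range.2 (by omega))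
  have hC1p : 0 < ∑ i ∈ range (k + 2), C i := lt_of_lt_of_le (hC0 0) (hC1 0 (by omega))
  obtain ⟨C1, hC1e⟩ : ∃ C1, C1 = ∑ i ∈ range (k + 2), C i := ⟨_, rfl⟩
  rw [← hC1e] at hC1 hC1p
  refine ⟨2 ^ (k + 1) * C1 + C1 + |gm (k + 1)| * (3 * (k + 1)), by positivity, ?_⟩
  intro S g M μ s γ hg hγ1 hγ0 hs hM0 hM hμ1 hμ2
  obtain ⟨m, hm⟩ : ∃ m, m = ∑ a ∈ S, g a := ⟨_, rfl⟩
  obtain ⟨ρ, hρ⟩ : ∃ ρ, ρ = |m - M| / s := ⟨_, rfl⟩
  obtain ⟨σ, hσ⟩ : ∃ σ, σ = |M - μ| / s ^ 2 := ⟨_, rfl⟩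
  rw [← hm, ← hρ, ← hσ]
  have hs0 : 0 < s := by linarith
  have hρ0 : 0 ≤ ρ := by rw [hρ]; positivity
  have hσ0 : 0 ≤ σ := by rw [hσ]; positivity
  have hrρ : |m - M| = s * ρ := by rw [hρ]; field_simp
  have hMσ : |M - μ| = s ^ 2 * σ := by rw [hσ]; field_simp
  obtain ⟨t, ht⟩ : ∃ t, t = 3 + ρ := ⟨_, rfl⟩
  rw [← ht]
  have ht1 : 1 ≤ t := by linarith
  have hρt : ρ ≤ t := by linarith
  have hg1 : ∀ a ∈ S, 0 ≤ g a ∧ g a ≤ 1 := fun a ha => ⟨(hg a ha).1, (hg a ha).2.trans hγ1⟩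
  have hm0 : 0 ≤ m := by
    rw [hm]
    exact Finset.sum_nonneg fun a ha => (hg a ha).1
  have hm1 : m ≤ 2 * s ^ 2 + s * ρ := by
    have h1 := le_abs_self (m - M)
    linarith
  have hst : 0 ≤ s * t := by positivity
  have hst2 : 1 + m ≤ (s * t) ^ 2 := by
    rw [ht]
    nlinarith [mul_nonneg hs0.le hρ0, mul_nonneg (mul_nonneg hs0.le hs0.le) hρ0, sq_nonneg (s * ρ),
      mul_nonneg (sub_nonneg.2 hs) (mul_nonneg hs0.le hρ0), mul_self_nonneg (s * ρ)]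
  obtain ⟨u, hu⟩ : ∃ u, u = √(1 + m) := ⟨_, rfl⟩
  have hu2 : u ^ 2 = 1 + m := by
    rw [hu]
    exact Real.sq_sqrt (by linarith)
  have hu1 : 1 ≤ u := by
    rw [hu]
    exact Real.one_le_sqrt.2 (by linarith)
  have hust : u ≤ s * t := by
    rw [hu]
    exact Real.sqrt_le_iff.2 ⟨hst, hst2⟩
  have hmu : ∑ a ∈ S, g a ≤ u ^ 2 := by
    rw [← hm]
    linarith
  have hcm : ∀ j, j ≤ k + 1 → |cm S g j| ≤ C1 * (s * t) ^ j := by
    intro j hj
    refine (hC j S g u hg1 hu1 hmu).1.trans ?_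
    exact mul_le_mul (hC1 j hj) (pow_le_pow_left₀ (by linarith) hust j) (by positivity) hC1p.le
  have hP : 0 ≤ s ^ (k + 1) * t ^ (k + 2) := by positivity
  -- (2)
  have h2 : |EB S g (fun j => ((j : ℝ) - M) ^ (k + 1)) - cm S g (k + 1)| ≤
      2 ^ (k + 1) * (C1 * (s ^ (k + 1) * t ^ (k + 2) * ρ)) := by
    have h3 : EB S g (fun j => ((j : ℝ) - M) ^ (k + 1)) - cm S g (k + 1) =
        ∑ i ∈ range (k + 1), ((k + 1).choose (i + 1) : ℝ) * cm S g (k + 1 - (i + 1)) *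
          (m - M) ^ (i + 1) := by
      rw [eb_center, Finset.sum_range_succ', ← hm]
      simp
    rw [h3]
    refine (Finset.abs_sum_le_sum_abs _ _).trans ?_
    have h4 : ∀ i ∈ range (k + 1), |((k + 1).choose (i + 1) : ℝ) * cm S g (k + 1 - (i + 1)) *
          (m - M) ^ (i + 1)| ≤ ((k + 1).choose (i + 1) : ℝ) *
            (C1 * (s ^ (k + 1) * t ^ (k + 2) * ρ)) := by
      intro i hi
      have hik : i ≤ k := by
        have := Finset.mem_range.1 hi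
        omega
      rw [abs_mul, abs_mul, Nat.abs_cast, abs_pow, hrρ, mul_assoc]
      refine mul_le_mul_of_nonneg_left ?_ (Nat.cast_nonneg ((k + 1).choose (i + 1)))
      have h5 := hcm (k + 1 - (i + 1)) (by omega)
      have h6 : 0 ≤ (s * ρ) ^ (i + 1) := by positivity
      refine (mul_le_mul_of_nonneg_right h5 h6).trans ?_
      rw [mul_assoc]
      refine mul_le_mul_of_nonneg_left ?_ hC1p.le
      have h7 : (s * t) ^ (k + 1 - (i + 1)) * (s * ρ) ^ (i + 1) =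
          s ^ (k + 1) * (t ^ (k - i) * ρ ^ i * ρ) := by
        have e1 : k + 1 - (i + 1) = k - i := by omega
        have e2 : k + 1 = (k - i) + (i + 1) := by omega
        rw [e1]
        conv_rhs => rw [e2]
        rw [mul_pow, mul_pow, pow_add s, pow_succ ρ i]
        ring
      have h8 : s ^ (k + 1) * t ^ (k + 2) * ρ = s ^ (k + 1) * (t ^ (k + 2) * ρ) := by ring
      rw [h7, h8]
      refine mul_le_mul_of_nonneg_left ?_ (by positivity)
      refine mul_le_mul_of_nonneg_right ?_ hρ0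
      calc t ^ (k - i) * ρ ^ i ≤ t ^ (k - i) * t ^ i :=
            mul_le_mul_of_nonneg_left (pow_le_pow_left₀ hρ0 hρt i) (by positivity)
        _ = t ^ k := by
            rw [← pow_add]
            congr 1
            omega
        _ ≤ t ^ (k + 2) := pow_le_pow_right₀ ht1 (by omega)
    refine (Finset.sum_le_sum h4).trans ?_
    rw [← Finset.sum_mul]
    refine mul_le_mul_of_nonneg_right ?_ (by positivity)
    have h5 := Nat.sum_range_choose (k + 1)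
    rw [Finset.sum_range_succ'] at h5
    have h6 : ∑ i ∈ range (k + 1), (k + 1).choose (i + 1) ≤ 2 ^ (k + 1) := by omega
    exact_mod_cast h6
  -- (3)
  have h3 : |cm S g (k + 1) - gm (k + 1) * √(vr S g) ^ (k + 1)| ≤
      C1 * (s ^ (k + 1) * t ^ (k + 2) * (1 / s)) := by
    have h4 := (hC (k + 1) S g u hg1 hu1 hmu).2
    have h5 : |cm S g (k + 1) - gm (k + 1) * √(vr S g) ^ (k + 1)| ≤ C (k + 1) * u ^ k := by
      have hu0 : 0 < u := by linarith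
      rw [pow_succ u k] at h4
      have h6 : u * |cm S g (k + 1) - gm (k + 1) * √(vr S g) ^ (k + 1)| ≤
          u * (C (k + 1) * u ^ k) := by linarith
      exact le_of_mul_le_mul_left h6 hu0
    refine h5.trans ?_
    refine mul_le_mul (hC1 _ le_rfl) ?_ (by positivity) hC1p.le
    refine (pow_le_pow_left₀ (by linarith) hust k).trans ?_
    rw [mul_pow]
    have h6 : s ^ (k + 1) * t ^ (k + 2) * (1 / s) = s ^ k * t ^ (k + 2) := by
      rw [pow_succ s k]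
      field_simp
    rw [h6]
    exact mul_le_mul_of_nonneg_left (pow_le_pow_right₀ ht1 (by omega)) (by positivity)
  -- (4)
  have h4 : |√(vr S g) ^ (k + 1) - √μ ^ (k + 1)| ≤
      3 * (k + 1) * (s ^ (k + 1) * t ^ (k + 2) * (γ + ρ + σ)) := by
    obtain ⟨v, hv⟩ : ∃ v, v = vr S g := ⟨_, rfl⟩
    rw [← hv]
    have hv0 : 0 ≤ v := by
      rw [hv]
      exact Finset.sum_nonneg fun a ha =>
        mul_nonneg (hg a ha).1 (by linarith [(hg1 a ha).2])
    have hvm : v ≤ m := by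
      rw [hv, hm]
      exact Finset.sum_le_sum fun a ha => by
        have := (hg a ha).1
        nlinarith
    have hmv : m - v ≤ γ * m := by
      have h5 : m - v = ∑ a ∈ S, g a * g a := by
        rw [hv, hm]
        unfold vr
        rw [← Finset.sum_sub_distrib]
        exact Finset.sum_congr rfl fun a _ => by ring
      rw [h5, hm, Finset.mul_sum]
      exact Finset.sum_le_sum fun a ha =>
        mul_le_mul_of_nonneg_right (hg a ha).2 (hg a ha).1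
    have hmst : m ≤ (s * t) ^ 2 := by linarith
    have hμ0 : 0 < μ := by
      have e1 : 0 < s ^ 2 := by positivity
      linarith
    have hvμ : |v - μ| ≤ s ^ 2 * t ^ 2 * (γ + ρ + σ) := by
      have h5 : |v - μ| ≤ |v - m| + |m - M| + |M - μ| := by
        have e1 : v - μ = (v - m) + (m - M) + (M - μ) := by ring
        rw [e1]
        exact (abs_add_le _ _).trans (by linarith [abs_add_le (v - m) (m - M)])
      have h6 : |v - m| ≤ γ * (s * t) ^ 2 := by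
        rw [abs_sub_comm, abs_of_nonneg (by linarith)]
        exact hmv.trans (mul_le_mul_of_nonneg_left hmst hγ0)
      have h7 : s * ρ ≤ (s * t) ^ 2 * ρ := by
        refine mul_le_mul_of_nonneg_right ?_ hρ0
        have e1 : s * 1 ≤ s * t := mul_le_mul_of_nonneg_left ht1 hs0.le
        have e2 : (s * t) * 1 ≤ (s * t) * (s * t) := mul_le_mul_of_nonneg_left (by linarith) hst
        rw [sq]
        linarith
      have h8 : s ^ 2 * σ ≤ (s * t) ^ 2 * σ := by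
        refine mul_le_mul_of_nonneg_right ?_ hσ0
        rw [mul_pow]
        exact le_mul_of_one_le_right (sq_nonneg s) (one_le_pow₀ ht1)
      rw [hrρ, hMσ] at h5
      calc |v - μ| ≤ γ * (s * t) ^ 2 + (s * t) ^ 2 * ρ + (s * t) ^ 2 * σ := by linarith
        _ = s ^ 2 * t ^ 2 * (γ + ρ + σ) := by ring
    have hsv : √v ≤ s * t := Real.sqrt_le_iff.2 ⟨hst, hvm.trans hmst⟩
    have hsμ : √μ ≤ s * t := by
      refine Real.sqrt_le_iff.2 ⟨hst, hμ2.trans ?_⟩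
      rw [mul_pow]
      exact le_mul_of_one_le_right (sq_nonneg s) (one_le_pow₀ ht1)
    have hsμ3 : s / 3 ≤ √μ := by
      refine Real.le_sqrt_of_sq_le ?_
      have e1 : (s / 3) ^ 2 = s ^ 2 / 9 := by ring
      rw [e1]
      linarith
    have hdiff : |√v - √μ| ≤ 3 * (s * t ^ 2 * (γ + ρ + σ)) := by
      have h5 : |√v - √μ| * (√v + √μ) = |v - μ| := by
        have h6 : 0 ≤ √v + √μ := by positivity
        have h7 : (√v - √μ) * (√v + √μ) = v - μ := by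
          have e1 := Real.mul_self_sqrt hv0
          have e2 := Real.mul_self_sqrt hμ0.le
          linear_combination e1 - e2
        rw [← h7, abs_mul, abs_of_nonneg h6]
      have h6 : |√v - √μ| * (s / 3) ≤ |v - μ| := by
        rw [← h5]
        refine mul_le_mul_of_nonneg_left ?_ (abs_nonneg _)
        have := Real.sqrt_nonneg v
        linarith
      have h7 : |√v - √μ| * (s / 3) ≤ 3 * (s * t ^ 2 * (γ + ρ + σ)) * (s / 3) := by
        calc |√v - √μ| * (s / 3) ≤ s ^ 2 * t ^ 2 * (γ + ρ + σ) := h6.trans hvμ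
          _ = 3 * (s * t ^ 2 * (γ + ρ + σ)) * (s / 3) := by ring
      exact le_of_mul_le_mul_right h7 (by positivity)
    have h5 := abs_pow_sub_pow_le (√v) (√μ) (k + 1)
    rw [abs_of_nonneg (Real.sqrt_nonneg v), abs_of_nonneg (Real.sqrt_nonneg μ),
      Nat.add_sub_cancel] at h5
    refine h5.trans ?_
    have h6 : max (√v) (√μ) ^ k ≤ (s * t) ^ k :=
      pow_le_pow_left₀ (le_max_of_le_left (Real.sqrt_nonneg v)) (max_le hsv hsμ) k
    calc |√v - √μ| * ((k + 1 : ℕ) : ℝ) * max (√v) (√μ) ^ k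
        ≤ 3 * (s * t ^ 2 * (γ + ρ + σ)) * ((k + 1 : ℕ) : ℝ) * (s * t) ^ k := by gcongr
      _ = 3 * (k + 1) * (s ^ (k + 1) * t ^ (k + 2) * (γ + ρ + σ)) := by
          push_cast
          rw [mul_pow]
          ring
  -- sum
  have h5 : |EB S g (fun j => ((j : ℝ) - M) ^ (k + 1)) - gm (k + 1) * √μ ^ (k + 1)| ≤
      |EB S g (fun j => ((j : ℝ) - M) ^ (k + 1)) - cm S g (k + 1)| +
      |cm S g (k + 1) - gm (k + 1) * √(vr S g) ^ (k + 1)| +
      |gm (k + 1)| * |√(vr S g) ^ (k + 1) - √μ ^ (k + 1)| := by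
    rw [← abs_mul]
    have e1 : EB S g (fun j => ((j : ℝ) - M) ^ (k + 1)) - gm (k + 1) * √μ ^ (k + 1) =
      (EB S g (fun j => ((j : ℝ) - M) ^ (k + 1)) - cm S g (k + 1)) +
      (cm S g (k + 1) - gm (k + 1) * √(vr S g) ^ (k + 1)) +
      gm (k + 1) * (√(vr S g) ^ (k + 1) - √μ ^ (k + 1)) := by ring
    rw [e1]
    exact (abs_add_le _ _).trans (by
      linarith [abs_add_le (EB S g (fun j => ((j : ℝ) - M) ^ (k + 1)) - cm S g (k + 1))
        (cm S g (k + 1) - gm (k + 1) * √(vr S g) ^ (k + 1))])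
  obtain ⟨P, hPe⟩ : ∃ P, P = s ^ (k + 1) * t ^ (k + 2) := ⟨_, rfl⟩
  rw [← hPe] at h2 h3 h4 hP
  obtain ⟨G, hG⟩ : ∃ G, G = |gm (k + 1)| := ⟨_, rfl⟩
  have hG0 : 0 ≤ G := by
    rw [hG]
    exact abs_nonneg _
  rw [← hG] at h5 ⊢
  have h6 := mul_le_mul_of_nonneg_left h4 hG0
  have hs1 : 0 ≤ 1 / s := by positivity
  have h7 : ((2 : ℝ) ^ (k + 1) * C1 + C1 + G * (3 * (k + 1))) *
      (s ^ (k + 1) * (t ^ (k + 2) * ((1 / s + γ) + 2 * ρ + σ))) =
      2 ^ (k + 1) * (C1 * (P * ((1 / s + γ) + 2 * ρ + σ))) +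
      C1 * (P * ((1 / s + γ) + 2 * ρ + σ)) +
      G * (3 * (k + 1) * (P * ((1 / s + γ) + 2 * ρ + σ))) := by
    rw [hPe]
    ring
  rw [h7]
  have h8 : (2 : ℝ) ^ (k + 1) * (C1 * (P * ρ)) ≤
      2 ^ (k + 1) * (C1 * (P * ((1 / s + γ) + 2 * ρ + σ))) := by
    gcongr
    linarith
  have h9 : C1 * (P * (1 / s)) ≤ C1 * (P * ((1 / s + γ) + 2 * ρ + σ)) := by
    gcongr
    linarith
  have h10 : G * (3 * (k + 1) * (P * (γ + ρ + σ))) ≤
      G * (3 * (k + 1) * (P * ((1 / s + γ) + 2 * ρ + σ))) := by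
    refine mul_le_mul_of_nonneg_left ?_ hG0
    refine mul_le_mul_of_nonneg_left ?_ (by positivity)
    refine mul_le_mul_of_nonneg_left ?_ hP
    linarith
  linarith

theorem elem (k : ℕ) (η : ℝ) (hη : 0 < η) : ∃ δ : ℝ, 0 < δ ∧ ∀ q : ℕ, k + 1 ≤ 4 * q →
    ∃ B : ℝ, 0 < B ∧ ∀ ρ σ d : ℝ, 0 ≤ ρ → 0 ≤ σ → d ≤ δ →
    (3 + ρ) ^ (k + 1) * (d + 2 * ρ + σ) ≤ η + B * (ρ ^ (8 * q) + σ ^ 2) := by
  obtain ⟨c, hc⟩ : ∃ c : ℝ, c = 4 ^ (k + 1) := ⟨_, rfl⟩
  have hc0 : 0 < c := by rw [hc]; positivity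
  refine ⟨η / (4 * c), by positivity, ?_⟩
  intro q hq
  obtain ⟨δ, hδ⟩ : ∃ δ : ℝ, δ = η / (4 * c) := ⟨_, rfl⟩
  have hδ0 : 0 < δ := by rw [hδ]; positivity
  rw [← hδ]
  obtain ⟨τ, hτ⟩ : ∃ τ : ℝ, τ = η / (8 * c) := ⟨_, rfl⟩
  have hτ0 : 0 < τ := by rw [hτ]; positivity
  refine ⟨c ^ 2 / η + 2 * c / τ ^ (8 * q) + c * (δ + 3), by positivity, ?_⟩
  intro ρ σ d hρ hσ hd
  have h0 : (3 + ρ) ^ (k + 1) * (d + 2 * ρ + σ) ≤ (3 + ρ) ^ (k + 1) * (δ + 2 * ρ + σ) := by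
    gcongr
  refine h0.trans ?_
  have hρq : 0 ≤ ρ ^ (8 * q) := by positivity
  have hσ2 : 0 ≤ σ ^ 2 := by positivity
  have hB1 : 0 ≤ c ^ 2 / η := by positivity
  have hB2 : 0 ≤ 2 * c / τ ^ (8 * q) := by positivity
  have hB3 : 0 ≤ c * (δ + 3) := by positivity
  rcases le_or_gt ρ 1 with h1 | h1
  · have h2 : (3 + ρ) ^ (k + 1) * (δ + 2 * ρ + σ) ≤ c * (δ + 2 * ρ + σ) := by
      refine mul_le_mul_of_nonneg_right ?_ (by positivity)
      rw [hc]
      exact pow_le_pow_left₀ (by positivity) (by linarith) _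
    refine h2.trans ?_
    have h3 : c * δ = η / 4 := by
      rw [hδ]
      field_simp
    have h4 : c * σ ≤ η / 4 + c ^ 2 / η * σ ^ 2 := by
      have h5 : η / 4 + c ^ 2 / η * σ ^ 2 - c * σ = (η / 2 - c * σ) ^ 2 / η := by
        field_simp
        ring
      have h6 : 0 ≤ (η / 2 - c * σ) ^ 2 / η := by positivity
      linarith
    have h5 : c * (2 * ρ) ≤ η / 4 + 2 * c / τ ^ (8 * q) * ρ ^ (8 * q) := by
      rcases le_or_gt ρ τ with h6 | h6
      · have h7 : c * (2 * ρ) ≤ c * (2 * τ) := by gcongr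
        have h8 : c * (2 * τ) = η / 4 := by
          rw [hτ]
          field_simp
          norm_num
        have h9 := mul_nonneg hB2 hρq
        linarith
      · have h7 : τ ^ (8 * q) ≤ ρ ^ (8 * q) := pow_le_pow_left₀ hτ0.le h6.le _
        have h8 : 2 * c ≤ 2 * c / τ ^ (8 * q) * ρ ^ (8 * q) := by
          rw [div_mul_eq_mul_div, le_div_iff₀ (by positivity)]
          exact mul_le_mul_of_nonneg_left h7 (by positivity)
        have h9 : c * (2 * ρ) ≤ 2 * c := by nlinarith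
        linarith
    nlinarith [mul_nonneg hB1 hρq, mul_nonneg hB2 hσ2, mul_nonneg hB3 hρq, mul_nonneg hB3 hσ2]
  · have h2 : (3 + ρ) ^ (k + 1) ≤ c * ρ ^ (k + 1) := by
      rw [hc, ← mul_pow]
      exact pow_le_pow_left₀ (by positivity) (by linarith) _
    have h3 : (3 + ρ) ^ (k + 1) * (δ + 2 * ρ + σ) ≤ c * ρ ^ (k + 1) * (δ + 2 * ρ + σ) :=
      mul_le_mul_of_nonneg_right h2 (by positivity)
    refine h3.trans ?_
    have h4 : ρ ^ (k + 1) * (δ + 2 * ρ) ≤ (δ + 2) * ρ ^ (8 * q) := by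
      have h5 : δ + 2 * ρ ≤ (δ + 2) * ρ := by nlinarith
      calc ρ ^ (k + 1) * (δ + 2 * ρ) ≤ ρ ^ (k + 1) * ((δ + 2) * ρ) := by gcongr
        _ = (δ + 2) * ρ ^ (k + 2) := by ring
        _ ≤ (δ + 2) * ρ ^ (8 * q) := by
            gcongr
            · exact h1.le
            · omega
    have h5 : ρ ^ (k + 1) * σ ≤ ρ ^ (8 * q) + σ ^ 2 := by
      have h6 : ρ ^ (k + 1) * σ ≤ (ρ ^ (k + 1)) ^ 2 + σ ^ 2 := by
        nlinarith [sq_nonneg (ρ ^ (k + 1) - σ), sq_nonneg (ρ ^ (k + 1)), sq_nonneg σ]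
      have h7 : (ρ ^ (k + 1)) ^ 2 ≤ ρ ^ (8 * q) := by
        rw [← pow_mul]
        exact pow_le_pow_right₀ h1.le (by omega)
      linarith
    have h6 : c * ρ ^ (k + 1) * (δ + 2 * ρ + σ) =
        c * (ρ ^ (k + 1) * (δ + 2 * ρ)) + c * (ρ ^ (k + 1) * σ) := by ring
    rw [h6]
    have h7 := mul_le_mul_of_nonneg_left h4 hc0.le
    have h8 := mul_le_mul_of_nonneg_left h5 hc0.le
    nlinarith [mul_nonneg hB1 hρq, mul_nonneg hB1 hσ2, mul_nonneg hB2 hρq, mul_nonneg hB2 hσ2,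
      mul_nonneg hc0.le hσ2, mul_nonneg (mul_nonneg hc0.le hδ0.le) hσ2]

theorem fixed (k R K : ℕ) (hk : k + 1 ≤ R) (η : ℝ) (hη : 0 < η) :
    ∃ (Lam : ℝ) (q0 A1 : ℕ), ∀ q : ℕ, q0 ≤ q →
    ∃ L0 : ℝ, ∀ (X D x z A : ℕ) (S : Finset ℕ), A1 ≤ A → 1 ≤ X → 1 ≤ x → x ≤ X ^ 6 →
      L0 ≤ Real.log X → Lam * Real.log X ≤ D → (D : ℝ) ≤ Real.log X ^ K → Loc R q A X D x z S →
        |(∑ n ∈ Icc 1 x, (((np S n : ℝ) - ms S n) / √(mu X D x)) ^ (k + 1)) / x - gm (k + 1)| ≤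
          η := by
  obtain ⟨C, hC0, hC⟩ := point k
  obtain ⟨E0, hE0⟩ : ∃ E0 : ℝ, E0 = 3 ^ (k + 1) * C := ⟨_, rfl⟩
  have hE0p : 0 < E0 := by rw [hE0]; positivity
  obtain ⟨δ, hδ0, hδ⟩ := elem (k + 1) (η / (3 * E0)) (by positivity)
  refine ⟨(2 / δ) ^ 2 + 1, R + 1, K * R + 1, ?_⟩
  intro q hq
  obtain ⟨B, hB0, hB⟩ := hδ q (by omega)
  obtain ⟨γ, hγ⟩ : ∃ γ : ℝ, γ = min (δ / 2) 1 := ⟨_, rfl⟩
  have hγ0 : 0 < γ := by
    rw [hγ]
    exact lt_min (by linarith) one_pos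
  have hγ1 : γ ≤ 1 := by
    rw [hγ]
    exact min_le_right _ _
  have hγδ : γ ≤ δ / 2 := by
    rw [hγ]
    exact min_le_left _ _
  refine ⟨1 + 1 / γ ^ 4 + 3 * 9 ^ (k + 1) / η + 33 * (E0 * B) / η, ?_⟩
  intro X D x z A S hA hX hx hxX hL hDL hDK h
  obtain ⟨L, hLe⟩ : ∃ L, L = Real.log X := ⟨_, rfl⟩
  have hp1 : 0 < 1 / γ ^ 4 := by positivity
  have hp2 : 0 < 3 * 9 ^ (k + 1) / η := by positivity
  have hp3 : 0 < 33 * (E0 * B) / η := by positivity
  rw [← hLe] at hL hDL hDK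
  have hL1 : 1 ≤ L := by linarith
  have hL0 : 0 < L := by linarith
  have hLγ : 1 / γ ^ 4 ≤ L := by linarith
  have hL9 : 3 * 9 ^ (k + 1) / η ≤ L := by linarith
  have hLB : 33 * (E0 * B) / η ≤ L := by linarith
  have hD0 : (0 : ℝ) ≤ D := Nat.cast_nonneg D
  obtain ⟨κ, hκ⟩ : ∃ κ : ℝ, κ = D / L := ⟨_, rfl⟩
  have hκL : (2 / δ) ^ 2 + 1 ≤ κ := by
    rw [hκ, le_div_iff₀ hL0]
    exact hDL
  have hκ1 : 1 ≤ κ := by
    have := sq_nonneg (2 / δ)
    linarith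
  obtain ⟨s, hs⟩ : ∃ s : ℝ, s = √κ := ⟨_, rfl⟩
  have hs2 : s ^ 2 = κ := by
    rw [hs]
    exact Real.sq_sqrt (by linarith)
  have hs1 : 1 ≤ s := by
    rw [hs]
    exact Real.one_le_sqrt.2 hκ1
  have hs0 : 0 < s := by linarith
  have hsδ : 2 / δ ≤ s := by
    rw [hs]
    exact Real.le_sqrt_of_sq_le (by linarith)
  have hsδ' : 1 / s ≤ δ / 2 := by
    rw [div_le_iff₀ hδ0] at hsδ
    rw [div_le_iff₀ hs0]
    linarith
  obtain ⟨μ, hμ⟩ : ∃ μ : ℝ, μ = mu X D x := ⟨_, rfl⟩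
  have hX0 : (0 : ℝ) < X := by exact_mod_cast hX
  have hL'1 : L ≤ Real.log ((max X x : ℕ) : ℝ) := by
    rw [hLe]
    exact Real.log_le_log hX0 (by exact_mod_cast le_max_left X x)
  have hL'2 : Real.log ((max X x : ℕ) : ℝ) ≤ 6 * L := by
    have h1 : max X x ≤ X ^ 6 := max_le (Nat.le_self_pow (by norm_num) X) hxX
    have h2 : ((max X x : ℕ) : ℝ) ≤ (X : ℝ) ^ 6 := by exact_mod_cast h1
    have h3 : (0 : ℝ) < ((max X x : ℕ) : ℝ) := by
      exact_mod_cast lt_of_lt_of_le (by omega : 0 < X) (le_max_left X x)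
    have h4 := Real.log_le_log h3 h2
    rw [Real.log_pow, ← hLe] at h4
    exact_mod_cast h4
  have hL'0 : 0 < Real.log ((max X x : ℕ) : ℝ) := by linarith
  have hμ2 : μ ≤ s ^ 2 := by
    rw [hs2, hκ, hμ]
    unfold mu
    exact div_le_div_of_nonneg_left hD0 hL0 hL'1
  have hμ1 : s ^ 2 ≤ 9 * μ := by
    rw [hs2, hκ, hμ]
    unfold mu
    rw [div_le_iff₀ hL0]
    have h1 : 9 * ((D : ℝ) / Real.log ((max X x : ℕ) : ℝ)) * L =
        D * (9 * L) / Real.log ((max X x : ℕ) : ℝ) := by ring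
    rw [h1, le_div_iff₀ hL'0]
    exact mul_le_mul_of_nonneg_left (by linarith) hD0
  have hμ0 : 0 < μ := by
    have : 0 < s ^ 2 := by positivity
    linarith
  have hx0 : (0 : ℝ) < x := by exact_mod_cast hx
  have hrem := h.rem
  have hmean := h.mean
  have hmsq := h.msq
  have hgmax := h.gmax
  rw [← hLe, ← hκ] at hrem hmsq
  rw [← hLe] at hgmax
  simp only [← hLe, ← hκ] at hmean
  rw [← hμ] at hmsq
  have hnp := np_sub_EB (k + 1) R q A X D x z S hk hx (by rw [← hLe]; exact hL1) h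
  rw [← hLe] at hnp
  rw [← hμ]
  -- pointwise
  have hpt : ∀ n ∈ Icc 1 x, |EB S (fun a => G1 z (n + a)) (fun j => ((j : ℝ) - ms S n) ^ (k + 1)) -
      gm (k + 1) * √μ ^ (k + 1)| ≤ C * (s ^ (k + 1) * (η / (3 * E0) +
        B * (rm z S n ^ (8 * q) / κ ^ (4 * q) + (ms S n - μ) ^ 2 / κ ^ 2))) := by
    intro n hn
    have hg : ∀ a ∈ S, 0 ≤ G1 z (n + a) ∧ G1 z (n + a) ≤ γ := by
      intro a ha
      have h1 := G1_nonneg z (n + a)
      refine ⟨h1, ?_⟩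
      have h2 := hgmax n hn a ha
      have h3 : 1 ≤ γ ^ 4 * L ^ 3 := by
        have h4 : 1 ≤ γ ^ 4 * L := by
          rw [div_le_iff₀ (by positivity)] at hLγ
          linarith
        have h5 : L ≤ L ^ 3 := le_self_pow₀ hL1 (by norm_num)
        exact h4.trans (mul_le_mul_of_nonneg_left h5 (by positivity))
      have h4 : G1 z (n + a) ^ 4 ≤ γ ^ 4 := by
        calc G1 z (n + a) ^ 4 ≤ G1 z (n + a) ^ 4 * (γ ^ 4 * L ^ 3) :=
              le_mul_of_one_le_right (by positivity) h3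
          _ = γ ^ 4 * (G1 z (n + a) ^ 4 * L ^ 3) := by ring
          _ ≤ γ ^ 4 * 1 := mul_le_mul_of_nonneg_left h2 (by positivity)
          _ = γ ^ 4 := mul_one _
      exact (pow_le_pow_iff_left₀ h1 hγ0.le (by norm_num)).1 h4
    have h1 := hC S (fun a => G1 z (n + a)) (ms S n) μ s γ hg hγ1 hγ0.le hs1 (ms_nonneg S n)
      (by rw [hs2]; exact hmean n hn) hμ1 hμ2
    refine h1.trans ?_
    refine mul_le_mul_of_nonneg_left ?_ hC0.le
    refine mul_le_mul_of_nonneg_left ?_ (by positivity)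
    have h2 := hB (|∑ a ∈ S, G1 z (n + a) - ms S n| / s) (|ms S n - μ| / s ^ 2) (1 / s + γ)
      (by positivity) (by positivity) (by linarith)
    refine h2.trans (le_of_eq ?_)
    rw [← rm_eq, div_pow, div_pow]
    have h3 : |rm z S n| ^ (8 * q) = rm z S n ^ (8 * q) := by
      have : Even (8 * q) := ⟨4 * q, by ring⟩
      exact this.pow_abs _
    have h4 : s ^ (8 * q) = κ ^ (4 * q) := by
      rw [← hs2, ← pow_mul]
      congr 1
      ring
    rw [h3, h4, sq_abs, hs2]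
  have hq1 : 1 ≤ q := by omega
  have hLq : L ≤ L ^ q := le_self_pow₀ hL1 (by omega)
  have hsum1 : ∑ n ∈ Icc 1 x, rm z S n ^ (8 * q) / κ ^ (4 * q) ≤ x * (1 / L) := by
    rw [← Finset.sum_div, div_le_iff₀ (by positivity)]
    refine hrem.trans ?_
    have h1 : (x : ℝ) * (1 / L) * κ ^ (4 * q) = x * (κ ^ (4 * q) / L) := by ring
    rw [h1]
    refine mul_le_mul_of_nonneg_left ?_ hx0.le
    exact div_le_div_of_nonneg_left (by positivity) hL0 hLq
  have hsum2 : ∑ n ∈ Icc 1 x, (ms S n - μ) ^ 2 / κ ^ 2 ≤ x * (10 / L) := by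
    rw [← Finset.sum_div, div_le_iff₀ (by positivity)]
    refine hmsq.trans (le_of_eq ?_)
    ring
  have hsum3 : ∑ n ∈ Icc 1 x, |EB S (fun a => G1 z (n + a))
      (fun j => ((j : ℝ) - ms S n) ^ (k + 1)) - gm (k + 1) * √μ ^ (k + 1)| ≤
      C * (s ^ (k + 1) * (x * (η / (3 * E0)) + B * (x * (11 / L)))) := by
    refine (Finset.sum_le_sum hpt).trans ?_
    rw [← Finset.mul_sum, ← Finset.mul_sum, Finset.sum_add_distrib, ← Finset.mul_sum,
      Finset.sum_add_distrib, Finset.sum_const, Nat.card_Icc, nsmul_eq_mul, Nat.add_sub_cancel]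
    refine mul_le_mul_of_nonneg_left ?_ hC0.le
    refine mul_le_mul_of_nonneg_left ?_ (by positivity)
    refine add_le_add le_rfl ?_
    refine mul_le_mul_of_nonneg_left ?_ hB0.le
    have h1 : (x : ℝ) * (11 / L) = x * (1 / L) + x * (10 / L) := by ring
    rw [h1]
    exact add_le_add hsum1 hsum2
  obtain ⟨F, hF⟩ : ∃ F : ℝ, F = ∑ n ∈ Icc 1 x, ((np S n : ℝ) - ms S n) ^ (k + 1) := ⟨_, rfl⟩
  obtain ⟨Q, hQ⟩ : ∃ Q : ℝ, Q = √μ ^ (k + 1) := ⟨_, rfl⟩
  rw [← hQ] at hsum3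
  have hsQ : (s / 3) ^ (k + 1) ≤ Q := by
    rw [hQ]
    refine pow_le_pow_left₀ (by positivity) ?_ _
    refine Real.le_sqrt_of_sq_le ?_
    have e1 : (s / 3) ^ 2 = s ^ 2 / 9 := by ring
    rw [e1]
    linarith
  have hQ0 : 0 < Q := lt_of_lt_of_le (by positivity) hsQ
  have hmain : |F - x * (gm (k + 1) * Q)| ≤ (3 * D) ^ (k + 1) * (x / L ^ A) +
      C * (s ^ (k + 1) * (x * (η / (3 * E0)) + B * (x * (11 / L)))) := by
    have h1 : F - x * (gm (k + 1) * Q) =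
        ∑ n ∈ Icc 1 x, (((np S n : ℝ) - ms S n) ^ (k + 1) -
          EB S (fun a => G1 z (n + a)) (fun j => ((j : ℝ) - ms S n) ^ (k + 1))) +
        ∑ n ∈ Icc 1 x, (EB S (fun a => G1 z (n + a)) (fun j => ((j : ℝ) - ms S n) ^ (k + 1)) -
          gm (k + 1) * Q) := by
      rw [Finset.sum_sub_distrib, Finset.sum_sub_distrib, Finset.sum_const, Nat.card_Icc,
        nsmul_eq_mul, Nat.add_sub_cancel, hF]
      ring
    rw [h1]
    refine (abs_add_le _ _).trans (add_le_add hnp ?_)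
    exact (Finset.abs_sum_le_sum_abs _ _).trans hsum3
  have hfin : |F - x * (gm (k + 1) * Q)| ≤ η * (Q * x) := by
    refine hmain.trans ?_
    have h3k : (0 : ℝ) < 3 ^ (k + 1) := by positivity
    have hs3 : (s / 3) ^ (k + 1) = s ^ (k + 1) / 3 ^ (k + 1) := div_pow _ _ _
    have hsk : s ^ (k + 1) ≤ 3 ^ (k + 1) * Q := by
      rw [hs3, div_le_iff₀ h3k] at hsQ
      linarith
    have hs1k : 1 ≤ s ^ (k + 1) := one_le_pow₀ hs1
    have h1 : (3 * D) ^ (k + 1) * (x / L ^ A) ≤ η / 3 * (Q * x) := by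
      have h2 : (D : ℝ) ^ (k + 1) / L ^ A ≤ 1 / L := by
        rw [div_le_div_iff₀ (by positivity) hL0, one_mul]
        calc (D : ℝ) ^ (k + 1) * L ≤ (L ^ K) ^ (k + 1) * L := by gcongr
          _ = L ^ (K * (k + 1) + 1) := by rw [← pow_mul, pow_succ]
          _ ≤ L ^ A := pow_le_pow_right₀ hL1 (by
              have : K * (k + 1) ≤ K * R := Nat.mul_le_mul_left K hk
              omega)
      have h3 : 3 ^ (k + 1) * (1 / L) ≤ η / 3 * Q := by
        have h4 : (3 : ℝ) ^ (k + 1) * 3 ^ (k + 1) = 9 ^ (k + 1) := by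
          rw [← mul_pow]
          norm_num
        have h5 : (3 : ℝ) ^ (k + 1) * (3 ^ (k + 1) * (1 / L)) ≤ η / 3 := by
          rw [div_le_iff₀ hη] at hL9
          rw [← mul_assoc, h4, mul_one_div, div_le_iff₀ hL0]
          linarith
        have h6 : (1 : ℝ) ≤ 3 ^ (k + 1) * Q := hs1k.trans hsk
        have h7 : 0 ≤ 3 ^ (k + 1) * (1 / L) := by positivity
        calc 3 ^ (k + 1) * (1 / L) ≤ (3 ^ (k + 1) * (1 / L)) * (3 ^ (k + 1) * Q) :=
              le_mul_of_one_le_right h7 h6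
          _ = (3 ^ (k + 1) * (3 ^ (k + 1) * (1 / L))) * Q := by ring
          _ ≤ η / 3 * Q := mul_le_mul_of_nonneg_right h5 hQ0.le
      calc (3 * (D : ℝ)) ^ (k + 1) * (x / L ^ A) =
            3 ^ (k + 1) * ((D : ℝ) ^ (k + 1) / L ^ A) * x := by
              rw [mul_pow]
              ring
        _ ≤ 3 ^ (k + 1) * (1 / L) * x := by gcongr
        _ ≤ η / 3 * Q * x := by gcongr
        _ = η / 3 * (Q * x) := by ring
    have h2 : C * (s ^ (k + 1) * (x * (η / (3 * E0)))) ≤ η / 3 * (Q * x) := by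
      have h3 : C * (s ^ (k + 1) * (x * (η / (3 * E0)))) = η / 3 * ((s / 3) ^ (k + 1) * x) := by
        rw [hE0, hs3]
        field_simp
      rw [h3]
      gcongr
    have h4 : C * (s ^ (k + 1) * (B * (x * (11 / L)))) ≤ η / 3 * (Q * x) := by
      have h3 : C * (s ^ (k + 1) * (B * (x * (11 / L)))) =
          (11 * (E0 * B) / L) * ((s / 3) ^ (k + 1) * x) := by
        rw [hE0, hs3]
        field_simp
      rw [h3]
      have h5 : 11 * (E0 * B) / L ≤ η / 3 := by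
        rw [div_le_iff₀ hη] at hLB
        rw [div_le_iff₀ hL0]
        linarith
      gcongr
    have h5 : C * (s ^ (k + 1) * (x * (η / (3 * E0)) + B * (x * (11 / L)))) =
        C * (s ^ (k + 1) * (x * (η / (3 * E0)))) + C * (s ^ (k + 1) * (B * (x * (11 / L)))) := by
      ring
    rw [h5]
    linarith
  have h1 : (∑ n ∈ Icc 1 x, (((np S n : ℝ) - ms S n) / √μ) ^ (k + 1)) / x - gm (k + 1) =
      (F - x * (gm (k + 1) * Q)) / (Q * x) := by
    have h2 : ∑ n ∈ Icc 1 x, (((np S n : ℝ) - ms S n) / √μ) ^ (k + 1) = F / Q := by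
      rw [hF, hQ, Finset.sum_div]
      exact Finset.sum_congr rfl fun n _ => div_pow _ _ _
    rw [h2]
    field_simp
  rw [h1, abs_div, abs_of_pos (mul_pos hQ0 hx0), div_le_iff₀ (mul_pos hQ0 hx0)]
  exact hfin

end GaussAux

theorem loc_gauss (R K : ℕ) (η : ℝ) (hη : 0 < η) : ∃ (Lam : ℝ) (q0 A1 : ℕ), ∀ q : ℕ, q0 ≤ q →
    ∃ L0 : ℝ, ∀ (X D x z A : ℕ) (S : Finset ℕ), A1 ≤ A → 1 ≤ X → 1 ≤ x → x ≤ X ^ 6 → L0 ≤ Real.log X →
      Lam * Real.log X ≤ D → (D : ℝ) ≤ Real.log X ^ K → Loc R q A X D x z S → ∀ k : ℕ, k ≤ R →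
        |(∑ n ∈ Icc 1 x, (((np S n : ℝ) - ms S n) / √(mu X D x)) ^ k) / x - gm k| ≤ η := by
  have h1 : ∀ k : ℕ, ∃ (Lam : ℝ) (q0 A1 : ℕ), k < R → ∀ q : ℕ, q0 ≤ q →
      ∃ L0 : ℝ, ∀ (X D x z A : ℕ) (S : Finset ℕ), A1 ≤ A → 1 ≤ X → 1 ≤ x → x ≤ X ^ 6 →
      L0 ≤ Real.log X → Lam * Real.log X ≤ D → (D : ℝ) ≤ Real.log X ^ K → Loc R q A X D x z S →
        |(∑ n ∈ Icc 1 x, (((np S n : ℝ) - ms S n) / √(mu X D x)) ^ (k + 1)) / x - gm (k + 1)| ≤
          η := by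
    intro k
    by_cases hk : k < R
    · obtain ⟨Lam, q0, A1, h⟩ := GaussAux.fixed k R K hk η hη
      exact ⟨Lam, q0, A1, fun _ => h⟩
    · exact ⟨0, 0, 0, fun h => absurd h hk⟩
  choose Lam q0 A1 h using h1
  refine ⟨∑ k ∈ range R, |Lam k|, ∑ k ∈ range R, q0 k, ∑ k ∈ range R, A1 k, ?_⟩
  intro q hq
  have h2 : ∀ k : ℕ, ∃ L0 : ℝ, k < R → ∀ (X D x z A : ℕ) (S : Finset ℕ), A1 k ≤ A → 1 ≤ X →
      1 ≤ x → x ≤ X ^ 6 →
      L0 ≤ Real.log X → Lam k * Real.log X ≤ D → (D : ℝ) ≤ Real.log X ^ K → Loc R q A X D x z S →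
        |(∑ n ∈ Icc 1 x, (((np S n : ℝ) - ms S n) / √(mu X D x)) ^ (k + 1)) / x - gm (k + 1)| ≤
          η := by
    intro k
    by_cases hk : k < R
    · obtain ⟨L0, h3⟩ := h k hk q ((Finset.single_le_sum (f := q0) (fun i _ => Nat.zero_le _)
        (Finset.mem_range.2 hk)).trans hq)
      exact ⟨L0, fun _ => h3⟩
    · exact ⟨0, fun h => absurd h hk⟩
  choose L0 h3 using h2
  refine ⟨∑ k ∈ range R, |L0 k|, ?_⟩
  intro X D x z A S hA hX hx hxX hL hDL hDK hLoc k hk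
  rcases Nat.eq_zero_or_pos k with h0 | h0
  · subst h0
    have hx0 : (x : ℝ) ≠ 0 := by
      have : (0 : ℝ) < x := by exact_mod_cast hx
      exact this.ne'
    simp only [pow_zero, Finset.sum_const, Nat.card_Icc, Nat.add_sub_cancel, nsmul_eq_mul, mul_one,
      gm]
    rw [div_self hx0, sub_self, abs_zero]
    exact hη.le
  · obtain ⟨k', rfl⟩ : ∃ k', k = k' + 1 := ⟨k - 1, by omega⟩
    have hk' : k' < R := by omega
    have hlog : 0 ≤ Real.log X := Real.log_natCast_nonneg X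
    refine h3 k' hk' X D x z A S ?_ hX hx hxX ?_ ?_ hDK hLoc
    · exact (Finset.single_le_sum (f := A1) (fun i _ => Nat.zero_le _)
        (Finset.mem_range.2 hk')).trans hA
    · exact (le_abs_self _).trans ((Finset.single_le_sum (f := fun i => |L0 i|)
        (fun i _ => abs_nonneg _) (Finset.mem_range.2 hk')).trans hL)
    · refine le_trans ?_ hDL
      refine mul_le_mul_of_nonneg_right ?_ hlog
      exact (le_abs_self _).trans (Finset.single_le_sum (f := fun i => |Lam i|)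
        (fun i _ => abs_nonneg _) (Finset.mem_range.2 hk'))

end Pool.Agent.SHP
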