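import Pool.Agent.Lib.SHP.Bonf

/-!
# Module Pois: Poisson distribution

`L = log X`, `E f = (1/x) ∑_{n ≤ x} f n`, `κ = D / L ≤ lam`, `μ = mu X D x = D / log (max X x) ∈ [0, lam]`. `J, δ` from `pois_of_moments R lam η`. `choose (np S n) j = ∑_{T ∈ powersetCard j S} ∏_T G0 (n + s)`
(`Finset.prod_ite_zero`/`card_powersetCard` of the filter). By `corr`, `|E choose (np S n) j - E e_j| ≤ D^j / L^A`, `e_j(n) = ∑_{T ∈ powersetCard j S} ∏_T G1 z (n + s)`; `D^j ≤ (lam L)^J`, so this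
is small if `A ≥ J + 1` (take `R' = J`, `A = J + 1`). `esym_bound j` with `γ = L^(-3/4)`, i.e. `γ^4 L^3 = 1` (`gmax`): `|e_j(n) - m(n)^j / j!| ≤ C γ (1 + m(n))^(j+1)`, `m(n) = ∑_S G1 z (n + s) = ms S n + rm z S n`
(`rm_eq`). `0 ≤ m ≤ 2 lam + |rm|`. `|m^j - μ^j| ≤ j |m - μ| (m + μ)^(j-1) ≤ j (|ms - μ| + |rm|) (3 lam + |rm|)^(j-1)`; all in all everything is bounded by
`C (γ + |ms - μ| + |rm|) (1 + |rm|)^(j+1)`, `C = C(J, lam)`. For `τ ∈ (0, 1]`: `(γ + |ms - μ|) (1 + |rm|)^(j+1) ≤ τ + (γ + |ms - μ|)² / τ · ... ` (use `a b ≤ τ b² + a² / (4 τ)`), and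
`|rm|^i ≤ τ^i + |rm|^(8q) / τ^(8q)` for `1 ≤ i ≤ 8 q` (cases `|rm| ≤ τ` or not), with `2 (J + 2) ≤ 8 q`. By `rem`: `E |rm|^(8q) ≤ lam^(4q) / L^q`; by `msq`: `E (ms - μ)² ≤ 10 lam² / L`.
Choose `τ` small (depending on `δ, C`), then `L0` large. `q = J + 3` is enough, any larger `q` is fine too: the statement has to hold for all `q ≥ q0`.
-/

set_option autoImplicit false

open Finset Filter

namespace Pool.Agent.SHP

namespace PoisAux

open Pool.Agent.HLU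

lemma choose_eq (S : Finset ℕ) (n j : ℕ) :
    (((np S n).choose j : ℕ) : ℝ) = ∑ T ∈ S.powersetCard j, ∏ s ∈ T, G0 (n + s) := by
  unfold np G0
  rw [← Finset.card_powersetCard]
  have h1 : ∀ T ∈ S.powersetCard j, (∏ s ∈ T, (if (n + s).Prime then (1 : ℝ) else 0)) =
      if (∀ s ∈ T, (n + s).Prime) then (1 : ℝ) else 0 := by
    intro T _
    rw [Finset.prod_ite_zero]
    simp
  rw [Finset.sum_congr rfl h1, Finset.sum_boole]
  congr 2
  ext T
  simp only [Finset.mem_powersetCard, Finset.mem_filter]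
  constructor
  · rintro ⟨h2, h3⟩
    refine ⟨⟨fun s hs => (Finset.mem_filter.1 (h2 hs)).1, h3⟩, fun s hs => (Finset.mem_filter.1 (h2 hs)).2⟩
  · rintro ⟨⟨h2, h3⟩, h4⟩
    exact ⟨fun s hs => Finset.mem_filter.2 ⟨h2 hs, h4 s hs⟩, h3⟩

lemma pw (J j : ℕ) (hj : j ≤ J) (lam C γ a r μ e : ℝ) (hlam : 0 < lam) (hC : 0 ≤ C) (hγ : 0 ≤ γ)
    (ha0 : 0 ≤ a) (ha : a ≤ 2 * lam) (hμ0 : 0 ≤ μ) (hμ : μ ≤ lam) (hm : 0 ≤ a + r)
    (he : |e - (a + r) ^ j / (j.factorial : ℝ)| ≤ C * γ * (1 + (a + r)) ^ (j + 1)) :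
    |e - μ ^ j / (j.factorial : ℝ)| ≤ ((C + 1) * (1 + 2 * lam) ^ (J + 1)) *
      ((γ + |a - μ| + |r|) * (1 + |r|) ^ (J + 1)) := by
  set M : ℝ := (1 + 2 * lam) * (1 + |r|) with hM
  have hr := abs_nonneg r
  have hra := le_abs_self r
  have hM1 : 1 + (a + r) ≤ M := by
    rw [hM]; nlinarith
  have hM2 : 1 ≤ M := by linarith
  have hM3 : μ ≤ M := by
    rw [hM]; nlinarith
  have hpos : 0 ≤ 1 + (a + r) := by linarith
  have h1 : C * γ * (1 + (a + r)) ^ (j + 1) ≤ C * γ * M ^ (J + 1) := by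
    apply mul_le_mul_of_nonneg_left _ (mul_nonneg hC hγ)
    calc (1 + (a + r)) ^ (j + 1) ≤ M ^ (j + 1) := pow_le_pow_left₀ hpos hM1 _
      _ ≤ M ^ (J + 1) := pow_le_pow_right₀ hM2 (by omega)
  have h2 : |(a + r) ^ j / (j.factorial : ℝ) - μ ^ j / (j.factorial : ℝ)| ≤ (|a - μ| + |r|) * M ^ (J + 1) := by
    rw [← sub_div, abs_div]
    have hf : (0 : ℝ) < (j.factorial : ℝ) := by exact_mod_cast Nat.factorial_pos j
    rw [abs_of_pos hf, div_le_iff₀ hf]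
    have h3 := abs_pow_sub_pow_le (a + r) μ j
    have h4 : max |a + r| |μ| ≤ M := by
      rw [abs_of_nonneg hm, abs_of_nonneg hμ0]
      exact max_le (by linarith) hM3
    have h5 : |a + r - μ| ≤ |a - μ| + |r| := by
      have : a + r - μ = (a - μ) + r := by ring
      rw [this]; exact abs_add_le _ _
    have h6 : (max |a + r| |μ|) ^ (j - 1) ≤ M ^ (J + 1) := by
      calc (max |a + r| |μ|) ^ (j - 1) ≤ M ^ (j - 1) := pow_le_pow_left₀ (le_max_of_le_left (abs_nonneg _)) h4 _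
        _ ≤ M ^ (J + 1) := pow_le_pow_right₀ hM2 (by omega)
    have h7 : (j : ℝ) ≤ (j.factorial : ℝ) := by exact_mod_cast Nat.self_le_factorial j
    have h8 : (0 : ℝ) ≤ (max |a + r| |μ|) ^ (j - 1) := pow_nonneg (le_max_of_le_left (abs_nonneg _)) _
    have h9 : 0 ≤ |a - μ| + |r| := by positivity
    have h10 : (0 : ℝ) ≤ (j : ℝ) := Nat.cast_nonneg j
    calc |(a + r) ^ j - μ ^ j| ≤ |a + r - μ| * j * (max |a + r| |μ|) ^ (j - 1) := h3
      _ ≤ ((|a - μ| + |r|) * (j.factorial : ℝ)) * M ^ (J + 1) := by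
          apply mul_le_mul _ h6 h8 (by positivity)
          exact mul_le_mul h5 h7 h10 h9
      _ = (|a - μ| + |r|) * M ^ (J + 1) * (j.factorial : ℝ) := by ring
  have h3 : |e - μ ^ j / (j.factorial : ℝ)| ≤ C * γ * M ^ (J + 1) + (|a - μ| + |r|) * M ^ (J + 1) := by
    have : e - μ ^ j / (j.factorial : ℝ) = (e - (a + r) ^ j / (j.factorial : ℝ)) +
        ((a + r) ^ j / (j.factorial : ℝ) - μ ^ j / (j.factorial : ℝ)) := by ring
    rw [this]
    exact (abs_add_le _ _).trans (add_le_add (he.trans h1) h2)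
  refine h3.trans ?_
  have hMp : (0 : ℝ) ≤ M ^ (J + 1) := by positivity
  have h4 : C * γ + (|a - μ| + |r|) ≤ (C + 1) * (γ + |a - μ| + |r|) := by
    have := abs_nonneg (a - μ)
    nlinarith [mul_nonneg hC this, mul_nonneg hC hr]
  calc C * γ * M ^ (J + 1) + (|a - μ| + |r|) * M ^ (J + 1) = (C * γ + (|a - μ| + |r|)) * M ^ (J + 1) := by ring
    _ ≤ ((C + 1) * (γ + |a - μ| + |r|)) * M ^ (J + 1) := mul_le_mul_of_nonneg_right h4 hMp
    _ = _ := by rw [hM, mul_pow]; ring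

lemma fbound (J q : ℕ) (hq : J + 3 ≤ q) (lam γ u r τ : ℝ) (hlam : 0 < lam) (hγ : 0 ≤ γ) (hγ1 : γ ≤ 1)
    (hu0 : 0 ≤ u) (hu : u ≤ 2 * lam) (hτ : 0 < τ) (hτ1 : τ ≤ 1) :
    (γ + u + |r|) * (1 + |r|) ^ (J + 1) ≤
      2 ^ (J + 1) * (γ + 2 * τ + u ^ 2 / τ) + (2 + 2 * lam) * 2 ^ (J + 1) * (r ^ (8 * q) / τ ^ (8 * q)) := by
  have hr := abs_nonneg r
  have hev : r ^ (8 * q) = |r| ^ (8 * q) := by
    rw [pow_mul, pow_mul |r|, show (8 : ℕ) = 2 * 4 by norm_num, pow_mul r, pow_mul |r|, sq_abs]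
  have hu2 : u ≤ τ + u ^ 2 / τ := by
    rcases le_total u τ with h | h
    · have : 0 ≤ u ^ 2 / τ := by positivity
      linarith
    · have : u ≤ u ^ 2 / τ := by
        rw [le_div_iff₀ hτ]; nlinarith
      linarith
  have hnn : 0 ≤ (2 + 2 * lam) * 2 ^ (J + 1) * (r ^ (8 * q) / τ ^ (8 * q)) := by
    rw [hev]; positivity
  rcases le_total |r| τ with h | h
  · have h1 : (1 + |r|) ^ (J + 1) ≤ 2 ^ (J + 1) := pow_le_pow_left₀ (by linarith) (by linarith) _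
    have h2 : γ + u + |r| ≤ γ + 2 * τ + u ^ 2 / τ := by linarith
    have h3 : (γ + u + |r|) * (1 + |r|) ^ (J + 1) ≤ (γ + 2 * τ + u ^ 2 / τ) * 2 ^ (J + 1) := by
      apply mul_le_mul h2 h1 (by positivity)
      positivity
    linarith
  · set ρ : ℝ := |r| / τ with hρ
    have hρ1 : 1 ≤ ρ := by rw [hρ, le_div_iff₀ hτ]; linarith
    have hrρ : |r| = ρ * τ := by rw [hρ]; field_simp
    have h1 : 1 + |r| ≤ 2 * ρ := by
      rw [hrρ]; nlinarith
    have h2 : γ + u + |r| ≤ (2 + 2 * lam) * ρ := by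
      rw [hrρ]; nlinarith
    have h3 : (γ + u + |r|) * (1 + |r|) ^ (J + 1) ≤ ((2 + 2 * lam) * ρ) * (2 * ρ) ^ (J + 1) := by
      apply mul_le_mul h2 (pow_le_pow_left₀ (by linarith) h1 _) (by positivity) (by positivity)
    have h4 : ((2 + 2 * lam) * ρ) * (2 * ρ) ^ (J + 1) = (2 + 2 * lam) * 2 ^ (J + 1) * ρ ^ (J + 2) := by
      rw [mul_pow]; ring
    have h5 : ρ ^ (J + 2) ≤ ρ ^ (8 * q) := pow_le_pow_right₀ hρ1 (by omega)
    have h6 : ρ ^ (8 * q) = r ^ (8 * q) / τ ^ (8 * q) := by rw [hρ, div_pow, hev]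
    have h7 : (2 + 2 * lam) * 2 ^ (J + 1) * ρ ^ (J + 2) ≤ (2 + 2 * lam) * 2 ^ (J + 1) * (r ^ (8 * q) / τ ^ (8 * q)) := by
      rw [← h6]
      exact mul_le_mul_of_nonneg_left h5 (by positivity)
    have h8 : 0 ≤ 2 ^ (J + 1) * (γ + 2 * τ + u ^ 2 / τ) := by positivity
    linarith

end PoisAux

open PoisAux Pool.Agent.HLU

theorem loc_poisson (R : ℕ) (lam η : ℝ) (hlam : 0 < lam) (hη : 0 < η) : ∃ R' q0 A1 : ℕ, ∀ q : ℕ, q0 ≤ q →
    ∃ L0 : ℝ, ∀ (X D x z A : ℕ) (S : Finset ℕ), A1 ≤ A → 1 ≤ X → 1 ≤ x → L0 ≤ Real.log X → (D : ℝ) ≤ lam * Real.log X →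
      Loc R' q A X D x z S → ∀ k : ℕ, k ≤ R →
        |(((Icc 1 x).filter (fun n => np S n = k)).card : ℝ) / x -
          Real.exp (-mu X D x) * mu X D x ^ k / (k.factorial : ℝ)| ≤ η := by
  obtain ⟨J, δ, hδ, hpois⟩ := pois_of_moments R lam η hlam hη
  choose Cf hCf hes using esym_bound
  refine ⟨J, J + 3, J + 1, fun q hq => ?_⟩
  set C : ℝ := ∑ j ∈ Finset.range (J + 1), Cf j with hC
  have hCj : ∀ j, j ≤ J → Cf j ≤ C := by
    intro j hj
    exact Finset.single_le_sum (f := Cf) (fun i _ => (hCf i).le) (Finset.mem_range.2 (by omega))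
  have hC0 : 0 < C := lt_of_lt_of_le (hCf 0) (hCj 0 (Nat.zero_le _))
  set K : ℝ := (C + 1) * (1 + 2 * lam) ^ (J + 1) with hK
  have hK0 : 0 < K := by positivity
  set B : ℝ := 2 ^ (J + 1) with hB
  have hB0 : 0 < B := by positivity
  set τ : ℝ := min 1 (δ / (4 * K * B)) with hτ
  have hτ0 : 0 < τ := by
    rw [hτ]; exact lt_min one_pos (by positivity)
  have hτ1 : τ ≤ 1 := min_le_left _ _
  have hτ2 : K * B * (2 * τ) ≤ δ / 2 := by
    have h1 : τ ≤ δ / (4 * K * B) := min_le_right _ _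
    have h2 : τ * (4 * K * B) ≤ δ := by rwa [le_div_iff₀ (by positivity)] at h1
    linarith
  set Λ : ℝ := max 1 lam with hΛ
  have hΛ1 : 1 ≤ Λ := le_max_left _ _
  have hΛ2 : lam ≤ Λ := le_max_right _ _
  set Cs : ℝ := Λ ^ J + K * B * (1 + 10 * lam ^ 2 / τ) + K * ((2 + 2 * lam) * B * (lam ^ (4 * q) / τ ^ (8 * q))) with hCs
  have hCs0 : 0 < Cs := by positivity
  refine ⟨max 1 ((2 * Cs / δ) ^ 2), ?_⟩
  intro X D x z A S hA hX hx hL0 hD hloc k hk
  set L : ℝ := Real.log X with hL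
  have hL1 : 1 ≤ L := (le_max_left _ _).trans hL0
  have hL2 : (2 * Cs / δ) ^ 2 ≤ L := (le_max_right _ _).trans hL0
  have hLpos : 0 < L := by linarith
  have hx0 : (0 : ℝ) < x := by exact_mod_cast hx
  -- the square root of L
  set w : ℝ := 1 / Real.sqrt L with hw
  have hsq1 : 1 ≤ Real.sqrt L := by rw [Real.one_le_sqrt]; exact hL1
  have hsq0 : 0 < Real.sqrt L := by linarith
  have hw0 : 0 < w := by positivity
  have hw1 : w ≤ 1 := by rw [hw, div_le_one hsq0]; exact hsq1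
  have hww : w * w = 1 / L := by
    rw [hw, div_mul_div_comm, Real.mul_self_sqrt hLpos.le]; norm_num
  have hwL : 1 / L ≤ w := by rw [← hww]; nlinarith
  have hCw : Cs * w ≤ δ / 2 := by
    have h1 : 2 * Cs / δ ≤ Real.sqrt L := Real.le_sqrt_of_sq_le hL2
    rw [hw, mul_one_div, div_le_iff₀ hsq0]
    rw [div_le_iff₀ hδ] at h1
    linarith
  -- gamma
  set γ : ℝ := Real.sqrt (Real.sqrt (1 / L ^ 3)) with hγ
  have hγ0 : 0 ≤ γ := Real.sqrt_nonneg _
  have hγ4 : γ ^ 4 = 1 / L ^ 3 := by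
    rw [hγ, show (4 : ℕ) = 2 * 2 by norm_num, pow_mul, Real.sq_sqrt (Real.sqrt_nonneg _), Real.sq_sqrt (by positivity)]
  have hγw : γ ≤ w := by
    apply le_of_pow_le_pow_left₀ (n := 4) (by norm_num) hw0.le
    rw [hγ4, show w ^ 4 = (w * w) * (w * w) by ring, hww, div_mul_div_comm, one_mul]
    apply one_div_le_one_div_of_le (by positivity)
    nlinarith [mul_pos hLpos hLpos]
  have hγ1 : γ ≤ 1 := hγw.trans hw1
  -- kappa, mu
  set κ : ℝ := (D : ℝ) / L with hκ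
  have hκ0 : 0 ≤ κ := by positivity
  have hκ1 : κ ≤ lam := by rw [hκ, div_le_iff₀ hLpos]; exact hD
  set μ : ℝ := mu X D x with hμ
  have hlogm : L ≤ Real.log ((max X x : ℕ) : ℝ) := by
    rw [hL]
    apply Real.log_le_log
    · exact_mod_cast hX
    · exact_mod_cast le_max_left X x
  have hμ0 : 0 ≤ μ := by
    rw [hμ]; unfold mu
    apply div_nonneg (Nat.cast_nonneg _) (by linarith)
  have hμ1 : μ ≤ lam := by
    refine le_trans ?_ hκ1
    rw [hμ, hκ]; unfold mu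
    exact div_le_div_of_nonneg_left (Nat.cast_nonneg _) hLpos hlogm
  refine hpois x (np S) μ hx hμ0 hμ1 ?_ k hk
  intro j hj
  -- elementary symmetric functions
  set e : ℕ → ℝ := fun n => ∑ T ∈ S.powersetCard j, ∏ s ∈ T, G1 z (n + s) with he
  have hstep1 : |∑ n ∈ Icc 1 x, (((np S n).choose j : ℕ) : ℝ) - ∑ n ∈ Icc 1 x, e n| ≤ x * (Λ ^ J * w) := by
    have h1 : ∑ n ∈ Icc 1 x, (((np S n).choose j : ℕ) : ℝ) - ∑ n ∈ Icc 1 x, e n =
        ∑ T ∈ S.powersetCard j, ∑ n ∈ Icc 1 x, (∏ s ∈ T, G0 (n + s) - ∏ s ∈ T, G1 z (n + s)) := by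
      rw [← Finset.sum_sub_distrib]
      conv_rhs => rw [Finset.sum_comm]
      apply Finset.sum_congr rfl
      intro n _
      rw [choose_eq, he, ← Finset.sum_sub_distrib]
    rw [h1]
    refine (Finset.abs_sum_le_sum_abs _ _).trans ?_
    have h2 : ∀ T ∈ S.powersetCard j, |∑ n ∈ Icc 1 x, (∏ s ∈ T, G0 (n + s) - ∏ s ∈ T, G1 z (n + s))| ≤ x / L ^ A := by
      intro T hT
      rw [Finset.mem_powersetCard] at hT
      exact hloc.corr T hT.1 (by omega) x le_rfl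
    refine (Finset.sum_le_sum h2).trans ?_
    rw [Finset.sum_const, Finset.card_powersetCard, hloc.card, nsmul_eq_mul]
    have h3 : ((D.choose j : ℕ) : ℝ) ≤ (D : ℝ) ^ j := by
      exact_mod_cast Nat.choose_le_pow D j
    have h4 : (D : ℝ) ^ j ≤ (Λ * L) ^ j := by
      apply pow_le_pow_left₀ (Nat.cast_nonneg _)
      refine hD.trans ?_
      exact mul_le_mul_of_nonneg_right hΛ2 hLpos.le
    have h5 : (Λ * L) ^ j ≤ (Λ * L) ^ J := by
      apply pow_le_pow_right₀ _ hj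
      nlinarith
    have h6 : L ^ (J + 1) ≤ L ^ A := pow_le_pow_right₀ hL1 hA
    have h7 : (x : ℝ) / L ^ A ≤ x / L ^ (J + 1) := div_le_div_of_nonneg_left hx0.le (by positivity) h6
    calc ((D.choose j : ℕ) : ℝ) * (x / L ^ A) ≤ (Λ * L) ^ J * (x / L ^ (J + 1)) := by
          apply mul_le_mul (h3.trans (h4.trans h5)) h7 (by positivity) (by positivity)
      _ = x * (Λ ^ J * (1 / L)) := by
          rw [mul_pow, pow_succ]; field_simp
      _ ≤ x * (Λ ^ J * w) := by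
          apply mul_le_mul_of_nonneg_left _ hx0.le
          exact mul_le_mul_of_nonneg_left hwL (by positivity)
  -- pointwise
  have hlog0 : ∀ n s : ℕ, 0 ≤ 1 / Real.log ((n + s : ℕ) : ℝ) := by
    intro n s
    apply div_nonneg zero_le_one
    exact Real.log_natCast_nonneg _
  have hms0 : ∀ n, 0 ≤ ms S n := fun n => Finset.sum_nonneg (fun s _ => hlog0 n s)
  have hms1 : ∀ n ∈ Icc 1 x, ms S n ≤ 2 * lam := by
    intro n hn
    refine (hloc.mean n hn).trans ?_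
    linarith
  have hpt : ∀ n ∈ Icc 1 x, |e n - μ ^ j / (j.factorial : ℝ)| ≤
      K * (B * (γ + 2 * τ + (ms S n - μ) ^ 2 / τ) + (2 + 2 * lam) * B * (rm z S n ^ (8 * q) / τ ^ (8 * q))) := by
    intro n hn
    have hsum : ∑ s ∈ S, G1 z (n + s) = ms S n + rm z S n := by rw [rm_eq]; ring
    have hg : ∀ s ∈ S, 0 ≤ G1 z (n + s) ∧ G1 z (n + s) ≤ γ := by
      intro s hs
      refine ⟨G1_nonneg z _, ?_⟩
      apply le_of_pow_le_pow_left₀ (n := 4) (by norm_num) hγ0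
      rw [hγ4, le_div_iff₀ (by positivity)]
      exact hloc.gmax n hn s hs
    have h1 := hes j S (fun s => G1 z (n + s)) γ hγ0 hγ1 hg
    rw [hsum] at h1
    have hm : 0 ≤ ms S n + rm z S n := by
      rw [← hsum]; exact Finset.sum_nonneg (fun s _ => G1_nonneg z _)
    have h2 : |e n - (ms S n + rm z S n) ^ j / (j.factorial : ℝ)| ≤ C * γ * (1 + (ms S n + rm z S n)) ^ (j + 1) := by
      refine h1.trans ?_
      apply mul_le_mul_of_nonneg_right _ (by positivity)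
      exact mul_le_mul_of_nonneg_right (hCj j hj) hγ0
    have h3 := pw J j hj lam C γ (ms S n) (rm z S n) μ (e n) hlam hC0.le hγ0 (hms0 n) (hms1 n hn) hμ0 hμ1 hm h2
    refine h3.trans ?_
    apply mul_le_mul_of_nonneg_left _ hK0.le
    have hu : |ms S n - μ| ≤ 2 * lam := by
      rw [abs_le]
      have := hms0 n
      have := hms1 n hn
      constructor <;> linarith
    have h4 := fbound J q hq lam γ |ms S n - μ| (rm z S n) τ hlam hγ0 hγ1 (abs_nonneg _) hu hτ0 hτ1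
    rw [sq_abs] at h4
    exact h4
  have hstep2 : |∑ n ∈ Icc 1 x, e n - x * (μ ^ j / (j.factorial : ℝ))| ≤
      x * (K * (B * (γ + 2 * τ + 10 * lam ^ 2 / τ * (1 / L)) + (2 + 2 * lam) * B * (lam ^ (4 * q) / τ ^ (8 * q) * (1 / L)))) := by
    have h1 : ∑ n ∈ Icc 1 x, e n - x * (μ ^ j / (j.factorial : ℝ)) = ∑ n ∈ Icc 1 x, (e n - μ ^ j / (j.factorial : ℝ)) := by
      rw [Finset.sum_sub_distrib, Finset.sum_const, Nat.card_Icc, nsmul_eq_mul]
      simp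
    rw [h1]
    refine (Finset.abs_sum_le_sum_abs _ _).trans ?_
    refine (Finset.sum_le_sum hpt).trans ?_
    rw [← Finset.mul_sum]
    rw [show (x : ℝ) * (K * (B * (γ + 2 * τ + 10 * lam ^ 2 / τ * (1 / L)) + (2 + 2 * lam) * B * (lam ^ (4 * q) / τ ^ (8 * q) * (1 / L)))) =
      K * (x * (B * (γ + 2 * τ + 10 * lam ^ 2 / τ * (1 / L)) + (2 + 2 * lam) * B * (lam ^ (4 * q) / τ ^ (8 * q) * (1 / L)))) by ring]
    apply mul_le_mul_of_nonneg_left _ hK0.le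
    have h2 : ∑ n ∈ Icc 1 x, (B * (γ + 2 * τ + (ms S n - μ) ^ 2 / τ) + (2 + 2 * lam) * B * (rm z S n ^ (8 * q) / τ ^ (8 * q))) =
        B * (x * (γ + 2 * τ) + (∑ n ∈ Icc 1 x, (ms S n - μ) ^ 2) / τ) +
          (2 + 2 * lam) * B * ((∑ n ∈ Icc 1 x, rm z S n ^ (8 * q)) / τ ^ (8 * q)) := by
      rw [Finset.sum_add_distrib, ← Finset.mul_sum, ← Finset.mul_sum, Finset.sum_add_distrib, Finset.sum_const,
        Nat.card_Icc, nsmul_eq_mul, Finset.sum_div, Finset.sum_div]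
      simp
    rw [h2]
    have h3 : ∑ n ∈ Icc 1 x, (ms S n - μ) ^ 2 ≤ x * (10 * lam ^ 2 * (1 / L)) := by
      refine hloc.msq.trans ?_
      apply mul_le_mul_of_nonneg_left _ hx0.le
      have h4 : κ ^ 2 ≤ lam ^ 2 := pow_le_pow_left₀ hκ0 hκ1 2
      calc κ ^ 2 * (10 / L) ≤ lam ^ 2 * (10 / L) := mul_le_mul_of_nonneg_right h4 (by positivity)
        _ = 10 * lam ^ 2 * (1 / L) := by ring
    have h4 : ∑ n ∈ Icc 1 x, rm z S n ^ (8 * q) ≤ x * (lam ^ (4 * q) * (1 / L)) := by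
      refine hloc.rem.trans ?_
      apply mul_le_mul_of_nonneg_left _ hx0.le
      have h5 : κ ^ (4 * q) ≤ lam ^ (4 * q) := pow_le_pow_left₀ hκ0 hκ1 _
      have h6 : L ≤ L ^ q := le_self_pow₀ hL1 (by omega)
      calc κ ^ (4 * q) / L ^ q ≤ lam ^ (4 * q) / L := by
            apply div_le_div₀ (by positivity) h5 hLpos h6
        _ = lam ^ (4 * q) * (1 / L) := by ring
    have h5 : (∑ n ∈ Icc 1 x, (ms S n - μ) ^ 2) / τ ≤ x * (10 * lam ^ 2 * (1 / L)) / τ :=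
      div_le_div_of_nonneg_right h3 hτ0.le
    have h6 : (∑ n ∈ Icc 1 x, rm z S n ^ (8 * q)) / τ ^ (8 * q) ≤ x * (lam ^ (4 * q) * (1 / L)) / τ ^ (8 * q) :=
      div_le_div_of_nonneg_right h4 (by positivity)
    calc B * (x * (γ + 2 * τ) + (∑ n ∈ Icc 1 x, (ms S n - μ) ^ 2) / τ) +
          (2 + 2 * lam) * B * ((∑ n ∈ Icc 1 x, rm z S n ^ (8 * q)) / τ ^ (8 * q))
        ≤ B * (x * (γ + 2 * τ) + x * (10 * lam ^ 2 * (1 / L)) / τ) +
          (2 + 2 * lam) * B * (x * (lam ^ (4 * q) * (1 / L)) / τ ^ (8 * q)) := by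
          apply add_le_add
          · exact mul_le_mul_of_nonneg_left (by linarith) hB0.le
          · exact mul_le_mul_of_nonneg_left h6 (by positivity)
      _ = _ := by ring
  -- conclusion
  have hfin : |∑ n ∈ Icc 1 x, (((np S n).choose j : ℕ) : ℝ) - x * (μ ^ j / (j.factorial : ℝ))| ≤ x * δ := by
    have h1 : ∑ n ∈ Icc 1 x, (((np S n).choose j : ℕ) : ℝ) - x * (μ ^ j / (j.factorial : ℝ)) =
      (∑ n ∈ Icc 1 x, (((np S n).choose j : ℕ) : ℝ) - ∑ n ∈ Icc 1 x, e n) +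
      (∑ n ∈ Icc 1 x, e n - x * (μ ^ j / (j.factorial : ℝ))) := by ring
    rw [h1]
    refine (abs_add_le _ _).trans ((add_le_add hstep1 hstep2).trans ?_)
    rw [← mul_add]
    apply mul_le_mul_of_nonneg_left _ hx0.le
    have h2 : K * (B * (γ + 2 * τ + 10 * lam ^ 2 / τ * (1 / L)) + (2 + 2 * lam) * B * (lam ^ (4 * q) / τ ^ (8 * q) * (1 / L))) ≤
        K * (B * (w + 2 * τ + 10 * lam ^ 2 / τ * w) + (2 + 2 * lam) * B * (lam ^ (4 * q) / τ ^ (8 * q) * w)) := by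
      apply mul_le_mul_of_nonneg_left _ hK0.le
      apply add_le_add
      · apply mul_le_mul_of_nonneg_left _ hB0.le
        have : 10 * lam ^ 2 / τ * (1 / L) ≤ 10 * lam ^ 2 / τ * w := mul_le_mul_of_nonneg_left hwL (by positivity)
        linarith
      · apply mul_le_mul_of_nonneg_left _ (by positivity)
        exact mul_le_mul_of_nonneg_left hwL (by positivity)
    have h3 : Λ ^ J * w + K * (B * (w + 2 * τ + 10 * lam ^ 2 / τ * w) + (2 + 2 * lam) * B * (lam ^ (4 * q) / τ ^ (8 * q) * w)) =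
        Cs * w + K * B * (2 * τ) := by rw [hCs]; ring
    linarith
  have h1 : (∑ n ∈ Icc 1 x, (((np S n).choose j : ℕ) : ℝ)) / x - μ ^ j / (j.factorial : ℝ) =
      (∑ n ∈ Icc 1 x, (((np S n).choose j : ℕ) : ℝ) - x * (μ ^ j / (j.factorial : ℝ))) / x := by
    field_simp
  rw [h1, abs_div, abs_of_pos hx0, div_le_iff₀ hx0]
  linarith

end Pool.Agent.SHP
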