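import Pool.Agent.Lib.SHP.Defs
import Pool.Agent.Lib.SHT.Brun

/-!
# Module Mean: one shift on average, and the size of the sieve weights

`L = log X`, `z = zA A' (X ^ 6)`.
`g_small`: `G1 z m = (DZ z)⁻¹ ic z m / log m ≤ (DZ z)⁻¹ · 2 / L` if `X ≤ m L^B` (`log m ≥ L - B log L ≥ L / 2`); `(DZ z)⁻¹ ≤ exp (1 + 9 (1 + log (1 + A' log (6 L)))) = C (1 + A' log (6 L))^9 ≤ L^(1/16)`,
see `HLT.DZ_inv_le_exp`, `HLT.sum_inv_le_zA` (at `X ^ 6`) and the proof of `HLT.DZ_inv_le`. So `G1^4 L^3 ≤ 16 L^(1/4) L^(-4) L^3 ≤ 1`.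
`mean_y`: `SHT.model_short 1 (B + 1) (1/36)` at the scale `X ^ 6`: for `t = fun _ : Fin 1 => n`, `n ≤ 2 X^6`, with `X` in place of `x` (`(X^6)^(1/36) = X^(1/6) ≤ X ≤ X^6`) and `y = X`,
resp. `y = ` the largest `s` with `s L^B1 < X`; `SI t = 1` for one shift (`locI t p = 1`, as `nuI t p = 1`; `∏' 1 = 1`), `hl univ t s = 1 / log (s + n)` (`n + s` there is `s + t 0`). The term `s = 1` of
`Icc 1 y` is at most `1 / log 2 ≤ 2`. Total error `2 X / (6 L)^(B+1) + 4 ≤ X / L^B`.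
-/

set_option autoImplicit false

open Finset Filter

namespace Pool.Agent.SHP

open Pool.Agent.HLB Pool.Agent.HL Pool.Agent.HLT Pool.Agent.HLU Pool.Agent.VN

namespace MeanAux

lemma nuI_one (t : Fin 1 → ℕ) (p : ℕ) : nuI t p = 1 := by
  unfold nuI
  rw [show (univ : Finset (Fin 1)) = {0} from rfl, Finset.image_singleton, Finset.card_singleton]

lemma SI_one (t : Fin 1 → ℕ) : SI t = 1 := by
  unfold SI
  have h : ∀ p : Nat.Primes, locI t p = 1 := by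
    intro p
    unfold locI
    rw [nuI_one, Fintype.card_fin, pow_one, Nat.cast_one]
    refine mul_inv_cancel₀ ?_
    have h2 : (2 : ℝ) ≤ (p : ℕ) := by exact_mod_cast p.2.two_le
    have h3 : 1 / ((p : ℕ) : ℝ) ≤ 1 / 2 := one_div_le_one_div_of_le (by norm_num) h2
    linarith
  rw [tprod_congr h, tprod_one]

lemma hl_one (n s : ℕ) : hl univ (fun _ : Fin 1 => n) s = 1 / Real.log ((s + n : ℕ) : ℝ) := by
  unfold hl
  rw [show (univ : Finset (Fin 1)) = {0} from rfl, Finset.prod_singleton]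

lemma tend6 : Tendsto (fun X : ℕ => X ^ 6) atTop atTop := tendsto_pow_atTop (by norm_num)

lemma log6 (X : ℕ) : Real.log ((X ^ 6 : ℕ) : ℝ) = 6 * Real.log X := by
  push_cast
  rw [Real.log_pow]
  norm_num

/-- the difference on the initial segment -/
noncomputable def Fy (z n y : ℕ) : ℝ :=
  ∑ s ∈ Icc 1 y, (G1 z (n + s) - 1 / Real.log ((n + s : ℕ) : ℝ))

lemma FF_le {B X A n : ℕ} (_ : 1 ≤ n) (hX : 1 ≤ X) (hn2 : n ≤ 2 * X ^ 6)
    (h : ∀ t : Fin 1 → ℕ, Function.Injective t → (∀ i, t i ≤ 2 * X ^ 6) → ∀ x : ℕ,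
      ((X ^ 6 : ℕ) : ℝ) ^ (1 / 36 : ℝ) ≤ x → x ≤ X ^ 6 →
      ∀ y : ℕ, y ≤ x → |∑ n ∈ Icc 1 y, ∏ i, G1 (zA A (X ^ 6)) (n + t i) -
        SI t * ∑ n ∈ Icc 2 y, hl univ t n| ≤ x / Real.log ((X ^ 6 : ℕ) : ℝ) ^ (B + 1))
    (y : ℕ) (hy : y ≤ X) :
    |Fy (zA A (X ^ 6)) n y| ≤ X / (6 * Real.log X) ^ (B + 1) + 2 := by
  have hX1 : (1 : ℝ) ≤ X := by exact_mod_cast hX
  have h1 := h (fun _ => n) (Function.injective_of_subsingleton _) (fun _ => hn2) X (by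
    push_cast
    rw [← Real.rpow_natCast, ← Real.rpow_mul (by positivity)]
    calc (X : ℝ) ^ (((6 : ℕ) : ℝ) * (1 / 36)) ≤ (X : ℝ) ^ (1 : ℝ) :=
          Real.rpow_le_rpow_of_exponent_le hX1 (by norm_num)
      _ = X := Real.rpow_one _) (Nat.le_self_pow (by norm_num) X) y hy
  rw [SI_one, one_mul, log6] at h1
  have h2 : ∑ s ∈ Icc 1 y, ∏ i : Fin 1, G1 (zA A (X ^ 6)) (s + (fun _ : Fin 1 => n) i) =
      ∑ s ∈ Icc 1 y, G1 (zA A (X ^ 6)) (n + s) := by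
    refine Finset.sum_congr rfl fun s _ => ?_
    rw [show (univ : Finset (Fin 1)) = {0} from rfl, Finset.prod_singleton, Nat.add_comm]
  have h3 : ∑ s ∈ Icc 2 y, hl univ (fun _ : Fin 1 => n) s =
      ∑ s ∈ Icc 2 y, 1 / Real.log ((n + s : ℕ) : ℝ) := by
    refine Finset.sum_congr rfl fun s _ => ?_
    rw [hl_one, Nat.add_comm]
  rw [h2, h3] at h1
  have h4 : |∑ s ∈ Icc 1 y, 1 / Real.log ((n + s : ℕ) : ℝ) -
      ∑ s ∈ Icc 2 y, 1 / Real.log ((n + s : ℕ) : ℝ)| ≤ 2 := by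
    rcases Nat.eq_zero_or_pos y with h0 | h0
    · subst h0
      simp
    · rw [← Finset.add_sum_Ioc_eq_sum_Icc h0]
      have h5 : Ioc 1 y = Icc 2 y := by
        ext s
        simp only [mem_Ioc, mem_Icc]
        omega
      rw [h5, add_sub_cancel_right, abs_of_nonneg (inv_log_nonneg _)]
      exact inv_log_le _
  unfold Fy
  rw [Finset.sum_sub_distrib]
  have h6 : ∑ s ∈ Icc 1 y, G1 (zA A (X ^ 6)) (n + s) - ∑ s ∈ Icc 1 y, 1 / Real.log ((n + s : ℕ) : ℝ) =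
      (∑ s ∈ Icc 1 y, G1 (zA A (X ^ 6)) (n + s) - ∑ s ∈ Icc 2 y, 1 / Real.log ((n + s : ℕ) : ℝ)) -
      (∑ s ∈ Icc 1 y, 1 / Real.log ((n + s : ℕ) : ℝ) -
        ∑ s ∈ Icc 2 y, 1 / Real.log ((n + s : ℕ) : ℝ)) := by
    ring
  rw [h6]
  refine (abs_sub _ _).trans ?_
  linarith

end MeanAux

open MeanAux

theorem g_small (A' B : ℕ) : ∀ᶠ X : ℕ in atTop, ∀ m : ℕ, (X : ℝ) ≤ m * Real.log X ^ B →
    G1 (zA A' (X ^ 6)) m ^ 4 * Real.log X ^ 3 ≤ 1 := by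
  have hA : (0 : ℝ) ≤ A' := Nat.cast_nonneg A'
  have e1 := tend6.eventually (tendsto_loglog_nat.eventually
    (ev_poly_exp (6 * 16 * Real.exp 10 ^ 4 * (1 + (A' : ℝ)) ^ 36) 36))
  have e3 := tend6.eventually (tendsto_loglog_nat.eventually (eventually_ge_atTop (1 : ℝ)))
  have e4 := tend6.eventually (tendsto_log_nat.eventually (eventually_ge_atTop (1 : ℝ)))
  filter_upwards [e1, e3, e4, SHT.BrunAux.ev_rpow B (1 / 2) (by norm_num),
    eventually_ge_atTop 1] with X h1 h3 h4 h5 hX1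
  intro m hm
  have hX0 : (0 : ℝ) < X := by exact_mod_cast hX1
  have h6 := sum_inv_le_zA A' (X ^ 6) h4
  have h7 := DZ_inv_le_exp (zA A' (X ^ 6))
  set l := Real.log ((X ^ 6 : ℕ) : ℝ) with hl
  set t := Real.log l with ht
  have hlL : l = 6 * Real.log X := log6 X
  set L := Real.log (X : ℝ) with hL
  have hlpos : 0 < l := by linarith
  have hL0 : 0 < L := by linarith
  have hel : Real.exp t = l := Real.exp_log hlpos
  rw [hel, hlL] at h1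
  have hDZ : (DZ (zA A' (X ^ 6)))⁻¹ ≤ Real.exp 10 * ((1 + A') ^ 9 * t ^ 9) := by
    refine h7.trans ?_
    calc Real.exp (1 + ∑ p ∈ Nat.primesLE (zA A' (X ^ 6)), 1 / (p : ℝ))
        ≤ Real.exp (1 + 9 * (1 + Real.log (1 + A' * t))) := by
          apply Real.exp_le_exp.mpr
          linarith
      _ = Real.exp 10 * (1 + A' * t) ^ 9 := by
          rw [show 1 + 9 * (1 + Real.log (1 + A' * t)) = 10 + (9 : ℕ) * Real.log (1 + A' * t) by
            push_cast; ring, Real.exp_add, Real.exp_nat_mul, Real.exp_log (by positivity)]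
      _ ≤ _ := by
          rw [← mul_pow]
          gcongr
          nlinarith
  have hDZ0 : 0 ≤ (DZ (zA A' (X ^ 6)))⁻¹ := inv_nonneg.mpr (DZ_pos _).le
  have hDZ4 : 16 * (DZ (zA A' (X ^ 6)))⁻¹ ^ 4 ≤ L := by
    have h8 : (DZ (zA A' (X ^ 6)))⁻¹ ^ 4 ≤ (Real.exp 10 * ((1 + A') ^ 9 * t ^ 9)) ^ 4 := by
      gcongr
    have h9 : (Real.exp 10 * ((1 + (A' : ℝ)) ^ 9 * t ^ 9)) ^ 4 =
        Real.exp 10 ^ 4 * (1 + (A' : ℝ)) ^ 36 * t ^ 36 := by ring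
    rw [h9] at h8
    nlinarith
  have hm1 : (X : ℝ) ^ (1 / 2 : ℝ) ≤ m := by
    have h8 : (X : ℝ) ≤ m * (X : ℝ) ^ (1 / 2 : ℝ) :=
      hm.trans (mul_le_mul_of_nonneg_left h5 (Nat.cast_nonneg m))
    have h9 : (X : ℝ) = (X : ℝ) ^ (1 / 2 : ℝ) * (X : ℝ) ^ (1 / 2 : ℝ) := by
      rw [← Real.rpow_add hX0, add_halves, Real.rpow_one]
    have h10 : 0 < (X : ℝ) ^ (1 / 2 : ℝ) := Real.rpow_pos_of_pos hX0 _
    rw [h9] at h8
    have h11 : (X : ℝ) ^ (1 / 2 : ℝ) * (X : ℝ) ^ (1 / 2 : ℝ) ≤ m * (X : ℝ) ^ (1 / 2 : ℝ) := by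
      calc (X : ℝ) ^ (1 / 2 : ℝ) * (X : ℝ) ^ (1 / 2 : ℝ) = X := h9.symm
        _ ≤ _ := hm.trans (mul_le_mul_of_nonneg_left h5 (Nat.cast_nonneg m))
    exact le_of_mul_le_mul_right h11 h10
  have hlm : L / 2 ≤ Real.log m := by
    have h8 := Real.log_le_log (Real.rpow_pos_of_pos hX0 _) hm1
    rw [Real.log_rpow hX0] at h8
    linarith
  have hG : G1 (zA A' (X ^ 6)) m ≤ (DZ (zA A' (X ^ 6)))⁻¹ * (2 / L) := by
    unfold G1
    refine mul_le_mul (nuz_le _ _) ?_ (inv_log_nonneg _) hDZ0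
    rw [div_le_div_iff₀ (by linarith) hL0]
    linarith
  have hG0 := G1_nonneg (zA A' (X ^ 6)) m
  calc G1 (zA A' (X ^ 6)) m ^ 4 * L ^ 3
      ≤ ((DZ (zA A' (X ^ 6)))⁻¹ * (2 / L)) ^ 4 * L ^ 3 := by gcongr
    _ = 16 * (DZ (zA A' (X ^ 6)))⁻¹ ^ 4 / L := by
        field_simp
        ring
    _ ≤ 1 := by
        rw [div_le_one hL0]
        exact hDZ4

theorem mean_y (B B1 : ℕ) : ∃ A0 : ℕ, ∀ A' : ℕ, A0 ≤ A' → ∀ᶠ X : ℕ in atTop, ∀ n : ℕ, 1 ≤ n → n ≤ 2 * X ^ 6 →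
    |∑ s ∈ (Icc 1 X).filter (fun s : ℕ => (X : ℝ) ≤ s * Real.log X ^ B1),
      (G1 (zA A' (X ^ 6)) (n + s) - 1 / Real.log ((n + s : ℕ) : ℝ))| ≤ X / Real.log X ^ B := by
  obtain ⟨A0, hA0⟩ := SHT.model_short 1 (B + 1) (1 / 36) (by norm_num)
  refine ⟨A0, fun A' hA' => ?_⟩
  filter_upwards [tend6.eventually (hA0 A' hA'), ev_log 6, ev_pow 1 B, eventually_ge_atTop 1]
    with X h1 hL hp hX1
  intro n hn hn2
  have hX0 : (0 : ℝ) < X := by exact_mod_cast hX1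
  set L := Real.log (X : ℝ) with hLdef
  have hL1 : 1 ≤ L := by linarith
  have hL0 : 0 < L := by linarith
  have hF := FF_le (B := B) hn hX1 hn2 h1
  set c := ⌈(X : ℝ) / L ^ B1⌉₊ with hc
  have hcX : c ≤ X := by
    rw [hc, Nat.ceil_le]
    exact div_le_self hX0.le (one_le_pow₀ hL1)
  have hc1 : 1 ≤ c := by
    rw [hc, Nat.one_le_ceil_iff]
    positivity
  have hfil : (Icc 1 X).filter (fun s : ℕ => ¬ ((X : ℝ) ≤ s * L ^ B1)) = Icc 1 (c - 1) := by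
    ext s
    simp only [mem_filter, mem_Icc]
    have h2 : ¬ ((X : ℝ) ≤ s * L ^ B1) ↔ s < c := by
      rw [hc, Nat.lt_ceil, lt_div_iff₀ (by positivity), not_le]
    rw [h2]
    omega
  have hsum := Finset.sum_filter_add_sum_filter_not (Icc 1 X)
    (fun s : ℕ => (X : ℝ) ≤ s * L ^ B1)
    (fun s : ℕ => G1 (zA A' (X ^ 6)) (n + s) - 1 / Real.log ((n + s : ℕ) : ℝ))
  rw [hfil] at hsum
  have h3 : ∑ s ∈ (Icc 1 X).filter (fun s : ℕ => (X : ℝ) ≤ s * L ^ B1),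
      (G1 (zA A' (X ^ 6)) (n + s) - 1 / Real.log ((n + s : ℕ) : ℝ)) =
      Fy (zA A' (X ^ 6)) n X - Fy (zA A' (X ^ 6)) n (c - 1) := by
    unfold Fy
    linarith
  rw [h3]
  refine (abs_sub _ _).trans ?_
  have h4 := hF X le_rfl
  have h5 := hF (c - 1) (by omega)
  have h6 : X / (6 * L) ^ (B + 1) ≤ X / L ^ B / 6 := by
    rw [div_div]
    refine div_le_div_of_nonneg_left hX0.le (by positivity) ?_
    calc L ^ B * 6 ≤ L ^ B * (6 * L) := by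
          refine mul_le_mul_of_nonneg_left (by linarith) (by positivity)
      _ ≤ (6 * L) ^ B * (6 * L) := by
          refine mul_le_mul_of_nonneg_right ?_ (by positivity)
          exact pow_le_pow_left₀ hL0.le (by linarith) B
      _ = (6 * L) ^ (B + 1) := (pow_succ _ _).symm
  rw [pow_one] at hp
  linarith

end Pool.Agent.SHP
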