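import Pool.Agent.Lib.SHP.Mac
import Pool.Agent.Lib.SHP.Mean

/-!
# Module Samp: almost every set has no small element and small remainders `rm`

`L = log X`, `z = zA A' (X ^ 6)`, `B1 = A + K + 2`. (1) The number of the `S ∈ powersetCard D (Icc 1 X)` with an element `s`, `s L^B1 < X`, is at most `D / X · #{s} #(powersetCard ..) ≤
L^K L^(-B1) #(powersetCard ..)` (`VN.subsets_bad_r 1`, with `P` the functions `Fin 1 → ℕ` with value in `{s ∈ Icc 1 X : s L^B1 < X}`; at most `X / L^B1` of them).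
(2) Let `Y_n s = G1 z (n + s) - 1 / log (n + s)` if `X ≤ s L^B1` and `0` otherwise. For `1 ≤ n ≤ 2 X^6`: `|Y_n s| ≤ g := L^(-3/4)` (both terms are in `[0, g]`: `g_small`; `1 / log (n + s) ≤ 2 / L`) and
`|∑_s Y_n s| ≤ X / L^(K+2)` (`mean_y (K + 2) B1`). `rand_moment (4 q)` with `δ = L^(-K-2)`: `∑_S (∑_{s ∈ S} Y_n s)^(8q) ≤ C (D L^(-3/2))^(4q) #(powersetCard ..) = C D^(4q) L^(-6q) #`.
Sum over `n ≤ 2^j ≤ 2 X^6`; Markov: at most `2 C L^(-q) #` sets have `∑_{n ≤ 2^j} (∑_{s ∈ S} Y_n s)^(8q) > 2^(j-1) (D/L)^(4q) / L^q`. There are at most `10 L` values of `j`; `q ≥ A + 3`.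
(3) For `S` outside of all these sets `rm z S n = ∑_{s ∈ S} Y_n s`, and for `1 ≤ x ≤ X^6` take `j` with `x ≤ 2^j ≤ 2 x`. `D = 0`: `rm = 0`. `x = 0`: empty sum.
-/

set_option autoImplicit false

open Finset Filter

namespace Pool.Agent.SHP

open Pool.Agent.HLB Pool.Agent.HL Pool.Agent.HLT Pool.Agent.HLU Pool.Agent.VN

namespace SampAux

/-- Markov -/
theorem markov {α : Type} [DecidableEq α] (P : Finset α) (F : α → ℝ) (hF : ∀ S ∈ P, 0 ≤ F S) {τ M : ℝ}
    (hM : ∑ S ∈ P, F S ≤ M) : ((P.filter (fun S => τ < F S)).card : ℝ) * τ ≤ M := by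
  calc ((P.filter (fun S => τ < F S)).card : ℝ) * τ = ∑ S ∈ P.filter (fun S => τ < F S), τ := by
        rw [sum_const, nsmul_eq_mul]
    _ ≤ ∑ S ∈ P.filter (fun S => τ < F S), F S :=
        sum_le_sum fun S hS => (mem_filter.1 hS).2.le
    _ ≤ ∑ S ∈ P, F S := sum_le_sum_of_subset_of_nonneg (filter_subset _ _) fun S hS _ => hF S hS
    _ ≤ M := hM

theorem num_j {X : ℕ} (hL : 2 ≤ Real.log X) : ((Nat.clog 2 (X ^ 6) + 1 : ℕ) : ℝ) ≤ 10 * Real.log X := by
  have hX0 : X ≠ 0 := by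
    rintro rfl
    simp at hL
    linarith
  have hX1 : 1 < X := by
    by_contra h
    have : X = 1 := by omega
    subst this
    simp at hL
    linarith
  have h1 : 1 < X ^ 6 := Nat.one_lt_pow (by norm_num) hX1
  have h2 := Nat.pow_pred_clog_lt_self (by norm_num : 1 < 2) h1
  have h3 : 1 ≤ Nat.clog 2 (X ^ 6) := Nat.clog_pos (by norm_num) (by omega)
  have h4 : ((2 : ℝ)) ^ (Nat.clog 2 (X ^ 6) - 1) ≤ (X : ℝ) ^ 6 := by
    have : 2 ^ (Nat.clog 2 (X ^ 6) - 1) ≤ X ^ 6 := by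
      rw [← Nat.pred_eq_sub_one]
      exact h2.le
    exact_mod_cast this
  have h5 := Real.log_le_log (by positivity) h4
  rw [Real.log_pow, Real.log_pow] at h5
  have h6 : ((Nat.clog 2 (X ^ 6) - 1 : ℕ) : ℝ) = (Nat.clog 2 (X ^ 6) : ℝ) - 1 := by
    rw [Nat.cast_sub h3, Nat.cast_one]
  rw [h6] at h5
  have h7 := Real.log_two_gt_d9
  push_cast at h5 ⊢
  have h8 : (0 : ℝ) ≤ (Nat.clog 2 (X ^ 6) : ℝ) - 1 := by
    have : (1 : ℝ) ≤ (Nat.clog 2 (X ^ 6) : ℝ) := by exact_mod_cast h3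
    linarith
  nlinarith

/-- few sets have a small element -/
theorem small_elem {X D B1 : ℕ} (hX : 1 ≤ X) {L : ℝ} (hL : 0 < L) :
    (((((Icc 1 X).powersetCard D).filter (fun S : Finset ℕ => ¬ ∀ s ∈ S, (X : ℝ) ≤ (s : ℝ) * L ^ B1)).card : ℕ) : ℝ) ≤
      D / L ^ B1 * ((Icc 1 X).powersetCard D).card := by
  set Z : Finset ℕ := (Icc 1 X).filter (fun s : ℕ => (s : ℝ) * L ^ B1 < X) with hZ
  set P : Finset (Fin 1 → ℕ) := Z.image (fun s _ => s) with hP
  have hb := subsets_bad_r 1 (Icc 1 X) P D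
    (((Icc 1 X).powersetCard D).filter (fun S : Finset ℕ => ¬ ∀ s ∈ S, (X : ℝ) ≤ (s : ℝ) * L ^ B1)) ?_ ?_
  · have hPc : (P.card : ℝ) ≤ X / L ^ B1 := by
      have h1 : P.card ≤ Z.card := card_image_le
      have h2 : (Z.card : ℝ) ≤ X / L ^ B1 := by
        rcases Z.eq_empty_or_nonempty with h0 | h0
        · rw [h0]
          simp only [card_empty, Nat.cast_zero]
          positivity
        · have h3 := mem_filter.1 (Z.max'_mem h0)
          have h4 : Z ⊆ Icc 1 (Z.max' h0) := by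
            intro s hs
            have h5 := (mem_Icc.1 (mem_filter.1 hs).1).1
            exact mem_Icc.2 ⟨h5, Z.le_max' s hs⟩
          have h6 := card_le_card h4
          rw [Nat.card_Icc, Nat.add_sub_cancel] at h6
          rw [le_div_iff₀ (by positivity)]
          calc (Z.card : ℝ) * L ^ B1 ≤ (Z.max' h0 : ℝ) * L ^ B1 :=
                mul_le_mul_of_nonneg_right (by exact_mod_cast h6) (by positivity)
            _ ≤ X := h3.2.le
      exact le_trans (by exact_mod_cast h1) h2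
    rw [Nat.card_Icc, Nat.add_sub_cancel, pow_one, pow_one] at hb
    have hXR : (0 : ℝ) < X := by exact_mod_cast hX
    rw [← mul_le_mul_iff_left₀ hXR]
    refine hb.trans ?_
    calc (D : ℝ) * P.card * ((Icc 1 X).powersetCard D).card ≤
          (D : ℝ) * (X / L ^ B1) * ((Icc 1 X).powersetCard D).card := by
          refine mul_le_mul_of_nonneg_right ?_ (Nat.cast_nonneg _)
          exact mul_le_mul_of_nonneg_left hPc (Nat.cast_nonneg _)
      _ = D / L ^ B1 * ((Icc 1 X).powersetCard D).card * X := by ring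
  · intro f hf
    obtain ⟨s, hs, rfl⟩ := mem_image.1 hf
    exact ⟨fun i j _ => Subsingleton.elim i j, fun _ => (mem_filter.1 hs).1⟩
  · intro S hS
    rw [mem_filter] at hS
    refine ⟨hS.1, ?_⟩
    obtain ⟨h1, h2⟩ := hS
    push Not at h2
    obtain ⟨s, hs, hs2⟩ := h2
    refine ⟨fun _ => s, mem_image.2 ⟨s, mem_filter.2 ⟨(mem_powersetCard.1 h1).1 hs, hs2⟩, rfl⟩, fun _ => hs⟩

/-- the truncated summand -/
noncomputable def Yn (z X B1 : ℕ) (L : ℝ) (n s : ℕ) : ℝ :=
  if (X : ℝ) ≤ s * L ^ B1 then G1 z (n + s) - 1 / Real.log ((n + s : ℕ) : ℝ) else 0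

/-- the size of the truncated summand -/
theorem abs_Yn_le {z X B1 : ℕ} {L g : ℝ} (hLX : L = Real.log X) (hL : 16 ≤ L) (hg0 : 0 ≤ g)
    (hg4 : g ^ 4 = 1 / L ^ 3) (hLL : (B1 : ℝ) * Real.log L ≤ L / 2)
    (hg : ∀ m : ℕ, (X : ℝ) ≤ m * L ^ B1 → G1 z m ^ 4 * L ^ 3 ≤ 1) (n s : ℕ) :
    |Yn z X B1 L n s| ≤ g := by
  unfold Yn
  split_ifs with h
  · have hL0 : 0 < L := by linarith
    have hX0 : X ≠ 0 := by
      rintro rfl
      simp at hLX
      linarith
    have hX1 : (0 : ℝ) < X := by exact_mod_cast Nat.pos_of_ne_zero hX0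
    have hs0 : (0 : ℝ) < s := by
      rcases Nat.eq_zero_or_pos s with h0 | h0
      · rw [h0] at h
        simp at h
        exact absurd h hX0
      · exact_mod_cast h0
    -- the model
    have h1 : G1 z (n + s) ≤ g := by
      have h2 : (X : ℝ) ≤ ((n + s : ℕ) : ℝ) * L ^ B1 := by
        refine h.trans (mul_le_mul_of_nonneg_right ?_ (by positivity))
        push_cast
        have : (0 : ℝ) ≤ n := Nat.cast_nonneg n
        linarith
      have h3 := hg (n + s) h2
      have h4 : G1 z (n + s) ^ 4 ≤ g ^ 4 := by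
        rw [hg4, le_div_iff₀ (by positivity)]
        exact h3
      exact (pow_le_pow_iff_left₀ (G1_nonneg z _) hg0 (by norm_num)).1 h4
    -- the density
    have h5 : Real.log X ≤ Real.log s + B1 * Real.log L := by
      rw [← Real.log_pow, ← Real.log_mul hs0.ne' (by positivity)]
      exact Real.log_le_log hX1 h
    have h6 : L / 2 ≤ Real.log s := by
      rw [← hLX] at h5
      linarith
    have h7 : Real.log s ≤ Real.log ((n + s : ℕ) : ℝ) := by
      refine Real.log_le_log hs0 ?_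
      push_cast
      have : (0 : ℝ) ≤ n := Nat.cast_nonneg n
      linarith
    have h8 : 0 < Real.log ((n + s : ℕ) : ℝ) := by linarith
    have h9 : 1 / Real.log ((n + s : ℕ) : ℝ) ≤ g := by
      have h10 : 1 / Real.log ((n + s : ℕ) : ℝ) ≤ 2 / L := by
        rw [div_le_div_iff₀ h8 hL0]
        linarith
      refine h10.trans ?_
      have h11 : (2 / L) ^ 4 ≤ g ^ 4 := by
        rw [hg4, div_pow, div_le_div_iff₀ (by positivity) (by positivity)]
        have h12 : (2 : ℝ) ^ 4 * L ^ 3 ≤ L * L ^ 3 :=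
          mul_le_mul_of_nonneg_right (by norm_num; linarith) (by positivity)
        calc (2 : ℝ) ^ 4 * L ^ 3 ≤ L * L ^ 3 := h12
          _ = 1 * L ^ 4 := by ring
      exact (pow_le_pow_iff_left₀ (by positivity) hg0 (by norm_num)).1 h11
    have h13 := G1_nonneg z (n + s)
    have h14 : 0 ≤ 1 / Real.log ((n + s : ℕ) : ℝ) := by positivity
    rw [abs_le]
    constructor
    · linarith
    · linarith
  · rw [abs_zero]
    exact hg0

/-- the statement for one `X` -/
theorem core {q A K X D z : ℕ} {C : ℝ} (hq : A + 3 ≤ q) (hC : 0 < C)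
    (hmom : ∀ (X D : ℕ) (Y : ℕ → ℝ) (g δ : ℝ), 1 ≤ D → 2 * D ^ 2 ≤ X → 0 < g →
      (∀ s ∈ Icc 1 X, |Y s| ≤ g) → |∑ s ∈ Icc 1 X, Y s| ≤ δ * X → D * δ ^ 2 ≤ g ^ 2 →
      ∑ S ∈ (Icc 1 X).powersetCard D, (∑ s ∈ S, Y s) ^ (2 * (4 * q)) ≤
        C * (g ^ 2 * D) ^ (4 * q) * ((Icc 1 X).powersetCard D).card)
    (hg : ∀ m : ℕ, (X : ℝ) ≤ m * Real.log X ^ (A + K + 2) → G1 z m ^ 4 * Real.log X ^ 3 ≤ 1)
    (hmean : ∀ n : ℕ, 1 ≤ n → n ≤ 2 * X ^ 6 →
      |∑ s ∈ (Icc 1 X).filter (fun s : ℕ => (X : ℝ) ≤ s * Real.log X ^ (A + K + 2)),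
        (G1 z (n + s) - 1 / Real.log ((n + s : ℕ) : ℝ))| ≤ X / Real.log X ^ (K + 2))
    (hL : 16 ≤ Real.log X) (hLL : ((A + K + 2 : ℕ) : ℝ) * Real.log (Real.log X) ≤ Real.log X / 2)
    (hLC : 1 + 20 * C ≤ Real.log X) (hLX : 2 * Real.log X ^ (2 * K) ≤ X)
    (hD : (D : ℝ) ≤ Real.log X ^ K) (hD1 : 1 ≤ D) :
    ∃ Y ⊆ (Icc 1 X).powersetCard D, (Y.card : ℝ) ≤ ((Icc 1 X).powersetCard D).card / Real.log X ^ A ∧
    ∀ S ∈ (Icc 1 X).powersetCard D, S ∉ Y →
      (∀ s ∈ S, (X : ℝ) ≤ s * Real.log X ^ (A + K + 2)) ∧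
      ∀ x : ℕ, x ≤ X ^ 6 →
        ∑ n ∈ Icc 1 x, rm z S n ^ (8 * q) ≤ x * ((D / Real.log X) ^ (4 * q) / Real.log X ^ q) := by
  classical
  set B1 := A + K + 2 with hB1
  set L := Real.log X with hLdef
  have hL0 : 0 < L := by linarith
  have hL1 : 1 ≤ L := by linarith
  have hX0 : X ≠ 0 := by
    rintro rfl
    simp at hLdef
    linarith
  have hX1 : 1 ≤ X := Nat.pos_of_ne_zero hX0
  have hXR : (0 : ℝ) < X := by exact_mod_cast hX1
  have hDR : (1 : ℝ) ≤ D := by exact_mod_cast hD1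
  set PC := (Icc 1 X).powersetCard D with hPC
  set N : ℝ := (PC.card : ℝ) with hN
  have hN0 : 0 ≤ N := Nat.cast_nonneg _
  -- the constants
  set h : ℝ := Real.sqrt (1 / L ^ 3) with hh
  set g : ℝ := Real.sqrt h with hgdef
  have hh0 : 0 < h := Real.sqrt_pos.2 (by positivity)
  have hg0 : 0 < g := Real.sqrt_pos.2 hh0
  have hh2 : h ^ 2 = 1 / L ^ 3 := Real.sq_sqrt (by positivity)
  have hg2 : g ^ 2 = h := Real.sq_sqrt hh0.le
  have hg4 : g ^ 4 = 1 / L ^ 3 := by
    rw [show g ^ 4 = (g ^ 2) ^ 2 by ring, hg2, hh2]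
  have hpw : (g ^ 2 * D) ^ (4 * q) = D ^ (4 * q) / L ^ (6 * q) := by
    rw [hg2, mul_pow, show 4 * q = 2 * (2 * q) by ring, pow_mul h 2, hh2, one_div, inv_pow, ← pow_mul,
      show 3 * (2 * q) = 6 * q by ring]
    field_simp
  -- the moments
  have hM : ∀ n : ℕ, 1 ≤ n → n ≤ 2 * X ^ 6 →
      ∑ S ∈ PC, (∑ s ∈ S, Yn z X B1 L n s) ^ (8 * q) ≤ C * (D ^ (4 * q) / L ^ (6 * q)) * N := by
    intro n hn1 hn2
    have h1 := hmom X D (Yn z X B1 L n) g (1 / L ^ (K + 2)) hD1 ?_ hg0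
      (fun s _ => abs_Yn_le hLdef hL hg0.le hg4 hLL hg n s) ?_ ?_
    · rw [hpw, show 2 * (4 * q) = 8 * q by ring] at h1
      exact h1
    · have h2 : (2 * (D : ℝ) ^ 2) ≤ X := by
        calc 2 * (D : ℝ) ^ 2 ≤ 2 * (L ^ K) ^ 2 := by
              have := pow_le_pow_left₀ (by positivity) hD 2
              linarith
          _ = 2 * L ^ (2 * K) := by rw [← pow_mul, mul_comm K 2]
          _ ≤ X := hLX
      exact_mod_cast h2
    · have h2 := hmean n hn1 hn2
      rw [sum_filter] at h2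
      have h3 : ∑ s ∈ Icc 1 X, Yn z X B1 L n s = ∑ s ∈ Icc 1 X,
          (if (X : ℝ) ≤ s * L ^ B1 then G1 z (n + s) - 1 / Real.log ((n + s : ℕ) : ℝ) else 0) := rfl
      rw [h3]
      refine h2.trans (le_of_eq ?_)
      rw [one_div, div_eq_mul_inv, mul_comm]
    · rw [hg2]
      have h2 : 1 / L ^ 3 ≤ h := by
        rw [hh]
        refine Real.le_sqrt_of_sq_le ?_
        have h3 : 1 / L ^ 3 ≤ 1 := by
          rw [div_le_one (by positivity)]
          exact one_le_pow₀ hL1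
        have h4 : 0 ≤ 1 / L ^ 3 := by positivity
        nlinarith
      refine le_trans ?_ h2
      calc (D : ℝ) * (1 / L ^ (K + 2)) ^ 2 ≤ L ^ K * (1 / L ^ (K + 2)) ^ 2 :=
            mul_le_mul_of_nonneg_right hD (by positivity)
        _ = 1 / L ^ (K + 4) := by
            rw [one_div, inv_pow, ← pow_mul, ← div_eq_mul_inv,
              show (K + 2) * 2 = K + (K + 4) by ring, pow_add L K]
            field_simp
        _ ≤ 1 / L ^ 3 := by
            refine one_div_le_one_div_of_le (by positivity) ?_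
            exact pow_le_pow_right₀ hL1 (by omega)
  -- the exceptional sets
  set J := Nat.clog 2 (X ^ 6) + 1 with hJ
  have h2J : ∀ j < J, 2 ^ j ≤ 2 * X ^ 6 := by
    intro j hj
    rcases Nat.lt_or_ge 1 (X ^ 6) with h1 | h1
    · have h2 := Nat.pow_pred_clog_lt_self (by norm_num : 1 < 2) h1
      have h3 : 1 ≤ Nat.clog 2 (X ^ 6) := Nat.clog_pos (by norm_num) (by omega)
      rw [Nat.pred_eq_sub_one] at h2
      calc 2 ^ j ≤ 2 ^ (Nat.clog 2 (X ^ 6)) := Nat.pow_le_pow_right (by norm_num) (by omega)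
        _ = 2 * 2 ^ (Nat.clog 2 (X ^ 6) - 1) := by
            rw [← pow_succ', Nat.sub_add_cancel h3]
        _ ≤ 2 * X ^ 6 := Nat.mul_le_mul_left 2 h2.le
    · have h2 : Nat.clog 2 (X ^ 6) = 0 := Nat.clog_of_right_le_one h1 2
      have h3 : j = 0 := by omega
      rw [h3, pow_zero]
      have : 1 ≤ X ^ 6 := Nat.one_le_pow _ _ hX1
      omega
  set F : ℕ → Finset ℕ → ℝ := fun j S => ∑ n ∈ Icc 1 (2 ^ j), (∑ s ∈ S, Yn z X B1 L n s) ^ (8 * q) with hF
  have hF0 : ∀ j S, 0 ≤ F j S := by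
    intro j S
    refine sum_nonneg fun n _ => ?_
    rw [show 8 * q = 2 * (4 * q) by ring, pow_mul]
    positivity
  set τ : ℕ → ℝ := fun j => 2 ^ j / 2 * (((D : ℝ) / L) ^ (4 * q) / L ^ q) with hτ
  have hτ0 : ∀ j, 0 < τ j := fun j => by
    simp only [hτ]
    positivity
  have hbad : ∀ j < J, (((PC.filter (fun S => τ j < F j S)).card : ℕ) : ℝ) ≤ 2 * C / L ^ q * N := by
    intro j hj
    have h1 := markov PC (F j) (fun S _ => hF0 j S) (τ := τ j)
      (M := 2 ^ j * (C * (D ^ (4 * q) / L ^ (6 * q)) * N)) ?_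
    · have h2 : 2 ^ j * (C * (D ^ (4 * q) / L ^ (6 * q)) * N) = 2 * C / L ^ q * N * τ j := by
        simp only [hτ]
        rw [div_pow, show 6 * q = 4 * q + q + q by ring, pow_add L (4 * q + q), pow_add L (4 * q)]
        field_simp
      rw [h2] at h1
      exact le_of_mul_le_mul_right h1 (hτ0 j)
    · rw [hF]
      simp only
      rw [sum_comm]
      calc ∑ n ∈ Icc 1 (2 ^ j), ∑ S ∈ PC, (∑ s ∈ S, Yn z X B1 L n s) ^ (8 * q)
          ≤ ∑ _n ∈ Icc 1 (2 ^ j), C * (D ^ (4 * q) / L ^ (6 * q)) * N := by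
            refine sum_le_sum fun n hn => ?_
            rw [mem_Icc] at hn
            exact hM n hn.1 (hn.2.trans (h2J j hj))
        _ = 2 ^ j * (C * (D ^ (4 * q) / L ^ (6 * q)) * N) := by
            rw [sum_const, Nat.card_Icc, Nat.add_sub_cancel, nsmul_eq_mul]
            push_cast
            rfl
  set Y1 := PC.filter (fun S : Finset ℕ => ¬ ∀ s ∈ S, (X : ℝ) ≤ (s : ℝ) * L ^ B1) with hY1
  set Y2 := (range J).biUnion (fun j => PC.filter (fun S => τ j < F j S)) with hY2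
  refine ⟨Y1 ∪ Y2, ?_, ?_, ?_⟩
  · refine union_subset (filter_subset _ _) ?_
    refine biUnion_subset.2 fun j _ => filter_subset _ _
  · have h1 : (Y1.card : ℝ) ≤ 1 / L ^ (A + 2) * N := by
      refine (small_elem hX1 hL0).trans ?_
      refine mul_le_mul_of_nonneg_right ?_ hN0
      calc (D : ℝ) / L ^ B1 ≤ L ^ K / L ^ B1 := div_le_div_of_nonneg_right hD (by positivity)
        _ = 1 / L ^ (A + 2) := by
            rw [hB1, show A + K + 2 = K + (A + 2) by ring, pow_add L K]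
            field_simp
    have h2 : (Y2.card : ℝ) ≤ 20 * C / L ^ (A + 2) * N := by
      have h3 : Y2.card ≤ ∑ j ∈ range J, (PC.filter (fun S => τ j < F j S)).card := card_biUnion_le
      have h4 : (Y2.card : ℝ) ≤ ∑ j ∈ range J, (((PC.filter (fun S => τ j < F j S)).card : ℕ) : ℝ) := by
        exact_mod_cast h3
      refine h4.trans ?_
      calc ∑ j ∈ range J, (((PC.filter (fun S => τ j < F j S)).card : ℕ) : ℝ)
          ≤ ∑ _j ∈ range J, 2 * C / L ^ q * N := sum_le_sum fun j hj => hbad j (mem_range.1 hj)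
        _ = (J : ℝ) * (2 * C / L ^ q * N) := by rw [sum_const, card_range, nsmul_eq_mul]
        _ ≤ (10 * L) * (2 * C / L ^ q * N) :=
            mul_le_mul_of_nonneg_right (num_j (by linarith)) (by positivity)
        _ ≤ (10 * L) * (2 * C / L ^ (A + 3) * N) := by
            refine mul_le_mul_of_nonneg_left ?_ (by positivity)
            refine mul_le_mul_of_nonneg_right ?_ hN0
            exact div_le_div_of_nonneg_left (by positivity) (by positivity) (pow_le_pow_right₀ hL1 hq)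
        _ = 20 * C / L ^ (A + 2) * N := by
            rw [pow_succ L (A + 2)]
            field_simp
            ring
    have h5 : ((Y1 ∪ Y2).card : ℝ) ≤ Y1.card + Y2.card := by exact_mod_cast card_union_le _ _
    calc ((Y1 ∪ Y2).card : ℝ) ≤ 1 / L ^ (A + 2) * N + 20 * C / L ^ (A + 2) * N := by linarith
      _ = (1 + 20 * C) * N / (L ^ A * L ^ 2) := by
          rw [pow_add L A]
          ring
      _ ≤ L ^ 2 * N / (L ^ A * L ^ 2) := by
          refine div_le_div_of_nonneg_right ?_ (by positivity)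
          refine mul_le_mul_of_nonneg_right ?_ hN0
          nlinarith
      _ = N / L ^ A := by field_simp
  · intro S hS hSY
    rw [notMem_union] at hSY
    have hS1 : ∀ s ∈ S, (X : ℝ) ≤ s * L ^ B1 := by
      by_contra hcon
      exact hSY.1 (mem_filter.2 ⟨hS, hcon⟩)
    refine ⟨hS1, fun x hx => ?_⟩
    rcases Nat.eq_zero_or_pos x with rfl | hx0
    · simp
    have hrm : ∀ n, rm z S n = ∑ s ∈ S, Yn z X B1 L n s := by
      intro n
      unfold rm Yn
      exact sum_congr rfl fun s hs => by rw [if_pos (hS1 s hs)]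
    set j := Nat.clog 2 x with hj
    have hjJ : j < J := by
      have : j ≤ Nat.clog 2 (X ^ 6) := Nat.clog_mono_right 2 hx
      omega
    have hS2 : F j S ≤ τ j := by
      by_contra hcon
      exact hSY.2 (mem_biUnion.2 ⟨j, mem_range.2 hjJ, mem_filter.2 ⟨hS, not_le.1 hcon⟩⟩)
    have hxj : x ≤ 2 ^ j := Nat.le_pow_clog (by norm_num) x
    have hjx : (2 : ℝ) ^ j / 2 ≤ x := by
      rcases Nat.lt_or_ge 1 x with h1 | h1
      · have h2 := Nat.pow_pred_clog_lt_self (by norm_num : 1 < 2) h1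
        have h3 : 1 ≤ Nat.clog 2 x := Nat.clog_pos (by norm_num) (by omega)
        rw [Nat.pred_eq_sub_one] at h2
        have h4 : 2 ^ j ≤ 2 * x := by
          calc 2 ^ j = 2 * 2 ^ (Nat.clog 2 x - 1) := by
                rw [← pow_succ', Nat.sub_add_cancel h3]
            _ ≤ 2 * x := Nat.mul_le_mul_left 2 h2.le
        have h5 : (2 : ℝ) ^ j ≤ 2 * x := by exact_mod_cast h4
        linarith
      · have h2 : x = 1 := by omega
        have h3 : j = 0 := by rw [hj, h2]; exact Nat.clog_of_right_le_one le_rfl 2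
        rw [h3, h2]
        norm_num
    calc ∑ n ∈ Icc 1 x, rm z S n ^ (8 * q) ≤ ∑ n ∈ Icc 1 (2 ^ j), rm z S n ^ (8 * q) := by
          refine sum_le_sum_of_subset_of_nonneg (Icc_subset_Icc_right hxj) fun n _ _ => ?_
          rw [show 8 * q = 2 * (4 * q) by ring, pow_mul]
          positivity
      _ = F j S := by
          simp only [hF]
          exact sum_congr rfl fun n _ => by rw [hrm]
      _ ≤ τ j := hS2
      _ ≤ x * ((D / L) ^ (4 * q) / L ^ q) := by
          simp only [hτ]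
          exact mul_le_mul_of_nonneg_right hjx (by positivity)

end SampAux

open SampAux in
theorem samp (q A K : ℕ) (hq : A + 3 ≤ q) : ∃ A0 B1 : ℕ, ∀ A' : ℕ, A0 ≤ A' → ∃ x0 : ℕ, ∀ X : ℕ, x0 ≤ X →
    ∀ D : ℕ, (D : ℝ) ≤ Real.log X ^ K →
    ∃ Y ⊆ (Icc 1 X).powersetCard D, (Y.card : ℝ) ≤ ((Icc 1 X).powersetCard D).card / Real.log X ^ A ∧
    ∀ S ∈ (Icc 1 X).powersetCard D, S ∉ Y →
      (∀ s ∈ S, (X : ℝ) ≤ s * Real.log X ^ B1) ∧
      ∀ x : ℕ, x ≤ X ^ 6 →
        ∑ n ∈ Icc 1 x, rm (zA A' (X ^ 6)) S n ^ (8 * q) ≤ x * ((D / Real.log X) ^ (4 * q) / Real.log X ^ q) := by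
  obtain ⟨A0, hA0⟩ := mean_y (K + 2) (A + K + 2)
  refine ⟨A0, A + K + 2, fun A' hA' => ?_⟩
  obtain ⟨C, hC, hmom⟩ := rand_moment (4 * q)
  have hlog : Tendsto (fun X : ℕ => Real.log X) atTop atTop :=
    Real.tendsto_log_atTop.comp tendsto_natCast_atTop_atTop
  have e1 := g_small A' (A + K + 2)
  have e2 := hA0 A' hA'
  have e3 : ∀ᶠ X : ℕ in atTop, 16 ≤ Real.log X := hlog.eventually_ge_atTop 16
  have e4 : ∀ᶠ X : ℕ in atTop, ((A + K + 2 : ℕ) : ℝ) * Real.log (Real.log X) ≤ Real.log X / 2 := by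
    have h1 := Real.isLittleO_log_id_atTop.def
      (show (0 : ℝ) < 1 / (2 * (((A + K + 2 : ℕ) : ℝ) + 1)) by positivity)
    have h2 := hlog.eventually h1
    filter_upwards [h2, e3] with X h3 h4
    have h5 : 0 < Real.log (X : ℝ) := by linarith
    simp only [id, Real.norm_eq_abs, abs_of_pos h5] at h3
    have h6 := (le_abs_self _).trans h3
    have h7 : (0 : ℝ) ≤ ((A + K + 2 : ℕ) : ℝ) := Nat.cast_nonneg _
    calc ((A + K + 2 : ℕ) : ℝ) * Real.log (Real.log X) ≤
          ((A + K + 2 : ℕ) : ℝ) * (1 / (2 * (((A + K + 2 : ℕ) : ℝ) + 1)) * Real.log X) :=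
          mul_le_mul_of_nonneg_left h6 h7
      _ = ((A + K + 2 : ℕ) : ℝ) / (((A + K + 2 : ℕ) : ℝ) + 1) * (Real.log X / 2) := by
          field_simp
      _ ≤ 1 * (Real.log X / 2) := by
          refine mul_le_mul_of_nonneg_right ?_ (by linarith)
          rw [div_le_one (by positivity)]
          linarith
      _ = Real.log X / 2 := one_mul _
  have e5 : ∀ᶠ X : ℕ in atTop, 1 + 20 * C ≤ Real.log X := hlog.eventually_ge_atTop _
  have e6 : ∀ᶠ X : ℕ in atTop, 2 * Real.log X ^ (2 * K) ≤ X := by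
    have h1 : Tendsto (fun x : ℝ => Real.log x ^ (2 * K) / x) atTop (nhds 0) := by
      have := Real.isLittleO_pow_log_id_atTop (n := 2 * K)
      simpa using this.tendsto_div_nhds_zero
    have h2 : ∀ᶠ x : ℝ in atTop, Real.log x ^ (2 * K) / x ≤ 1 / 2 :=
      (h1.eventually (gt_mem_nhds (show (0 : ℝ) < 1 / 2 by norm_num))).mono fun x hx => hx.le
    have h3 := tendsto_natCast_atTop_atTop.eventually (h2.and (eventually_gt_atTop (0 : ℝ)))
    filter_upwards [h3] with X hX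
    obtain ⟨h4, h5⟩ := hX
    rw [div_le_iff₀ h5] at h4
    linarith
  obtain ⟨x0, hx0⟩ := eventually_atTop.1 (e1.and (e2.and (e3.and (e4.and (e5.and e6)))))
  refine ⟨x0, fun X hX D hD => ?_⟩
  obtain ⟨h1, h2, h3, h4, h5, h6⟩ := hx0 X hX
  rcases Nat.eq_zero_or_pos D with rfl | hD1
  · refine ⟨∅, empty_subset _, ?_, ?_⟩
    · simp only [card_empty, Nat.cast_zero]
      have : 0 < Real.log (X : ℝ) := by linarith
      positivity
    · intro S hS _
      rw [powersetCard_zero, mem_singleton] at hS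
      subst hS
      refine ⟨fun s hs => absurd hs (notMem_empty s), fun x _ => ?_⟩
      have h7 : ∀ n, rm (zA A' (X ^ 6)) ∅ n = 0 := fun n => by
        unfold rm
        exact sum_empty
      have h8 : 8 * q ≠ 0 := by omega
      have h9 : 4 * q ≠ 0 := by omega
      simp [h7, h8, h9]
  · exact core hq hC hmom h1 h2 h3 h4 h5 h6 hD hD1

end Pool.Agent.SHP
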