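import Pool.Agent.Lib.SHP.Comp
import Pool.Agent.Lib.SHP.Samp
import Pool.Agent.Lib.SHP.Dens
import Pool.Agent.Lib.SHP.Pois
import Pool.Agent.Lib.SHP.Gauss

/-!
# Assembly
-/

set_option autoImplicit false

open Finset Filter

namespace Pool.Agent.SHP

open Pool.Agent.HLB Pool.Agent.HL Pool.Agent.HLT Pool.Agent.HLU Pool.Agent.VN

theorem main (R K A : ℕ) (ε η lam : ℝ) (hε : 0 < ε) (hη : 0 < η) (hlam : 0 < lam) : ∃ (Lam : ℝ) (x0 : ℕ), ∀ X : ℕ, x0 ≤ X →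
    ∀ D : ℕ, (D : ℝ) ≤ Real.log X ^ K →
    ∃ Y ⊆ (Icc 1 X).powersetCard D, (Y.card : ℝ) ≤ ((Icc 1 X).powersetCard D).card / Real.log X ^ A ∧
    ∀ S ∈ (Icc 1 X).powersetCard D, S ∉ Y →
      ∀ x : ℕ, (X : ℝ) ^ (1 / 6 + ε) ≤ x → (x : ℝ) ^ (1 / 6 + ε) ≤ X →
        (∀ r : ℕ, 1 ≤ r → r ≤ R → ∀ f : Fin r → ℕ, Function.Injective f → (∀ i, f i ∈ S) → ∀ y : ℕ, y ≤ x →
          |(((Icc 1 y).filter (fun n : ℕ => ∀ i, (n + f i).Prime)).card : ℝ) - SI f * ∑ n ∈ Icc 2 y, hl univ f n| ≤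
            x / Real.log x ^ A) ∧
        ((D : ℝ) ≤ lam * Real.log X → ∀ k : ℕ, k ≤ R →
          |(((Icc 1 x).filter (fun n => np S n = k)).card : ℝ) / x -
            Real.exp (-mu X D x) * mu X D x ^ k / (k.factorial : ℝ)| ≤ η) ∧
        (Lam * Real.log X ≤ D → ∀ k : ℕ, k ≤ R →
          |(∑ n ∈ Icc 1 x, (((np S n : ℝ) - ms S n) / √(mu X D x)) ^ k) / x - gm k| ≤ η) := by
  classical
  obtain ⟨R1, q1, A1, hp⟩ := loc_poisson R lam η hlam hη
  obtain ⟨Lam, q2, A2, hg⟩ := loc_gauss R K η hη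
  obtain ⟨q, hqd⟩ : ∃ q : ℕ, q = max (max q1 q2) (A + 4) := ⟨_, rfl⟩
  obtain ⟨R', hRd⟩ : ∃ R' : ℕ, R' = max R R1 := ⟨_, rfl⟩
  obtain ⟨A'', hAd⟩ : ∃ A'' : ℕ, A'' = max (A + 1) (max A1 A2) := ⟨_, rfl⟩
  have hA1 : A + 1 ≤ A'' := by rw [hAd]; exact le_max_left _ _
  have hA2 : A1 ≤ A'' := by rw [hAd]; exact (le_max_left _ _).trans (le_max_right _ _)
  have hA3 : A2 ≤ A'' := by rw [hAd]; exact (le_max_right _ _).trans (le_max_right _ _)
  have hR1 : R ≤ R' := by rw [hRd]; exact le_max_left _ _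
  have hR2 : R1 ≤ R' := by rw [hRd]; exact le_max_right _ _
  have hq1 : q1 ≤ q := by rw [hqd]; exact (le_max_left _ _).trans (le_max_left _ _)
  have hq2 : q2 ≤ q := by rw [hqd]; exact (le_max_right _ _).trans (le_max_left _ _)
  have hq3 : A + 1 + 3 ≤ q := by rw [hqd]; exact le_max_right _ _
  obtain ⟨L1, hp⟩ := hp q hq1
  obtain ⟨L2, hg⟩ := hg q hq2
  obtain ⟨A3, hc⟩ := comp_sets R' A'' K ε hε
  obtain ⟨A4, B1, hs⟩ := samp q (A + 1) K hq3
  obtain ⟨x1, hc⟩ := hc (max A3 A4) (le_max_left _ _)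
  obtain ⟨x2, hs⟩ := hs (max A3 A4) (le_max_right _ _)
  obtain ⟨x3, hd⟩ := eventually_atTop.mp (((dens B1).and (g_small (max A3 A4) B1)).and (ev_log (max 12 (max L1 L2))))
  refine ⟨Lam, max (max x1 x2) (max x3 1), fun X hX D hD => ?_⟩
  obtain ⟨Y1, a1, a2, a3⟩ := hc X (le_trans (le_trans (le_max_left _ _) (le_max_left _ _)) hX) D hD
  obtain ⟨Y2, b1, b2, b3⟩ := hs X (le_trans (le_trans (le_max_right _ _) (le_max_left _ _)) hX) D hD
  obtain ⟨⟨hde, hgs⟩, hlog⟩ := hd X (le_trans (le_trans (le_max_left _ _) (le_max_right _ _)) hX)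
  have hX1 : 1 ≤ X := le_trans (le_trans (le_max_right _ _) (le_max_right _ _)) hX
  have hL : 12 ≤ Real.log X := (le_max_left _ _).trans hlog
  have hLL1 : L1 ≤ Real.log X := ((le_max_left _ _).trans (le_max_right _ _)).trans hlog
  have hLL2 : L2 ≤ Real.log X := ((le_max_right _ _).trans (le_max_right _ _)).trans hlog
  have hL0 : 0 < Real.log X := by linarith
  have hL1 : 1 ≤ Real.log X := by linarith
  have hXr : (0 : ℝ) < X := by exact_mod_cast hX1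
  have hXr1 : (1 : ℝ) ≤ X := by exact_mod_cast hX1
  refine ⟨Y1 ∪ Y2, Finset.union_subset a1 b1, ?_, fun S hS hSY x hx1 hx2 => ?_⟩
  · have g1 : ((Y1 ∪ Y2).card : ℝ) ≤ Y1.card + Y2.card := by exact_mod_cast Finset.card_union_le _ _
    set N : ℝ := (((Icc 1 X).powersetCard D).card : ℝ) with hN
    have hN0 : 0 ≤ N := Nat.cast_nonneg _
    have g2 : N / Real.log X ^ A'' ≤ N / Real.log X ^ (A + 1) :=
      div_le_div_of_nonneg_left hN0 (by positivity) (pow_le_pow_right₀ hL1 hA1)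
    have g3 : N / Real.log X ^ (A + 1) + N / Real.log X ^ (A + 1) ≤ N / Real.log X ^ A := by
      rw [← two_mul, mul_div_assoc', div_le_div_iff₀ (by positivity) (by positivity), pow_succ (Real.log X) A]
      have : 0 ≤ N * Real.log X ^ A := by positivity
      nlinarith
    linarith
  · rw [Finset.mem_union, not_or] at hSY
    obtain ⟨hlow, hrem⟩ := b3 S hS hSY.2
    obtain ⟨hHL, hcorr⟩ := a3 S hS hSY.1 x hx1 hx2
    obtain ⟨hSX, hSD⟩ := Finset.mem_powersetCard.mp hS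
    have hxr1 : (1 : ℝ) ≤ x := (Real.one_le_rpow hXr1 (by linarith)).trans hx1
    have hx1' : 1 ≤ x := by exact_mod_cast hxr1
    have hxr0 : (0 : ℝ) < x := by linarith
    have hlx : 1 ≤ Real.log x := by
      have h5 := Real.log_le_log (by positivity) hx1
      rw [Real.log_rpow hXr] at h5
      nlinarith
    have hxX : x ≤ X ^ 6 := by
      have h5 : (x : ℝ) ^ (1 / 6 : ℝ) ≤ X :=
        (Real.rpow_le_rpow_of_exponent_le hxr1 (by linarith)).trans hx2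
      have h6 : ((x : ℝ) ^ (1 / 6 : ℝ)) ^ 6 ≤ (X : ℝ) ^ 6 := pow_le_pow_left₀ (by positivity) h5 6
      rw [← Real.rpow_natCast ((x : ℝ) ^ (1 / 6 : ℝ)) 6, ← Real.rpow_mul hxr0.le] at h6
      norm_num at h6
      exact_mod_cast h6
    obtain ⟨hm1, hm2⟩ := hde S hSX hlow
    rw [hSD] at hm1
    have hm3 := hm2 x
    rw [hSD] at hm3
    have hloc : ∀ R₀ : ℕ, R₀ ≤ R' → Loc R₀ q A'' X D x (zA (max A3 A4) (X ^ 6)) S := by
      intro R₀ hR₀
      refine ⟨hSD, fun s hs => (Finset.mem_Icc.mp (hSX hs)).1, fun T hT hTc => hcorr T hT (hTc.trans hR₀), hrem x hxX,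
        fun n hn s hs => ?_, fun n hn => hm1 n (Finset.mem_Icc.mp hn).1, hm3⟩
      refine hgs (n + s) ((hlow s hs).trans ?_)
      refine mul_le_mul_of_nonneg_right ?_ (by positivity)
      push_cast
      have : (0 : ℝ) ≤ n := Nat.cast_nonneg n
      linarith
    refine ⟨fun r hr1 hr2 f hf hfS y hy => ?_, fun hDl k hk => ?_, fun hDl k hk => ?_⟩
    · refine (hHL r hr1 (hr2.trans hR1) f hf hfS y hy).trans ?_
      exact div_le_div_of_nonneg_left hxr0.le (by positivity) (pow_le_pow_right₀ hlx (by omega))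
    · exact hp X D x _ A'' S hA2 hX1 hx1' hLL1 hDl (hloc R1 hR2) k hk
    · exact hg X D x _ A'' S hA3 hX1 hx1' hxX hLL2 hDl hD (hloc R hR1) k hk

end Pool.Agent.SHP
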