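import Pool.Agent.Lib.SHP.Final
import Pool.Agent.Lib.SHZ.All0

/-!
# Assembly with the element `0`
-/

set_option autoImplicit false

open Finset Filter

namespace Pool.Agent.SHP

open Pool.Agent.HLB Pool.Agent.HL Pool.Agent.HLT Pool.Agent.HLU Pool.Agent.VN

open SHZ (HLy)

lemma HLy_perm {r : ℕ} (s : Fin r → ℕ) (e : Equiv.Perm (Fin r)) (y : ℕ) (E : ℝ) (h : HLy s y E) :
    HLy (fun i => s (e i)) y E := by
  unfold SHZ.HLy at h ⊢
  have h1 : SI (fun i => s (e i)) = SI s := by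
    unfold SI
    simp only [locI_comp e s]
  have h2 : (Icc 1 y).filter (fun n : ℕ => ∀ i, (n + s (e i)).Prime) =
      (Icc 1 y).filter (fun n : ℕ => ∀ i, (n + s i).Prime) := by
    refine Finset.filter_congr fun n _ => ?_
    exact e.forall_congr_left (p := fun i => (n + s (e i)).Prime) |>.trans (by simp)
  have h3 : ∀ n : ℕ, hl univ (fun i => s (e i)) n = hl univ s n := by
    intro n
    unfold hl
    exact Equiv.prod_comp e (fun i => 1 / Real.log ((n + s i : ℕ) : ℝ))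
  rw [h1, h2]
  simp only [h3]
  exact h

/-- Every injective tuple from `insert 0 S`. -/
lemma HLy_insert {R : ℕ} {S : Finset ℕ} {y : ℕ} {E : ℝ}
    (h1 : ∀ r : ℕ, 1 ≤ r → r ≤ R → ∀ f : Fin r → ℕ, Function.Injective f → (∀ i, f i ∈ S) → HLy f y E)
    (h2 : ∀ m : ℕ, m ≤ R → ∀ f : Fin m → ℕ, Function.Injective f → (∀ i, f i ∈ S) →
      HLy (Fin.cons 0 f : Fin (m + 1) → ℕ) y E) :
    ∀ r : ℕ, 1 ≤ r → r ≤ R → ∀ f : Fin r → ℕ, Function.Injective f → (∀ i, f i ∈ insert 0 S) → HLy f y E := by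
  intro r hr1 hr2 f hf hfS
  by_cases h0 : ∃ i, f i = 0
  · obtain ⟨i0, hi0⟩ := h0
    obtain ⟨m, rfl⟩ : ∃ m, r = m + 1 := ⟨r - 1, by omega⟩
    set g : Fin m → ℕ := fun j => f (i0.succAbove j) with hg
    have hgS : ∀ j, g j ∈ S := by
      intro j
      rcases Finset.mem_insert.mp (hfS (i0.succAbove j)) with h | h
      · exfalso
        have h3 : f (i0.succAbove j) = f i0 := by rw [h, hi0]
        exact Fin.succAbove_ne i0 j (hf h3)
      · exact h
    have hginj : Function.Injective g := fun a b hab => Fin.succAbove_right_injective (hf hab)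
    have h3 := HLy_perm _ i0.cycleRange y E (h2 m (by omega) g hginj hgS)
    have h4 : (fun i => (Fin.cons 0 g : Fin (m + 1) → ℕ) (i0.cycleRange i)) = f := by
      funext i
      rcases eq_or_ne i i0 with rfl | hne
      · rw [Fin.cycleRange_self, Fin.cons_zero, hi0]
      · obtain ⟨j, rfl⟩ := Fin.exists_succAbove_eq hne
        rw [Fin.cycleRange_succAbove, Fin.cons_succ]
    rwa [h4] at h3
  · push Not at h0
    refine h1 r hr1 hr2 f hf fun i => ?_
    rcases Finset.mem_insert.mp (hfS i) with h | h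
    · exact absurd h (h0 i)
    · exact h

theorem main0 (R K A : ℕ) (ε η lam : ℝ) (hε : 0 < ε) (hη : 0 < η) (hlam : 0 < lam) : ∃ (Lam : ℝ) (x0 : ℕ), ∀ X : ℕ, x0 ≤ X →
    ∀ D : ℕ, (D : ℝ) ≤ Real.log X ^ K →
    ∃ Y ⊆ (Icc 1 X).powersetCard D, (Y.card : ℝ) ≤ ((Icc 1 X).powersetCard D).card / Real.log X ^ A ∧
    ∀ S ∈ (Icc 1 X).powersetCard D, S ∉ Y →
      ∀ x : ℕ, (X : ℝ) ^ (1 / 6 + ε) ≤ x → (x : ℝ) ^ (1 / 6 + ε) ≤ X →
        (∀ r : ℕ, 1 ≤ r → r ≤ R → ∀ f : Fin r → ℕ, Function.Injective f → (∀ i, f i ∈ insert 0 S) →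
          ∀ y : ℕ, y ≤ x → HLy f y (x / Real.log x ^ A)) ∧
        ((D : ℝ) ≤ lam * Real.log X → ∀ k : ℕ, k ≤ R →
          |(((Icc 1 x).filter (fun n => np S n = k)).card : ℝ) / x -
            Real.exp (-mu X D x) * mu X D x ^ k / (k.factorial : ℝ)| ≤ η) ∧
        (Lam * Real.log X ≤ D → ∀ k : ℕ, k ≤ R →
          |(∑ n ∈ Icc 1 x, (((np S n : ℝ) - ms S n) / √(mu X D x)) ^ k) / x - gm k| ≤ η) := by
  classical
  obtain ⟨Lam, x1, h1⟩ := main R K (A + 1) ε η lam hε hη hlam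
  obtain ⟨x2, h2⟩ := SHZ.good_sets0_all R (A + 1) K ε hε
  obtain ⟨x3, h3⟩ := eventually_atTop.mp (ev_log 12)
  refine ⟨Lam, max (max x1 x2) (max x3 1), fun X hX D hD => ?_⟩
  obtain ⟨Y1, a1, a2, a3⟩ := h1 X (le_trans (le_trans (le_max_left _ _) (le_max_left _ _)) hX) D hD
  obtain ⟨Y2, b1, b2, b3⟩ := h2 X (le_trans (le_trans (le_max_right _ _) (le_max_left _ _)) hX) D hD
  have hL : 12 ≤ Real.log X := h3 X (le_trans (le_trans (le_max_left _ _) (le_max_right _ _)) hX)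
  have hX1 : 1 ≤ X := le_trans (le_trans (le_max_right _ _) (le_max_right _ _)) hX
  have hL0 : 0 < Real.log X := by linarith
  have hXr : (0 : ℝ) < X := by exact_mod_cast hX1
  have hXr1 : (1 : ℝ) ≤ X := by exact_mod_cast hX1
  refine ⟨Y1 ∪ Y2, Finset.union_subset a1 b1, ?_, fun S hS hSY x hx1 hx2 => ?_⟩
  · have g1 : ((Y1 ∪ Y2).card : ℝ) ≤ Y1.card + Y2.card := by exact_mod_cast Finset.card_union_le _ _
    set N : ℝ := (((Icc 1 X).powersetCard D).card : ℝ) with hN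
    have hN0 : 0 ≤ N := Nat.cast_nonneg _
    have g3 : N / Real.log X ^ (A + 1) + N / Real.log X ^ (A + 1) ≤ N / Real.log X ^ A := by
      rw [← two_mul, mul_div_assoc', div_le_div_iff₀ (by positivity) (by positivity), pow_succ (Real.log X) A]
      have : 0 ≤ N * Real.log X ^ A := by positivity
      nlinarith
    linarith
  · rw [Finset.mem_union, not_or] at hSY
    obtain ⟨g1, g2, g3⟩ := a3 S hS hSY.1 x hx1 hx2
    refine ⟨?_, g2, g3⟩
    have hxr1 : (1 : ℝ) ≤ x := (Real.one_le_rpow hXr1 (by linarith)).trans hx1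
    have hlx : 1 ≤ Real.log x := by
      have h5 := Real.log_le_log (by positivity) hx1
      rw [Real.log_rpow hXr] at h5
      nlinarith
    have hle : (x : ℝ) / Real.log x ^ (A + 1) ≤ x / Real.log x ^ A :=
      div_le_div_of_nonneg_left (by linarith) (by positivity) (pow_le_pow_right₀ hlx (by omega))
    intro r hr1 hr2 f hf hfS y hy
    refine HLy_insert (R := R) (S := S) (fun r hr1 hr2 f hf hfS => ?_) (fun m hm f hf hfS => ?_) r hr1 hr2 f hf hfS
    · exact (g1 r hr1 hr2 f hf hfS y hy).trans hle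
    · have h6 := b3 S hS hSY.2 m hm f hf hfS x hx1 hx2 y hy
      unfold SHZ.HLy at h6 ⊢
      exact h6.trans hle

end Pool.Agent.SHP
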