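import Pool.Agent.Lib.SHP.Defs
import Pool.Agent.Lib.SHT.Final

/-!
# Module Good: the Hardy-Littlewood formula for all tuples of almost every set of `D ≤ L^K` integers, all scales

`SHT.all_x m (A + K (m + 1) + 1) ε` and `VN.subsets_bad_r (m + 1)` (see the end of the proof of `VN.fin_s` in `Lib/VN/Every.lean`; here `T = Icc 1 X`).
-/

set_option autoImplicit false

open Finset Filter

namespace Pool.Agent.SHP

open Pool.Agent.HLB Pool.Agent.HL Pool.Agent.HLT Pool.Agent.HLU Pool.Agent.VN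

theorem good_sets (m A K : ℕ) (ε : ℝ) (hε : 0 < ε) : ∃ x0 : ℕ, ∀ X : ℕ, x0 ≤ X → ∀ D : ℕ, (D : ℝ) ≤ Real.log X ^ K →
    ∃ Y ⊆ (Icc 1 X).powersetCard D, (Y.card : ℝ) ≤ ((Icc 1 X).powersetCard D).card / Real.log X ^ A ∧
    ∀ S ∈ (Icc 1 X).powersetCard D, S ∉ Y → ∀ f : Fin (m + 1) → ℕ, Function.Injective f → (∀ i, f i ∈ S) →
      ∀ x : ℕ, (X : ℝ) ^ (1 / 6 + ε) ≤ x → (x : ℝ) ^ (1 / 6 + ε) ≤ X → ∀ y : ℕ, y ≤ x →
        |(((Icc 1 y).filter (fun n : ℕ => ∀ i, (n + f i).Prime)).card : ℝ) - SI f * ∑ n ∈ Icc 2 y, hl univ f n| ≤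
          x / Real.log x ^ A := by
  classical
  obtain ⟨x1, h1⟩ := SHT.all_x m (A + K * (m + 1)) ε hε
  obtain ⟨x2, h2⟩ := eventually_atTop.mp (ev_log 12)
  refine ⟨max (max x1 x2) 1, fun X hX D hD => ?_⟩
  obtain ⟨E, e1, e2, e3⟩ := h1 X (le_trans (le_trans (le_max_left _ _) (le_max_left _ _)) hX)
  have hL : 12 ≤ Real.log X := h2 X (le_trans (le_trans (le_max_right _ _) (le_max_left _ _)) hX)
  have hX1 : 1 ≤ X := le_trans (le_max_right _ _) hX
  have hXr : (0 : ℝ) < X := by exact_mod_cast hX1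
  have hL0 : 0 < Real.log X := by linarith
  have hL1 : 1 ≤ Real.log X := by linarith
  set P : Finset (Fin (m + 1) → ℕ) := E.filter Function.Injective with hP
  set Y : Finset (Finset ℕ) := ((Icc 1 X).powersetCard D).filter (fun S => ∃ f ∈ P, ∀ i, f i ∈ S) with hY
  have hPc : (P.card : ℝ) ≤ (X : ℝ) ^ (m + 1) / Real.log X ^ (A + K * (m + 1)) := by
    refine le_trans ?_ e2
    exact_mod_cast Finset.card_filter_le _ _
  have hY2 := subsets_bad_r (m + 1) (Icc 1 X) P D Y
    (fun f hf => ⟨(Finset.mem_filter.mp hf).2, Fintype.mem_piFinset.mp (e1 (Finset.mem_filter.mp hf).1)⟩)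
    (fun S hS => ⟨(Finset.mem_filter.mp hS).1, (Finset.mem_filter.mp hS).2⟩)
  rw [Nat.card_Icc, Nat.add_sub_cancel] at hY2
  refine ⟨Y, Finset.filter_subset _ _, ?_, fun S hS hSY f hf hfS x hx1 hx2 y hy => ?_⟩
  · have hN : (0 : ℝ) < (X : ℝ) ^ (m + 1) := by positivity
    refine le_of_mul_le_mul_right (hY2.trans ?_) hN
    have h3 : (D : ℝ) ^ (m + 1) ≤ Real.log X ^ (K * (m + 1)) := by
      rw [pow_mul]
      exact pow_le_pow_left₀ (Nat.cast_nonneg _) hD _
    calc (D : ℝ) ^ (m + 1) * P.card * ((Icc 1 X).powersetCard D).card ≤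
        Real.log X ^ (K * (m + 1)) * ((X : ℝ) ^ (m + 1) / Real.log X ^ (A + K * (m + 1))) *
          ((Icc 1 X).powersetCard D).card := by
          refine mul_le_mul_of_nonneg_right ?_ (Nat.cast_nonneg _)
          exact mul_le_mul h3 hPc (Nat.cast_nonneg _) (by positivity)
      _ = (((Icc 1 X).powersetCard D).card / Real.log X ^ A) * (X : ℝ) ^ (m + 1) := by
          have p1 : 0 < Real.log X ^ A := by positivity
          have p2 : 0 < Real.log X ^ (K * (m + 1)) := by positivity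
          rw [pow_add (Real.log X) A]
          generalize Real.log X ^ A = a at p1 ⊢
          generalize Real.log X ^ (K * (m + 1)) = b at p2 ⊢
          field_simp
  · have hfE : f ∉ E := by
      intro h3
      apply hSY
      rw [hY, Finset.mem_filter]
      exact ⟨hS, f, Finset.mem_filter.mpr ⟨h3, hf⟩, hfS⟩
    have hST := (Finset.mem_powersetCard.mp hS).1
    obtain ⟨_, h4⟩ := e3 f (Fintype.mem_piFinset.mpr fun i => hST (hfS i)) hfE
    refine (h4 x hx1 hx2 y hy).trans ?_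
    have hXr1 : (1 : ℝ) ≤ X := by exact_mod_cast hX1
    have hx0 : (1 : ℝ) ≤ x := (Real.one_le_rpow hXr1 (by linarith)).trans hx1
    have hlx : 1 ≤ Real.log x := by
      have h5 := Real.log_le_log (by positivity) hx1
      rw [Real.log_rpow hXr] at h5
      nlinarith
    exact div_le_div_of_nonneg_left (by linarith) (by positivity) (pow_le_pow_right₀ hlx (by omega))

end Pool.Agent.SHP
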