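import Pool.Agent.Lib.SHP.Defs

/-!
# Module Mac (pure): moments of sums over a random `D`-element subset

(1) For `w ≥ 0` on `Icc 1 X`, `2 D² ≤ X`: `∑_{S ∈ powersetCard D (Icc 1 X)} ∏_{s ∈ S} w s ≤ 2 #(powersetCard D (Icc 1 X)) ((∑ w) / X)^D`. Indeed `D! ∑_S ∏_S w ≤ (∑ w)^D` (induction on `D`, or
`Finset.sum_pow`-type expansion over injective functions `Fin D → Icc 1 X`), and `D! choose X D ≥ (X - D)^D ≥ X^D (1 - D² / X) ≥ X^D / 2` (Bernoulli).
(2) `t = 1 / (g √D)`. For real `u`: `u^(2p) ≤ (2p)! (exp u + exp (-u))`. `e^y ≤ 1 + y + y²` for `|y| ≤ 1`, so `(1/X) ∑_s exp (± t Y s) ≤ 1 + t δ + t² g² ≤ exp (t δ + t² g²)`; its `D`-th power is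
`exp (√D δ / g + 1) ≤ e²`. Hence `∑_S (∑_{s ∈ S} Y s)^(2p) ≤ (2p)! t^(-2p) 2 · 2 e² #(powersetCard ..)`, `t^(-2p) = g^(2p) D^p`.
-/

set_option autoImplicit false

open Finset Filter

namespace Pool.Agent.SHP

namespace MacAux

theorem bern (T w : ℝ) (hT : 0 ≤ T) (hw : 0 ≤ w) (D : ℕ) :
    T ^ (D + 1) + (D + 1) * w * T ^ D ≤ (T + w) ^ (D + 1) := by
  induction D with
  | zero => simp
  | succ D ih =>
    have h1 : (T + w) * (T ^ (D + 1) + (D + 1) * w * T ^ D) ≤ (T + w) ^ (D + 1 + 1) := by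
      rw [pow_succ (T + w) (D + 1), mul_comm]
      exact mul_le_mul_of_nonneg_right ih (by positivity)
    have h2 : 0 ≤ ((D : ℝ) + 1) * w ^ 2 * T ^ D := by positivity
    push_cast
    calc T ^ (D + 1 + 1) + ((D : ℝ) + 1 + 1) * w * T ^ (D + 1)
        ≤ T ^ (D + 1 + 1) + ((D : ℝ) + 1 + 1) * w * T ^ (D + 1) + ((D : ℝ) + 1) * w ^ 2 * T ^ D := by
          linarith
      _ = (T + w) * (T ^ (D + 1) + (D + 1) * w * T ^ D) := by ring
      _ ≤ _ := h1

theorem esymm_le (w : ℕ → ℝ) (s : Finset ℕ) (hw : ∀ i ∈ s, 0 ≤ w i) (D : ℕ) :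
    (D.factorial : ℝ) * ∑ S ∈ s.powersetCard D, ∏ i ∈ S, w i ≤ (∑ i ∈ s, w i) ^ D := by
  classical
  induction s using Finset.induction_on generalizing D with
  | empty =>
    cases D with
    | zero => simp
    | succ D => simp [Finset.powersetCard_eq_empty.2]
  | insert x s hx ih =>
    have hws : ∀ i ∈ s, 0 ≤ w i := fun i hi => hw i (Finset.mem_insert_of_mem hi)
    have hwx : 0 ≤ w x := hw x (Finset.mem_insert_self _ _)
    cases D with
    | zero => simp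
    | succ D =>
      have hT : 0 ≤ ∑ i ∈ s, w i := Finset.sum_nonneg hws
      have hdisj : Disjoint (s.powersetCard (D + 1)) ((s.powersetCard D).image (insert x)) := by
        rw [Finset.disjoint_left]
        intro S hS hS'
        obtain ⟨S', _, rfl⟩ := Finset.mem_image.1 hS'
        exact hx ((Finset.mem_powersetCard.1 hS).1 (Finset.mem_insert_self _ _))
      have hinj : Set.InjOn (insert x) (s.powersetCard D : Set (Finset ℕ)) := by
        intro S hS S' hS' h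
        have h1 : x ∉ S := fun h2 => hx ((Finset.mem_powersetCard.1 (Finset.mem_coe.1 hS)).1 h2)
        have h2 : x ∉ S' := fun h2 => hx ((Finset.mem_powersetCard.1 (Finset.mem_coe.1 hS')).1 h2)
        have h3 := congrArg (fun U => Finset.erase U x) h
        simpa [Finset.erase_insert h1, Finset.erase_insert h2] using h3
      rw [Finset.powersetCard_succ_insert hx, Finset.sum_union hdisj, Finset.sum_image hinj,
        Finset.sum_insert hx]
      have h1 : ∑ S ∈ s.powersetCard D, ∏ i ∈ insert x S, w i =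
          w x * ∑ S ∈ s.powersetCard D, ∏ i ∈ S, w i := by
        rw [Finset.mul_sum]
        refine Finset.sum_congr rfl fun S hS => ?_
        rw [Finset.prod_insert fun h2 => hx ((Finset.mem_powersetCard.1 hS).1 h2)]
      rw [h1]
      have i1 := ih hws (D + 1)
      have i2 := ih hws D
      have i3 : ((D : ℝ) + 1) * w x * ((D.factorial : ℝ) * ∑ S ∈ s.powersetCard D, ∏ i ∈ S, w i) ≤
          ((D : ℝ) + 1) * w x * (∑ i ∈ s, w i) ^ D :=
        mul_le_mul_of_nonneg_left i2 (by positivity)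
      have i4 := bern (∑ i ∈ s, w i) (w x) hT hwx D
      rw [Nat.factorial_succ] at i1 ⊢
      push_cast at i1 ⊢
      rw [add_comm (w x)]
      nlinarith

theorem choose_ge (X D : ℕ) (hD : 1 ≤ D) (hX : 2 * D ^ 2 ≤ X) :
    (X : ℝ) ^ D ≤ 2 * ((D.factorial : ℝ) * (X.choose D : ℝ)) := by
  have hXD : D ≤ X := by nlinarith
  have hX0 : (0 : ℝ) < X := by
    have : 0 < X := by nlinarith
    exact_mod_cast this
  have h1 : (X + 1 - D) ^ D ≤ X.descFactorial D := Nat.pow_sub_le_descFactorial X D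
  have h2 : X.descFactorial D = D.factorial * X.choose D := Nat.descFactorial_eq_factorial_mul_choose X D
  have h3 : ((X : ℝ) - D) ^ D ≤ (D.factorial : ℝ) * (X.choose D : ℝ) := by
    have h4 : (((X + 1 - D) ^ D : ℕ) : ℝ) ≤ ((D.factorial * X.choose D : ℕ) : ℝ) := by
      exact_mod_cast h2 ▸ h1
    push_cast at h4
    refine le_trans ?_ h4
    have h5 : (0 : ℝ) ≤ (X : ℝ) - D := by
      have : (D : ℝ) ≤ X := by exact_mod_cast hXD
      linarith
    refine pow_le_pow_left₀ h5 ?_ D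
    have h6 : ((X + 1 - D : ℕ) : ℝ) = (X : ℝ) + 1 - D := by
      rw [Nat.cast_sub (by omega)]; push_cast; ring
    rw [h6]; linarith
  have hDX : (D : ℝ) / X ≤ 1 := by
    rw [div_le_one hX0]; exact_mod_cast hXD
  have h7 : 1 + (D : ℝ) * (-((D : ℝ) / X)) ≤ (1 + -((D : ℝ) / X)) ^ D :=
    one_add_mul_le_pow (by linarith) D
  have h8 : (D : ℝ) * ((D : ℝ) / X) ≤ 1 / 2 := by
    rw [mul_div_assoc', div_le_div_iff₀ hX0 (by norm_num)]
    have : (2 * D ^ 2 : ℝ) ≤ X := by exact_mod_cast hX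
    nlinarith
  have h9 : (1 : ℝ) / 2 ≤ (1 + -((D : ℝ) / X)) ^ D := by linarith
  have h10 : ((X : ℝ) - D) ^ D = (X : ℝ) ^ D * (1 + -((D : ℝ) / X)) ^ D := by
    rw [← mul_pow]; congr 1; field_simp; ring
  have h11 : (X : ℝ) ^ D * (1 / 2) ≤ (X : ℝ) ^ D * (1 + -((D : ℝ) / X)) ^ D :=
    mul_le_mul_of_nonneg_left h9 (by positivity)
  linarith

theorem mac (w : ℕ → ℝ) (X D : ℕ) (hD : 1 ≤ D) (hX : 2 * D ^ 2 ≤ X)
    (hw : ∀ i ∈ Icc 1 X, 0 ≤ w i) :
    ∑ S ∈ (Icc 1 X).powersetCard D, ∏ i ∈ S, w i ≤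
      2 * ((Icc 1 X).powersetCard D).card * ((∑ i ∈ Icc 1 X, w i) / X) ^ D := by
  have hX0 : (0 : ℝ) < X := by
    have : 0 < X := by nlinarith
    exact_mod_cast this
  have h1 := esymm_le w (Icc 1 X) hw D
  have h2 := choose_ge X D hD hX
  have hcard : (((Icc 1 X).powersetCard D).card : ℝ) = (X.choose D : ℝ) := by
    rw [Finset.card_powersetCard]; simp
  rw [hcard]
  set E := ∑ S ∈ (Icc 1 X).powersetCard D, ∏ i ∈ S, w i with hE
  set T := ∑ i ∈ Icc 1 X, w i with hT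
  have hT0 : 0 ≤ T := Finset.sum_nonneg hw
  have hF : (0 : ℝ) < (D.factorial : ℝ) := by exact_mod_cast D.factorial_pos
  have h3 : T ^ D = (X : ℝ) ^ D * (T / X) ^ D := by
    rw [← mul_pow]; congr 1; field_simp
  have h4 : (D.factorial : ℝ) * E ≤ (D.factorial : ℝ) * (2 * (X.choose D : ℝ) * (T / X) ^ D) := by
    calc (D.factorial : ℝ) * E ≤ T ^ D := h1
      _ = (X : ℝ) ^ D * (T / X) ^ D := h3
      _ ≤ 2 * ((D.factorial : ℝ) * (X.choose D : ℝ)) * (T / X) ^ D :=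
          mul_le_mul_of_nonneg_right h2 (by positivity)
      _ = _ := by ring
  exact le_of_mul_le_mul_left h4 hF

theorem exp_le (y : ℝ) (hy : |y| ≤ 1) : Real.exp y ≤ 1 + y + y ^ 2 := by
  have h := Real.abs_exp_sub_one_sub_id_le hy
  have := (abs_le.1 h).2
  linarith

theorem pow_le_exp (p : ℕ) (u : ℝ) :
    u ^ (2 * p) ≤ ((2 * p).factorial : ℝ) * (Real.exp u + Real.exp (-u)) := by
  have h1 := Real.pow_div_factorial_le_exp |u| (abs_nonneg u) (2 * p)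
  have hF : (0 : ℝ) < ((2 * p).factorial : ℝ) := by exact_mod_cast Nat.factorial_pos _
  rw [div_le_iff₀ hF] at h1
  have h2 : |u| ^ (2 * p) = u ^ (2 * p) := by
    rw [pow_mul, sq_abs, ← pow_mul]
  rw [h2] at h1
  have h3 : Real.exp |u| ≤ Real.exp u + Real.exp (-u) := by
    rcases abs_cases u with ⟨h, _⟩ | ⟨h, _⟩ <;> rw [h]
    · linarith [Real.exp_pos (-u)]
    · linarith [Real.exp_pos u]
  nlinarith

/-- the exponential moment -/
theorem exp_moment (X D : ℕ) (Y : ℕ → ℝ) (g δ t : ℝ) (hD : 1 ≤ D) (hX : 2 * D ^ 2 ≤ X)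
    (hY : ∀ s ∈ Icc 1 X, |Y s| ≤ g) (hS : |∑ s ∈ Icc 1 X, Y s| ≤ δ * X)
    (h1 : |t| * g ≤ 1) (h2 : D * (|t| * δ) ≤ 1) (h3 : D * (t ^ 2 * g ^ 2) ≤ 1) :
    ∑ S ∈ (Icc 1 X).powersetCard D, Real.exp (t * ∑ s ∈ S, Y s) ≤
      2 * ((Icc 1 X).powersetCard D).card * Real.exp 2 := by
  have hX0 : (0 : ℝ) < X := by
    have : 0 < X := by nlinarith
    exact_mod_cast this
  have e1 : ∀ S : Finset ℕ, Real.exp (t * ∑ s ∈ S, Y s) = ∏ s ∈ S, Real.exp (t * Y s) := by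
    intro S
    rw [Finset.mul_sum, Real.exp_sum]
  simp only [e1]
  refine (mac (fun s => Real.exp (t * Y s)) X D hD hX fun _ _ => (Real.exp_pos _).le).trans ?_
  refine mul_le_mul_of_nonneg_left ?_ (by positivity)
  have e2 : ∑ s ∈ Icc 1 X, Real.exp (t * Y s) ≤ X * (1 + (|t| * δ + t ^ 2 * g ^ 2)) := by
    have e3 : ∀ s ∈ Icc 1 X, Real.exp (t * Y s) ≤ 1 + t * Y s + t ^ 2 * g ^ 2 := by
      intro s hs
      have h4 : |t * Y s| ≤ 1 := by
        rw [abs_mul]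
        exact (mul_le_mul_of_nonneg_left (hY s hs) (abs_nonneg t)).trans h1
      have h5 := exp_le _ h4
      have h6 : (t * Y s) ^ 2 ≤ t ^ 2 * g ^ 2 := by
        rw [mul_pow]
        refine mul_le_mul_of_nonneg_left ?_ (sq_nonneg t)
        have := hY s hs
        calc Y s ^ 2 = |Y s| ^ 2 := (sq_abs _).symm
          _ ≤ g ^ 2 := pow_le_pow_left₀ (abs_nonneg _) this 2
      linarith
    refine (Finset.sum_le_sum e3).trans ?_
    rw [Finset.sum_add_distrib, Finset.sum_add_distrib, ← Finset.mul_sum]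
    simp only [Finset.sum_const, Nat.card_Icc, Nat.add_sub_cancel, nsmul_eq_mul, mul_one]
    have h7 : t * ∑ s ∈ Icc 1 X, Y s ≤ |t| * (δ * X) := by
      calc t * ∑ s ∈ Icc 1 X, Y s ≤ |t * ∑ s ∈ Icc 1 X, Y s| := le_abs_self _
        _ = |t| * |∑ s ∈ Icc 1 X, Y s| := abs_mul _ _
        _ ≤ _ := mul_le_mul_of_nonneg_left hS (abs_nonneg t)
    nlinarith
  have e4 : (∑ s ∈ Icc 1 X, Real.exp (t * Y s)) / X ≤ Real.exp (|t| * δ + t ^ 2 * g ^ 2) := by
    rw [div_le_iff₀ hX0]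
    have := Real.add_one_le_exp (|t| * δ + t ^ 2 * g ^ 2)
    nlinarith
  calc ((∑ s ∈ Icc 1 X, Real.exp (t * Y s)) / X) ^ D
      ≤ (Real.exp (|t| * δ + t ^ 2 * g ^ 2)) ^ D :=
        pow_le_pow_left₀ (div_nonneg (Finset.sum_nonneg fun _ _ => (Real.exp_pos _).le) hX0.le) e4 D
    _ = Real.exp (D * (|t| * δ + t ^ 2 * g ^ 2)) := by rw [← Real.exp_nat_mul]
    _ ≤ Real.exp 2 := Real.exp_le_exp.2 (by linarith)

end MacAux

open MacAux in
theorem rand_moment (p : ℕ) : ∃ C : ℝ, 0 < C ∧ ∀ (X D : ℕ) (Y : ℕ → ℝ) (g δ : ℝ), 1 ≤ D → 2 * D ^ 2 ≤ X → 0 < g →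
    (∀ s ∈ Icc 1 X, |Y s| ≤ g) → |∑ s ∈ Icc 1 X, Y s| ≤ δ * X → D * δ ^ 2 ≤ g ^ 2 →
    ∑ S ∈ (Icc 1 X).powersetCard D, (∑ s ∈ S, Y s) ^ (2 * p) ≤
      C * (g ^ 2 * D) ^ p * ((Icc 1 X).powersetCard D).card := by
  refine ⟨4 * ((2 * p).factorial : ℝ) * Real.exp 2, by positivity, ?_⟩
  intro X D Y g δ hD hX hg hY hS hδ
  have hX0 : (0 : ℝ) < X := by
    have : 0 < X := by nlinarith
    exact_mod_cast this
  have hD0 : (0 : ℝ) < D := by exact_mod_cast hD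
  have hδ0 : 0 ≤ δ := by
    by_contra h
    have : δ * X < 0 := mul_neg_of_neg_of_pos (not_le.1 h) hX0
    linarith [abs_nonneg (∑ s ∈ Icc 1 X, Y s)]
  have hsD : 0 < Real.sqrt D := Real.sqrt_pos.2 hD0
  have hsD2 : Real.sqrt D ^ 2 = D := Real.sq_sqrt hD0.le
  have hsD1 : 1 ≤ Real.sqrt D := by
    rw [Real.one_le_sqrt]; exact_mod_cast hD
  set t : ℝ := 1 / (g * Real.sqrt D) with ht
  have ht0 : 0 < t := by positivity
  have htg : t * g = 1 / Real.sqrt D := by rw [ht]; field_simp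
  have ht2 : t ^ 2 * g ^ 2 = 1 / D := by
    rw [← mul_pow, htg, div_pow, one_pow, hsD2]
  have c1 : |t| * g ≤ 1 := by
    rw [abs_of_pos ht0, htg]
    exact (div_le_one hsD).2 hsD1
  have c3 : D * (t ^ 2 * g ^ 2) ≤ 1 := by
    rw [ht2, mul_one_div, div_self hD0.ne']
  have c2 : D * (|t| * δ) ≤ 1 := by
    rw [abs_of_pos ht0]
    have h1 : (Real.sqrt D * δ) ^ 2 ≤ g ^ 2 := by rw [mul_pow, hsD2]; exact hδ
    have h2 : Real.sqrt D * δ ≤ g :=
      (pow_le_pow_iff_left₀ (by positivity) hg.le (by norm_num)).1 h1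
    have h3 : D * (t * δ) = Real.sqrt D * δ / g := by
      rw [ht]
      have : (D : ℝ) = Real.sqrt D * Real.sqrt D := by rw [← sq, hsD2]
      field_simp
      rw [hsD2]
    rw [h3]
    exact (div_le_one hg).2 h2
  have m1 := exp_moment X D Y g δ t hD hX hY hS c1 c2 c3
  have m2 := exp_moment X D Y g δ (-t) hD hX hY hS (by rwa [abs_neg]) (by rwa [abs_neg])
    (by rwa [neg_sq])
  have htp : t ^ (2 * p) * (g ^ 2 * D) ^ p = 1 := by
    rw [pow_mul, ← mul_pow, ← mul_assoc, ht2, one_div, inv_mul_cancel₀ hD0.ne', one_pow]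
  have hgp : 0 < (g ^ 2 * D) ^ p := by positivity
  have key : ∀ S : Finset ℕ, (∑ s ∈ S, Y s) ^ (2 * p) ≤ (g ^ 2 * D) ^ p *
      (((2 * p).factorial : ℝ) * (Real.exp (t * ∑ s ∈ S, Y s) + Real.exp (-t * ∑ s ∈ S, Y s))) := by
    intro S
    have h1 := pow_le_exp p (t * ∑ s ∈ S, Y s)
    rw [mul_pow, ← neg_mul] at h1
    calc (∑ s ∈ S, Y s) ^ (2 * p)
        = (g ^ 2 * D) ^ p * (t ^ (2 * p) * (∑ s ∈ S, Y s) ^ (2 * p)) := by
          rw [← mul_assoc, mul_comm ((g ^ 2 * (D : ℝ)) ^ p), htp, one_mul]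
      _ ≤ _ := mul_le_mul_of_nonneg_left h1 hgp.le
  refine (Finset.sum_le_sum fun S _ => key S).trans ?_
  rw [← Finset.mul_sum, ← Finset.mul_sum, Finset.sum_add_distrib]
  have hF : (0 : ℝ) < ((2 * p).factorial : ℝ) := by exact_mod_cast Nat.factorial_pos _
  calc (g ^ 2 * (D : ℝ)) ^ p * (((2 * p).factorial : ℝ) *
        (∑ S ∈ (Icc 1 X).powersetCard D, Real.exp (t * ∑ s ∈ S, Y s) +
          ∑ S ∈ (Icc 1 X).powersetCard D, Real.exp (-t * ∑ s ∈ S, Y s)))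
      ≤ (g ^ 2 * (D : ℝ)) ^ p * (((2 * p).factorial : ℝ) *
        (2 * ((Icc 1 X).powersetCard D).card * Real.exp 2 +
          2 * ((Icc 1 X).powersetCard D).card * Real.exp 2)) := by
        refine mul_le_mul_of_nonneg_left ?_ hgp.le
        exact mul_le_mul_of_nonneg_left (add_le_add m1 m2) hF.le
    _ = _ := by ring

end Pool.Agent.SHP
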